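import Pool.Agent.V8H24.ZS.Per

/-! # Lower bound for the number of zeros of a system -/

set_option autoImplicit false

open Complex Filter Topology Set MeasureTheory
open H370 (zset mult NN Nd Ns)

namespace Pool.Agent.V8H24.ZS

open H385 (zz cc BB A1 bt wt)
open H385.NLow

theorem N_lowerZ {F : ℂ → ℂ} {T κ ℓ L C0 ρ : ℝ} {P : ℝ → ℝ → ℂ} (hF : ZSys F T κ ℓ L C0 ρ P)
    (hκ : 3 ≤ κ) (hκT : 8 * κ ≤ T) (hC0 : 0 < C0) (hL1 : 1 ≤ L) :
    T / (2 * Real.pi) * ℓ -
        (10 * C0) * (T + κ * L + T * L ^ 2 * Real.exp (-κ ^ 2 / 2)) ≤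
      (NN F T (2 * T) : ℝ) := by
  obtain ⟨V1, hV1⟩ : ∃ V1, V1 = T - 3 * κ := ⟨_, rfl⟩
  obtain ⟨V2, hV2⟩ : ∃ V2, V2 = 2 * T + 3 * κ := ⟨_, rfl⟩
  have hfin := hF.fin
  have hform := hF.form
  have g3 := hF.cnt
  have g1 := hF.edge1
  have g2 := hF.edge2
  rw [← hV1, ← hV2] at hfin hform g3
  rw [← hV1] at g1
  rw [← hV2] at g2
  have hT24 : 24 ≤ T := by linarith
  have hT0 : 0 < T := by linarith
  have hκ0 : 0 < κ := by linarith
  set ε := Real.exp (-κ ^ 2 / 2) with hε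
  have hε0 : 0 < ε := Real.exp_pos _
  -- integral lower bound
  have hsp := H385.Cut.sqrt_pi_pos
  have hsq1 : Real.sqrt Real.pi ^ 2 = Real.pi := Real.sq_sqrt Real.pi_pos.le
  have hlow : ∀ m ∈ Icc T (2 * T), 1 / (2 * Real.sqrt Real.pi) * (ℓ - C0) - C0 * (1 + L ^ 2 * ε) ≤
      (A1 F V1 V2 0 m).re := by
    intro m hm
    have h1 := hform 0 m le_rfl (by linarith [hm.1]) (by linarith [hm.2])
    have h2 : ((ℓ : ℂ) * cexp (I * m * (0 : ℝ)) * (Real.exp (-(0:ℝ) ^ 2 / 4) : ℂ) - P 0 m) =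
        (ℓ : ℂ) - P 0 m := by simp
    rw [h2] at h1
    have h3 : C0 * (Real.exp (-(ρ * (0:ℝ))) + L ^ 2 * Real.exp (0 - κ ^ 2 / 2)) =
        C0 * (1 + L ^ 2 * ε) := by
      rw [mul_zero, neg_zero, Real.exp_zero, zero_sub, hε]
      congr 4
      ring
    rw [h3] at h1
    have h4 := (abs_le.mp ((Complex.abs_re_le_norm _).trans h1)).1
    rw [Complex.sub_re, Complex.re_ofReal_mul, Complex.sub_re, Complex.ofReal_re] at h4
    have h5 : (P 0 m).re ≤ C0 := (Complex.re_le_norm _).trans (hF.P0 m)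
    have h6 : 1 / (2 * Real.sqrt Real.pi) * (ℓ - C0) ≤
        1 / (2 * Real.sqrt Real.pi) * (ℓ - (P 0 m).re) := by
      apply mul_le_mul_of_nonneg_left (by linarith) (by positivity)
    linarith
  have hcont : Continuous (fun m : ℝ => A1 F V1 V2 0 m) := by
    simp only [A1_zero F V1 V2 hfin]
    fun_prop
  have hint : T * (1 / (2 * Real.sqrt Real.pi) * (ℓ - C0) - C0 * (1 + L ^ 2 * ε)) ≤
      (∫ m in T..(2 * T), A1 F V1 V2 0 m).re := by
    have h1 : (∫ m in T..(2 * T), A1 F V1 V2 0 m).re = ∫ m in T..(2 * T), (A1 F V1 V2 0 m).re := by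
      have := (Complex.reCLM.intervalIntegral_comp_comm
        (hcont.intervalIntegrable (μ := volume) T (2 * T)))
      simpa using this.symm
    rw [h1]
    have h2 : ∫ m in T..(2 * T), (1 / (2 * Real.sqrt Real.pi) * (ℓ - C0) - C0 * (1 + L ^ 2 * ε)) =
        T * (1 / (2 * Real.sqrt Real.pi) * (ℓ - C0) - C0 * (1 + L ^ 2 * ε)) := by
      rw [intervalIntegral.integral_const, smul_eq_mul]
      ring
    rw [← h2]
    apply intervalIntegral.integral_mono_on (by linarith)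
    · exact continuous_const.intervalIntegrable _ _
    · exact (Complex.continuous_re.comp hcont).intervalIntegrable _ _
    · exact hlow
  -- upper bound of the zero side
  have hup : ∀ s ∈ hfin.toFinset, (c1 T (zz s)).re ≤
      (if T < s.im ∧ s.im ≤ 2 * T then 1 else 0) +
      2 * (if V1 < s.im ∧ s.im ≤ T + κ then 1 else 0) +
      2 * (if 2 * T - κ < s.im ∧ s.im ≤ V2 then 1 else 0) +
      2 * ε * (if V1 < s.im ∧ s.im ≤ V2 then 1 else 0) := by
    intro s hs
    rw [Finite.mem_toFinset] at hs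
    obtain ⟨hs1, hs2, hs3, hs4, _⟩ := hs
    have him : |(zz s).im| ≤ 1 / 2 := by
      rw [zz_im, abs_le]
      constructor <;> linarith
    rw [if_pos (⟨hs3, hs4⟩ : V1 < s.im ∧ s.im ≤ V2)]
    have i1 : (0:ℝ) ≤ if T < s.im ∧ s.im ≤ 2 * T then 1 else 0 := by split_ifs <;> norm_num
    have i2 : (0:ℝ) ≤ if V1 < s.im ∧ s.im ≤ T + κ then 1 else 0 := by split_ifs <;> norm_num
    have i3 : (0:ℝ) ≤ if 2 * T - κ < s.im ∧ s.im ≤ V2 then 1 else 0 := by
      split_ifs <;> norm_num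
    rcases le_or_gt s.im (T + κ) with h2 | h2
    · have := c1_bound T (by linarith) (zz s) him
      have h3 := Complex.re_le_norm (c1 T (zz s))
      rw [if_pos (⟨hs3, h2⟩ : V1 < s.im ∧ s.im ≤ T + κ)]
      linarith
    rcases le_or_gt s.im (2 * T - κ) with h3 | h3
    · have := c1_near T κ (by linarith) (zz s) him (by rw [zz_re]; exact h2.le)
        (by rw [zz_re]; exact h3)
      have h4 := Complex.re_le_norm (c1 T (zz s) - 1)
      rw [Complex.sub_re, Complex.one_re] at h4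
      rw [if_pos (⟨by linarith, by linarith⟩ : T < s.im ∧ s.im ≤ 2 * T)]
      linarith
    · have := c1_bound T (by linarith) (zz s) him
      have h5 := Complex.re_le_norm (c1 T (zz s))
      rw [if_pos (⟨h3, hs4⟩ : 2 * T - κ < s.im ∧ s.im ≤ V2)]
      linarith
  have hsum : (∑ s ∈ hfin.toFinset, (mult F s : ℂ) * c1 T (zz s)).re ≤
      NN F T (2 * T) + 2 * NN F V1 (T + κ) + 2 * NN F (2 * T - κ) V2 +
        2 * ε * NN F V1 V2 := by
    rw [Complex.re_sum, NN_eq_sum F V1 V2 hfin T (2 * T) (by linarith) (by linarith),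
      NN_eq_sum F V1 V2 hfin V1 (T + κ) (by linarith) (by linarith),
      NN_eq_sum F V1 V2 hfin (2 * T - κ) V2 (by linarith) (by linarith),
      NN_eq_sum F V1 V2 hfin V1 V2 le_rfl le_rfl, Finset.mul_sum, Finset.mul_sum, Finset.mul_sum,
      ← Finset.sum_add_distrib, ← Finset.sum_add_distrib, ← Finset.sum_add_distrib]
    apply Finset.sum_le_sum
    intro s hs
    have h1 : ((mult F s : ℂ) * c1 T (zz s)).re = (mult F s : ℝ) * (c1 T (zz s)).re := by
      rw [show (mult F s : ℂ) = ((mult F s : ℝ) : ℂ) by push_cast; rfl, Complex.re_ofReal_mul]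
    rw [h1]
    have h2 := mul_le_mul_of_nonneg_left (hup s hs) (Nat.cast_nonneg (α := ℝ) (mult F s))
    refine h2.trans (le_of_eq ?_)
    ring
  have hA1 := A1_integral F V1 V2 T hfin
  have hre := congrArg Complex.re hA1
  rw [Complex.re_ofReal_mul] at hre
  have hfinal : 1 / Real.sqrt Real.pi *
      (T * (1 / (2 * Real.sqrt Real.pi) * (ℓ - C0) - C0 * (1 + L ^ 2 * ε))) ≤
      NN F T (2 * T) + 2 * NN F V1 (T + κ) + 2 * NN F (2 * T - κ) V2 +
        2 * ε * NN F V1 V2 := by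
    calc _ ≤ 1 / Real.sqrt Real.pi * (∫ m in T..(2 * T), A1 F V1 V2 0 m).re :=
          mul_le_mul_of_nonneg_left hint (by positivity)
      _ ≤ _ := by rw [hre]; exact hsum
  have hs1 : 1 ≤ Real.sqrt Real.pi := by
    rw [Real.le_sqrt (by norm_num) (by positivity)]
    have := Real.pi_gt_three
    linarith
  have hleft : T / (2 * Real.pi) * ℓ - T * C0 - C0 * (T + T * L ^ 2 * ε) ≤ 1 / Real.sqrt Real.pi *
      (T * (1 / (2 * Real.sqrt Real.pi) * (ℓ - C0) - C0 * (1 + L ^ 2 * ε))) := by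
    have e1 : 1 / Real.sqrt Real.pi *
      (T * (1 / (2 * Real.sqrt Real.pi) * (ℓ - C0) - C0 * (1 + L ^ 2 * ε))) =
      T / (2 * Real.pi) * ℓ - T * C0 * (1 / (2 * Real.pi)) -
        (1 / Real.sqrt Real.pi) * (C0 * (T + T * L ^ 2 * ε)) := by
      have hs2 : Real.pi = Real.sqrt Real.pi * Real.sqrt Real.pi := by rw [← sq, hsq1]
      generalize Real.sqrt Real.pi = s at hs2 hsp ⊢
      rw [hs2]
      field_simp
    rw [e1]
    have e2 : 1 / (2 * Real.pi) ≤ 1 := by
      rw [div_le_one (by positivity)]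
      have := Real.pi_gt_three
      linarith
    have e3 : 1 / Real.sqrt Real.pi ≤ 1 := by
      rw [div_le_one hsp]
      exact hs1
    have e4 : T * C0 * (1 / (2 * Real.pi)) ≤ T * C0 :=
      mul_le_of_le_one_right (by positivity) e2
    have e5 : (1 / Real.sqrt Real.pi) * (C0 * (T + T * L ^ 2 * ε)) ≤ C0 * (T + T * L ^ 2 * ε) :=
      mul_le_of_le_one_left (by positivity) e3
    linarith
  have g4 : 2 * ε * (NN F V1 V2 : ℝ) ≤ 2 * C0 * (T * L ^ 2 * ε) := by
    calc 2 * ε * (NN F V1 V2 : ℝ) ≤ 2 * ε * (C0 * (T * L)) :=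
          mul_le_mul_of_nonneg_left g3 (by positivity)
      _ = 2 * C0 * T * ε * L := by ring
      _ ≤ 2 * C0 * T * ε * L ^ 2 := by
          apply mul_le_mul_of_nonneg_left _ (by positivity)
          nlinarith
      _ = _ := by ring
  have hTL : 0 ≤ T * L ^ 2 * ε := by positivity
  have hκL : 0 ≤ κ * L := by positivity
  have q4 := mul_nonneg hC0.le hT0.le
  have q5 := mul_nonneg hC0.le hTL
  have q6 := mul_nonneg hC0.le hκL
  have hexp : (10 * C0) * (T + κ * L + T * L ^ 2 * ε) =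
      10 * (C0 * T) + 10 * (C0 * (κ * L)) + 10 * (C0 * (T * L ^ 2 * ε)) := by ring
  rw [hexp]
  linarith

end Pool.Agent.V8H24.ZS
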