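import Pool.Agent.V8H24.ZS.Fam
import Pool.Agent.V8H24.ZS.NLow
import Pool.Agent.N880.HE.Core

/-! # From the mean square to the proportion: families of systems of zeros -/

set_option autoImplicit false

open Complex Filter Topology MeasureTheory Set

namespace Pool.Agent.V8H24.ZS

open H385 (bt wt Rw Rw_nonneg fa_Rw_cont fa_Rw_le)
open H370 (NN Nd Ns)
open Pool.Agent.N880.HD (sq_log_le ms_parts)
open Pool.Agent.N880.HE (choose_sd)

/-- the hypothesis on the main term of the mean square -/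
structure MainW (SW : ℝ → ℝ) (e γ D1 : ℝ) : Prop where
  cont : Continuous SW
  nonneg : ∀ u, 0 ≤ SW u
  le : ∀ u, 0 ≤ u → SW u ≤ D1 * (u + 1)
  int : ∀ s : ℝ, 0 < s → ∃ L0 : ℝ, 0 < L0 ∧ ∀ (Λ A B T : ℝ), L0 ≤ Λ → 0 ≤ A → 0 ≤ B →
      0 ≤ T → ∫ u in (0 : ℝ)..Λ, Rw γ (u / Λ) * (A * SW u + B * T) ≤
      A * (Real.sqrt Real.pi * Λ ^ 2 * (e * (∫ α in (0 : ℝ)..1, α * Rw γ α) + s)) +
        B * (Rw γ 0 * Λ * T)

set_option maxHeartbeats 4000000 in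
theorem coreZS (C0 ρ : ℝ) (hC0 : 0 < C0) (hρ0 : 0 < ρ) (hρ1 : ρ ≤ 1)
    (SW : ℝ → ℝ) (e γ κ0 D1 h : ℝ) (hD1 : 0 < D1) (he : 0 ≤ e) (h0 : 0 < γ) (hπ : γ < Real.pi)
    (hh0 : 0 < h) (hSW : MainW SW e γ D1)
    (hκ0 : Rw γ 0 / h + 2 * h * (e * ∫ α in (0 : ℝ)..1, α * Rw γ α) < κ0) :
    ∃ s η : ℝ, 0 < s ∧ s ≤ 1 / 2 ∧ 0 < η ∧ η ≤ 1 ∧ ∀ CM : ℝ, 0 < CM →
    ∃ L0 : ℝ, 1 ≤ L0 ∧ ∀ {ι : Type} (S : Finset ι) (ω : ι → ℝ) (ℓ : ι → ℝ) (F : ι → ℂ → ℂ)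
      (P : ι → ℝ → ℝ → ℂ) (T L : ℝ), L0 ≤ L → L ^ 2 ≤ T → T ≤ Real.exp L →
      (∀ i ∈ S, 0 ≤ ω i ∧ L ≤ ℓ i ∧ ZSys (F i) T L (ℓ i) ((1 + 2 * η) * L) C0 ρ (P i)) →
      (∀ u : ℝ, 0 ≤ u → u ≤ (1 - s) * h * L →
        ∫ t : ℝ, ∑ i ∈ S, ω i * ‖PG (P i) T u t‖ ^ 2 ≤
          (1 + s) * (∑ i ∈ S, ω i) * (T / (2 * Real.pi)) * SW u + CM * (∑ i ∈ S, ω i) * T) →
      (∀ i ∈ S, (1 : ℝ) ≤ (NN (F i) T (2 * T) : ℝ)) ∧
      ∑ i ∈ S, ω i * (2 * (NN (F i) T (2 * T) : ℝ) - (Ns (F i) T (2 * T) : ℝ)) ≤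
        κ0 * ∑ i ∈ S, ω i * (NN (F i) T (2 * T) : ℝ) ∧
      ∑ i ∈ S, ω i * (3 * (NN (F i) T (2 * T) : ℝ) - 2 * (Nd (F i) T (2 * T) : ℝ)) ≤
        κ0 * ∑ i ∈ S, ω i * (NN (F i) T (2 * T) : ℝ) := by
  have hpi := Real.pi_pos
  have hpi3 := Real.pi_gt_three
  obtain ⟨C1, hC1, hfam⟩ := famZ γ h0 hπ C0 ρ hC0 hρ0 hρ1
  obtain ⟨C2, hC2d⟩ : ∃ C2, C2 = 10 * C0 := ⟨_, rfl⟩
  have hC2 : 0 < C2 := by rw [hC2d]; positivity
  obtain ⟨R, hRdef⟩ : ∃ R, R = Rw γ 0 := ⟨_, rfl⟩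
  obtain ⟨J, hJdef⟩ : ∃ J, J = e * ∫ α in (0:ℝ)..1, α * Rw γ α := ⟨_, rfl⟩
  rw [← hRdef, ← hJdef] at hκ0
  have hR : 0 ≤ R := hRdef ▸ Rw_nonneg γ h0 hπ 0
  have hJ : 0 ≤ J := by
    rw [hJdef]
    refine mul_nonneg he ?_
    apply intervalIntegral.integral_nonneg zero_le_one
    intro α hα
    exact mul_nonneg hα.1 (Rw_nonneg γ h0 hπ α)
  obtain ⟨s, hs, hs1, hsκ⟩ := choose_sd (R := R) (J := J) (h := h) (κ0 := κ0) (d := 1) hh0
    (by rw [one_mul, div_one]; exact hκ0)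
  rw [one_mul, div_one] at hsκ
  obtain ⟨LY, hLY, hYint⟩ := hSW.int s hs
  obtain ⟨β, hβdef⟩ : ∃ β, β = (1 - s) * h := ⟨_, rfl⟩
  obtain ⟨c', hc'def⟩ : ∃ c', c' = 2 * β * (1 + s) * (J + s) := ⟨_, rfl⟩
  rw [← hβdef, ← hc'def] at hsκ
  have hβ : 0 < β := by rw [hβdef]; exact mul_pos (by linarith) hh0
  have hc' : 0 ≤ c' := by rw [hc'def]; positivity
  obtain ⟨ε1, hε1, hε1a, hε1b⟩ : ∃ ε1 : ℝ, 0 < ε1 ∧ ε1 ≤ s / 8 ∧
      6 * Real.pi * C1 * ε1 / β ≤ s / 8 := by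
    refine ⟨min (s / 8) (s / 8 * β / (6 * Real.pi * C1)), ?_, min_le_left _ _, ?_⟩
    · exact lt_min (by positivity) (by positivity)
    · have : 6 * Real.pi * C1 * min (s / 8) (s / 8 * β / (6 * Real.pi * C1)) ≤
          6 * Real.pi * C1 * (s / 8 * β / (6 * Real.pi * C1)) := by
        gcongr; exact min_le_right _ _
      rw [div_le_iff₀ hβ]
      refine this.trans (le_of_eq ?_)
      field_simp
  obtain ⟨η, hη, hη1, hη2⟩ : ∃ η : ℝ, 0 < η ∧ η ≤ 1 ∧ 8 * η * ((1 : ℝ) ^ 2 * R / β) ≤ s / 8 := by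
    have h2 : 0 ≤ (1 : ℝ) ^ 2 * R / β := by positivity
    refine ⟨min 1 (s / 64 / ((1 : ℝ) ^ 2 * R / β + 1)), lt_min (by positivity) (by positivity),
      min_le_left _ _, ?_⟩
    have h1 : min 1 (s / 64 / ((1 : ℝ) ^ 2 * R / β + 1)) ≤ s / 64 / ((1 : ℝ) ^ 2 * R / β + 1) :=
      min_le_right _ _
    have h3 : s / 64 / ((1 : ℝ) ^ 2 * R / β + 1) * ((1 : ℝ) ^ 2 * R / β) ≤ s / 64 := by
      rw [div_mul_eq_mul_div, div_le_iff₀ (by positivity)]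
      exact mul_le_mul_of_nonneg_left (by linarith) (by positivity)
    have h4 : min 1 (s / 64 / ((1 : ℝ) ^ 2 * R / β + 1)) * ((1 : ℝ) ^ 2 * R / β) ≤
        s / 64 / ((1 : ℝ) ^ 2 * R / β + 1) * ((1 : ℝ) ^ 2 * R / β) :=
      mul_le_mul_of_nonneg_right h1 h2
    linarith
  refine ⟨s, η, hs, hs1, hη, hη1, ?_⟩
  intro CM hCM
  obtain ⟨L0, q2, q3, q4, q5, q6, q7, q8, q9⟩ : ∃ L0 : ℝ,
      4 * β + 8 ≤ L0 ∧ 1 / β ≤ L0 ∧ LY / β ≤ L0 ∧
      C1 * (12 / β + 3) * (2 * Real.pi) ≤ s / 8 * L0 ∧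
      10 * Real.pi * C2 * ((1 : ℝ) ^ 2 * R / β + c' + s) ≤ s / 2 * L0 ∧
      4 * Real.pi * CM * R / ε1 ≤ L0 ∧
      (Real.sqrt (D1) + Real.sqrt CM) / ε1 ≤ L0 ∧ 2 * Real.pi * (5 * C2 + 1) ≤ L0 := by
    have a2 : 0 ≤ 4 * β + 8 := by positivity
    have a3 : 0 ≤ 1 / β := by positivity
    have a4 : 0 ≤ LY / β := by positivity
    have a5 : 0 ≤ C1 * (12 / β + 3) * (2 * Real.pi) * (8 / s) := by positivity
    have a6 : 0 ≤ 10 * Real.pi * C2 * ((1 : ℝ) ^ 2 * R / β + c' + s) * (2 / s) := by positivity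
    have a7 : 0 ≤ 4 * Real.pi * CM * R / ε1 := by positivity
    have a8 : 0 ≤ (Real.sqrt (D1) + Real.sqrt CM) / ε1 := by positivity
    have a9 : 0 ≤ 2 * Real.pi * (5 * C2 + 1) := by positivity
    refine ⟨(4 * β + 8) + 1 / β + LY / β +
      C1 * (12 / β + 3) * (2 * Real.pi) * (8 / s) +
      10 * Real.pi * C2 * ((1 : ℝ) ^ 2 * R / β + c' + s) * (2 / s) +
      4 * Real.pi * CM * R / ε1 +
      (Real.sqrt (D1) + Real.sqrt CM) / ε1 + 2 * Real.pi * (5 * C2 + 1),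
      by linarith, by linarith, by linarith, ?_, ?_, by linarith, by linarith,
      by linarith⟩
    · have e1 : C1 * (12 / β + 3) * (2 * Real.pi) =
          s / 8 * (C1 * (12 / β + 3) * (2 * Real.pi) * (8 / s)) := by field_simp
      rw [e1]
      refine mul_le_mul_of_nonneg_left ?_ (by positivity)
      rw [← e1]
      linarith
    · have e1 : 10 * Real.pi * C2 * ((1 : ℝ) ^ 2 * R / β + c' + s) =
          s / 2 * (10 * Real.pi * C2 * ((1 : ℝ) ^ 2 * R / β + c' + s) * (2 / s)) := by field_simp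
      rw [e1]
      refine mul_le_mul_of_nonneg_left ?_ (by positivity)
      rw [← e1]
      linarith
  have hL08 : 8 ≤ L0 := by linarith
  refine ⟨L0, by linarith, ?_⟩
  intro ι S ω ℓ F P T L hLL0 hTL hT2 hsys hms
  have hL8 : 8 ≤ L := by linarith
  have hL0 : 0 < L := by linarith
  have hTT : 1 ≤ T := by nlinarith
  have hTpos : 0 < T := by linarith
  obtain ⟨p1, p2, p3, p4, p5, p6⟩ := H385.param_ok β L T 1 hβ le_rfl (q2.trans hLL0)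
    (q3.trans hLL0) hTL (by rw [one_mul]; exact hT2)
  have hLm : (1 + 2 * η) * L ≤ 3 * L := mul_le_mul_of_nonneg_right (by linarith) (by linarith)
  have hLm1 : 1 ≤ (1 + 2 * η) * L :=
    le_trans (by linarith : 1 ≤ L) (le_mul_of_one_le_left (by linarith) (by linarith))
  have hLm0 : 0 ≤ (1 + 2 * η) * L := by linarith
  have hLm2 : ((1 + 2 * η) * L) ^ 2 ≤ 9 * L ^ 2 := by
    have h0 : ((1 + 2 * η) * L) ^ 2 ≤ (3 * L) ^ 2 := pow_le_pow_left₀ hLm0 hLm 2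
    linarith [show (3 * L) ^ 2 = 9 * L ^ 2 by ring]
  obtain ⟨W, hWd⟩ : ∃ W, W = ∑ i ∈ S, ω i := ⟨_, rfl⟩
  have hW0 : 0 ≤ W := hWd ▸ Finset.sum_nonneg fun i hi => (hsys i hi).1
  have hW : ∑ i ∈ S, ω i = W := hWd.symm
  obtain ⟨Yf, hYf⟩ : ∃ Yf : ℝ → ℝ, Yf = fun u => (1 + s) * W * (T / (2 * Real.pi)) *
      SW u + (CM * W) * T := ⟨_, rfl⟩
  have hms' : ∀ u ∈ Set.Icc 0 (β * L),
        ∫ t : ℝ, ∑ i ∈ S, ω i * ‖PG (P i) T u t‖ ^ 2 ≤ Yf u := by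
    intro u hu
    have h1 := hms u hu.1 (by rw [← hβdef]; exact hu.2)
    rw [hYf]
    rw [hW] at h1
    exact h1
  have hbd : ∀ u ∈ Set.Icc 0 (β * L), Yf u ≤ T * ((W * (D1)) * (u + 1) + W * CM) := by
    intro u hu
    rw [hYf]
    have hu0 : 0 ≤ u := hu.1
    have h1 : SW u ≤ D1 * (u + 1) := hSW.le u hu0
    have h2 : (1 + s) * W * (T / (2 * Real.pi)) * SW u ≤
        (W * T) * (D1 * (u + 1)) := by
      have e1 : (1 + s) * W * (T / (2 * Real.pi)) = (W * T) * ((1 + s) / (2 * Real.pi)) := by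
        field_simp
      rw [e1]
      have e2 : (1 + s) / (2 * Real.pi) ≤ 1 := by
        rw [div_le_one (by positivity)]; linarith
      have e3 : (W * T) * ((1 + s) / (2 * Real.pi)) ≤ W * T :=
        mul_le_of_le_one_right (by positivity) e2
      exact mul_le_mul e3 h1 (hSW.nonneg u) (by positivity)
    have h5 : T * ((W * (D1)) * (u + 1) + W * CM) =
      (W * T) * (D1 * (u + 1)) + (CM * W) * T := by ring
    rw [h5]
    exact add_le_add h2 le_rfl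
  have hYi : IntervalIntegrable Yf volume 0 (β * L) := by
    have hc2 : Continuous SW := hSW.cont
    rw [hYf]
    exact Continuous.intervalIntegrable (by fun_prop) _ _
  have hy1 : 0 ≤ W * (D1) := by positivity
  have hy2 : 0 ≤ W * CM := by positivity
  have hexp : ((1 + 2 * η) * L) ^ 2 * Real.exp (β * L - L ^ 2 / 2) ≤ Real.exp (-(β * L)) :=
    le_trans (mul_le_mul_of_nonneg_right hLm2 (Real.exp_pos _).le) p5
  obtain ⟨k1, k2⟩ := hfam S ω ℓ F P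
    T L (β * L) ((1 + 2 * η) * L) (W * D1) (W * CM) Yf (fun i hi => ⟨(hsys i hi).1,
      (hsys i hi).2.2⟩) p1 p2 p3 p4 hLm1 hexp
    hy1 hy2 hms' hbd hYi
  -- lower bound for the number of zeros
  have hN1 : ∀ i ∈ S, 1 * (T / (2 * Real.pi) * L) - 5 * C2 * T ≤
      (NN (F i) T (2 * T) : ℝ) := by
    intro i hi
    obtain ⟨b1, b2, b3⟩ := hsys i hi
    have hl := N_lowerZ b3 p1 p2 hC0 hLm1
    rw [← hC2d] at hl
    refine le_trans ?_ hl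
    have a1 : 1 * (T / (2 * Real.pi) * L) ≤ T / (2 * Real.pi) * ℓ i := by
      rw [one_mul]
      exact mul_le_mul_of_nonneg_left b2 (by positivity)
    have a2 : L * ((1 + 2 * η) * L) ≤ 3 * T := by
      have : L * ((1 + 2 * η) * L) ≤ L * (3 * L) := mul_le_mul_of_nonneg_left hLm (by linarith)
      linarith [show L * (3 * L) = 3 * L ^ 2 by ring]
    have a3 : T * ((1 + 2 * η) * L) ^ 2 * Real.exp (-L ^ 2 / 2) ≤ T := by
      have b2 : ((1 + 2 * η) * L) ^ 2 * Real.exp (-L ^ 2 / 2) ≤ 1 :=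
        le_trans (mul_le_mul_of_nonneg_right hLm2 (Real.exp_pos _).le) p6
      calc _ = T * (((1 + 2 * η) * L) ^ 2 * Real.exp (-L ^ 2 / 2)) := by ring
        _ ≤ T * 1 := mul_le_mul_of_nonneg_left b2 hTpos.le
        _ = T := mul_one T
    have a4 : C2 * (T + L * ((1 + 2 * η) * L) + T * ((1 + 2 * η) * L) ^ 2 *
        Real.exp (-L ^ 2 / 2)) ≤ C2 * (5 * T) := mul_le_mul_of_nonneg_left (by linarith) hC2.le
    linarith
  have hN : W * (1 * (T / (2 * Real.pi) * L) - 5 * C2 * T) ≤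
      ∑ i ∈ S, ω i * (NN (F i) T (2 * T) : ℝ) := by
    rw [hWd, Finset.sum_mul]
    exact Finset.sum_le_sum fun i hi => mul_le_mul_of_nonneg_left (hN1 i hi) (hsys i hi).1
  have hone : ∀ i ∈ S, (1 : ℝ) ≤ (NN (F i) T (2 * T) : ℝ) := by
    intro i hi
    refine le_trans ?_ (hN1 i hi)
    have h1 : 2 * Real.pi * (5 * C2 + 1) ≤ L := q9.trans hLL0
    have h2 : T / (2 * Real.pi) * (2 * Real.pi * (5 * C2 + 1)) ≤ T / (2 * Real.pi) * L :=
      mul_le_mul_of_nonneg_left h1 (by positivity)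
    have h3 : T / (2 * Real.pi) * (2 * Real.pi * (5 * C2 + 1)) = T * (5 * C2 + 1) := by
      field_simp
    linarith
  obtain ⟨SN, hSN⟩ : ∃ SN, SN = ∑ i ∈ S, ω i * (NN (F i) T (2 * T) : ℝ) := ⟨_, rfl⟩
  have hSN0 : 0 ≤ SN := hSN ▸ Finset.sum_nonneg fun i hi =>
    mul_nonneg (hsys i hi).1 (Nat.cast_nonneg _)
  rw [← hSN] at hN ⊢
  have hs8L : s / 8 * L0 ≤ s / 8 * L := mul_le_mul_of_nonneg_left hLL0 (by positivity)
  have hs2L : s / 2 * L0 ≤ s / 2 * L := mul_le_mul_of_nonneg_left hLL0 (by positivity)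
  have hJ1 : (2 / (Real.sqrt Real.pi * (β * L))) * (∫ u in (0 : ℝ)..(β * L),
      Rw γ (u / (β * L)) * Yf u) ≤ T / (2 * Real.pi) * L * W * (c' + ε1) := by
    have h1 := hYint (β * L) ((1 + s) * W * (T / (2 * Real.pi))) (CM * W) T
      (by have := q4.trans hLL0; rw [div_le_iff₀ hβ] at this; linarith) (by positivity)
      (by positivity) hTpos.le
    rw [← hJdef, ← hRdef] at h1
    have h2 := ms_parts (CM := CM) (R := R) (J := J) (W := W) hs (by linarith : 1 ≤ L) hTT hβ hW0 hJ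
      hR hCM (q7.trans hLL0) hε1
    rw [zero_mul, add_zero] at h2
    rw [hc'def]
    refine le_trans (mul_le_mul_of_nonneg_left ?_ (by positivity)) h2
    rw [hYf]
    exact h1
  have hs12 : Real.sqrt (W * (D1)) + Real.sqrt (W * CM) ≤ ε1 * L * Real.sqrt W := by
    rw [Real.sqrt_mul hW0, Real.sqrt_mul hW0, ← mul_add]
    have h1 := q8.trans hLL0
    rw [div_le_iff₀ hε1] at h1
    calc Real.sqrt W * (Real.sqrt (D1) + Real.sqrt CM) ≤ Real.sqrt W * (L * ε1) :=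
          mul_le_mul_of_nonneg_left h1 (Real.sqrt_nonneg _)
      _ = _ := by ring
  have core : ∀ (SM : ℝ),
      SM ≤ W * (1 * ((1 + 2 * η) * L)) ^ 2 * R * T / (2 * Real.pi * (β * L)) +
        (2 / (Real.sqrt Real.pi * (β * L))) * (∫ u in (0 : ℝ)..(β * L),
          Rw γ (u / (β * L)) * Yf u) +
      C1 * (W * (((1 + 2 * η) * L) ^ 2 * L / (β * L) + ((1 + 2 * η) * L) * T / (β * L) +
        L * ((1 + 2 * η) * L)) + Real.sqrt W * ((1 + 2 * η) * L) * T *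
          (Real.sqrt (W * (D1)) + Real.sqrt (W * CM)) / (β * L)) →
      SM ≤ κ0 * SN := by
    intro SM hSM
    have h1 : SM ≤ (1 * R / β + c' / 1 + s) * SN :=
      H385.numeric_core_D 1 β c' s R C1 C2 η ε1 L T W _ SM _ _ le_rfl hβ hc' hs hR hC1
        hC2 hη hη1 hε1 hL8 hTL hW0 hη2 hε1a (q5.trans hs8L) hε1b (q6.trans hs2L) hJ1 hs12
        hSM hN hSN0
    rw [one_mul, div_one] at h1
    exact h1.trans (mul_le_mul_of_nonneg_right hsκ.le hSN0)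
  refine ⟨hone, ?_, ?_⟩
  · refine core _ ?_
    rw [hW, ← hRdef] at k1
    rw [one_mul]
    exact k1
  · refine core _ ?_
    rw [hW, ← hRdef] at k2
    rw [one_mul]
    exact k2

end Pool.Agent.V8H24.ZS
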