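import Pool.Agent.V8H24.ZS.Per
import Pool.Agent.H385R2.FamBase

/-! # The cut-off zero sum for a system of zeros -/

set_option autoImplicit false

open Complex Filter Topology Set MeasureTheory
open H370 (zset mult NN Nd Ns)

namespace Pool.Agent.V8H24.ZS

open H385 (zz cc BB A1 bt wt A1_cont BB_eq wt_nonneg wt_le_one wt_cont wt_sq_int)

/-- the cut-off version of a prime side -/
noncomputable def PG (P : ℝ → ℝ → ℂ) (T u t : ℝ) : ℂ :=
  ((1 / (2 * Real.sqrt Real.pi) * (1 / Real.sqrt (2 * Real.pi)) : ℝ) : ℂ) *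
    ∫ τ in T..(2 * T), (Real.exp (-(t - τ) ^ 2 / 4) : ℂ) * P u ((t + τ) / 2)

theorem BB_formulaZ (F : ℂ → ℂ) (P : ℝ → ℝ → ℂ) (Lq V1 V2 T κ u E : ℝ)
    (hP : Continuous (P u))
    (hfin : (zset F V1 V2).Finite) (hκ : 3 ≤ κ) (hT : 8 * κ ≤ T)
    (hE : ∀ m : ℝ, T - 3 / 2 * κ ≤ m → m ≤ 2 * T + 3 / 2 * κ →
        ‖A1 F V1 V2 u m - (1 / (2 * Real.sqrt Real.pi) : ℝ) *
          (Lq * cexp (I * m * u) * Real.exp (-u ^ 2 / 4) - P u m)‖ ≤ E)
    (t : ℝ) (h1 : T - 3 * κ ≤ t) (h2 : t ≤ 2 * T + 3 * κ) :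
    ‖BB F V1 V2 T u t - (Lq * bt T u t 0 - PG P T u t)‖ ≤ 2 * E * wt T t := by
  have hT2 : T ≤ 2 * T := by linarith
  have hcA : Continuous (fun m : ℝ => A1 F V1 V2 u m) := A1_cont F V1 V2 u hfin
  have hcP : Continuous (fun m : ℝ => P u m) := hP
  have hbt0 : Lq * bt T u t 0 = ((1 / Real.sqrt (2 * Real.pi) : ℝ) : ℂ) *
      ∫ τ in T..(2 * T), (Real.exp (-(t - τ) ^ 2 / 4) : ℂ) *
        (((1 / (2 * Real.sqrt Real.pi) : ℝ) : ℂ) *
          (Lq * cexp (I * ((t + τ) / 2 : ℝ) * u) * Real.exp (-u ^ 2 / 4))) := by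
    have e : ∀ τ : ℝ, (Real.exp (-(t - τ) ^ 2 / 4) : ℂ) *
        (((1 / (2 * Real.sqrt Real.pi) : ℝ) : ℂ) *
          (Lq * cexp (I * ((t + τ) / 2 : ℝ) * u) * Real.exp (-u ^ 2 / 4))) =
        (((1 / (2 * Real.sqrt Real.pi) : ℝ) : ℂ) * Lq * Real.exp (-u ^ 2 / 4)) *
          ((Real.exp (-(t - τ) ^ 2 / 4) : ℂ) * cexp (I * ((t + τ) / 2) * (u - (0 : ℝ)))) := by
      intro τ
      push_cast
      rw [sub_zero]
      ring
    simp_rw [e]
    rw [intervalIntegral.integral_const_mul]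
    unfold bt
    rw [sub_zero]
    push_cast
    ring
  have hkey : BB F V1 V2 T u t - (Lq * bt T u t 0 - PG P T u t) =
      ((1 / Real.sqrt (2 * Real.pi) : ℝ) : ℂ) *
        ∫ τ in T..(2 * T), (Real.exp (-(t - τ) ^ 2 / 4) : ℂ) *
          (A1 F V1 V2 u ((t + τ) / 2) - (1 / (2 * Real.sqrt Real.pi) : ℝ) *
          (Lq * cexp (I * ((t + τ) / 2 : ℝ) * u) * Real.exp (-u ^ 2 / 4) -
            P u ((t + τ) / 2))) := by
    rw [BB_eq F V1 V2 T u t hfin, hbt0]
    unfold PG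
    have hi1 : IntervalIntegrable (fun τ : ℝ => (Real.exp (-(t - τ) ^ 2 / 4) : ℂ) *
        A1 F V1 V2 u ((t + τ) / 2)) volume T (2 * T) := by
      apply Continuous.intervalIntegrable
      have : Continuous fun τ : ℝ => A1 F V1 V2 u ((t + τ) / 2) := hcA.comp (by fun_prop)
      fun_prop
    have hi2 : IntervalIntegrable (fun τ : ℝ => (Real.exp (-(t - τ) ^ 2 / 4) : ℂ) *
        (((1 / (2 * Real.sqrt Real.pi) : ℝ) : ℂ) *
          (Lq * cexp (I * ((t + τ) / 2 : ℝ) * u) * Real.exp (-u ^ 2 / 4)))) volume T (2 * T) := by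
      apply Continuous.intervalIntegrable
      fun_prop
    have hi3 : IntervalIntegrable (fun τ : ℝ => (Real.exp (-(t - τ) ^ 2 / 4) : ℂ) *
        P u ((t + τ) / 2)) volume T (2 * T) := by
      apply Continuous.intervalIntegrable
      have : Continuous fun τ : ℝ => P u ((t + τ) / 2) := hcP.comp (by fun_prop)
      fun_prop
    have e : ∀ τ : ℝ, (Real.exp (-(t - τ) ^ 2 / 4) : ℂ) *
          (A1 F V1 V2 u ((t + τ) / 2) - (1 / (2 * Real.sqrt Real.pi) : ℝ) *
          (Lq * cexp (I * ((t + τ) / 2 : ℝ) * u) * Real.exp (-u ^ 2 / 4) -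
            P u ((t + τ) / 2))) =
        ((Real.exp (-(t - τ) ^ 2 / 4) : ℂ) * A1 F V1 V2 u ((t + τ) / 2) -
        (Real.exp (-(t - τ) ^ 2 / 4) : ℂ) *
        (((1 / (2 * Real.sqrt Real.pi) : ℝ) : ℂ) *
          (Lq * cexp (I * ((t + τ) / 2 : ℝ) * u) * Real.exp (-u ^ 2 / 4)))) +
        ((1 / (2 * Real.sqrt Real.pi) : ℝ) : ℂ) *
          ((Real.exp (-(t - τ) ^ 2 / 4) : ℂ) * P u ((t + τ) / 2)) := by
      intro τ
      ring
    simp_rw [e]
    rw [intervalIntegral.integral_add (hi1.sub hi2) (hi3.const_mul _),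
      intervalIntegral.integral_sub hi1 hi2, intervalIntegral.integral_const_mul]
    push_cast
    ring
  rw [hkey, norm_mul, Complex.norm_real, Real.norm_of_nonneg (by positivity)]
  have hE0 : 0 ≤ E := by
    refine (norm_nonneg _).trans (hE (T + 0) ?_ ?_) <;> linarith
  have hint : ‖∫ τ in T..(2 * T), (Real.exp (-(t - τ) ^ 2 / 4) : ℂ) *
          (A1 F V1 V2 u ((t + τ) / 2) - (1 / (2 * Real.sqrt Real.pi) : ℝ) *
          (Lq * cexp (I * ((t + τ) / 2 : ℝ) * u) * Real.exp (-u ^ 2 / 4) -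
            P u ((t + τ) / 2)))‖ ≤
      ∫ τ in T..(2 * T), Real.exp (-(t - τ) ^ 2 / 4) * E := by
    refine intervalIntegral.norm_integral_le_of_norm_le hT2 ?_ ?_
    · refine Eventually.of_forall fun τ hτ => ?_
      rw [norm_mul, Complex.norm_real, Real.norm_of_nonneg (Real.exp_pos _).le]
      refine mul_le_mul_of_nonneg_left ?_ (Real.exp_pos _).le
      refine hE ((t + τ) / 2) ?_ ?_
      · linarith [hτ.1]
      · linarith [hτ.2]
    · apply Continuous.intervalIntegrable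
      fun_prop
  rw [intervalIntegral.integral_mul_const] at hint
  have hwt : ∫ τ in T..(2 * T), Real.exp (-(t - τ) ^ 2 / 4) = 2 * Real.sqrt Real.pi * wt T t := by
    unfold wt
    have : Real.sqrt Real.pi ≠ 0 := (Real.sqrt_pos.2 Real.pi_pos).ne'
    field_simp
  have hwt0 : 0 ≤ wt T t := by
    unfold wt
    refine mul_nonneg (by positivity) (intervalIntegral.integral_nonneg hT2 fun τ _ =>
      (Real.exp_pos _).le)
  rw [hwt] at hint
  calc 1 / Real.sqrt (2 * Real.pi) * _ ≤ 1 / Real.sqrt (2 * Real.pi) *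
        (2 * Real.sqrt Real.pi * wt T t * E) := by gcongr
    _ = Real.sqrt 2 * (E * wt T t) := by
        rw [Real.sqrt_mul (by norm_num : (0:ℝ) ≤ 2)]
        have h3 : Real.sqrt Real.pi ≠ 0 := (Real.sqrt_pos.2 Real.pi_pos).ne'
        have h4 : Real.sqrt 2 ≠ 0 := (Real.sqrt_pos.2 (by norm_num)).ne'
        field_simp
        rw [Real.sq_sqrt (by norm_num)]
    _ ≤ 2 * (E * wt T t) := by
        refine mul_le_mul_of_nonneg_right ?_ (mul_nonneg hE0 hwt0)
        rw [Real.sqrt_le_iff]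
        norm_num
    _ = 2 * E * wt T t := by ring

/-! ### continuity and integrability of the cut-off prime side -/

lemma PG_norm_le (P : ℝ → ℝ → ℂ) {T u B : ℝ} (hT : 0 ≤ T) (hB : ∀ m, ‖P u m‖ ≤ B) (t : ℝ) :
    ‖PG P T u t‖ ≤ B * wt T t := by
  have hT2 : T ≤ 2 * T := by linarith
  have hB0 : 0 ≤ B := (norm_nonneg _).trans (hB 0)
  unfold PG
  rw [norm_mul, Complex.norm_real, Real.norm_of_nonneg (by positivity)]
  have hint : ‖∫ τ in T..(2 * T), (Real.exp (-(t - τ) ^ 2 / 4) : ℂ) * P u ((t + τ) / 2)‖ ≤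
      ∫ τ in T..(2 * T), Real.exp (-(t - τ) ^ 2 / 4) * B := by
    refine intervalIntegral.norm_integral_le_of_norm_le hT2 ?_ ?_
    · refine Eventually.of_forall fun τ _ => ?_
      rw [norm_mul, Complex.norm_real, Real.norm_of_nonneg (Real.exp_pos _).le]
      exact mul_le_mul_of_nonneg_left (hB _) (Real.exp_pos _).le
    · apply Continuous.intervalIntegrable
      fun_prop
  rw [intervalIntegral.integral_mul_const] at hint
  have hwt : ∫ τ in T..(2 * T), Real.exp (-(t - τ) ^ 2 / 4) = 2 * Real.sqrt Real.pi * wt T t := by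
    unfold wt
    have : Real.sqrt Real.pi ≠ 0 := (Real.sqrt_pos.2 Real.pi_pos).ne'
    field_simp
  rw [hwt] at hint
  have hwt0 := wt_nonneg T t hT
  calc _ ≤ 1 / (2 * Real.sqrt Real.pi) * (1 / Real.sqrt (2 * Real.pi)) *
        (2 * Real.sqrt Real.pi * wt T t * B) := by gcongr
    _ = (1 / Real.sqrt (2 * Real.pi)) * (B * wt T t) := by
        have h3 : Real.sqrt Real.pi ≠ 0 := (Real.sqrt_pos.2 Real.pi_pos).ne'
        field_simp
    _ ≤ 1 * (B * wt T t) := by
        refine mul_le_mul_of_nonneg_right ?_ (mul_nonneg hB0 hwt0)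
        rw [div_le_one (by positivity)]
        exact Real.one_le_sqrt.2 (by linarith [Real.pi_gt_three])
    _ = _ := one_mul _

lemma PG_cont (P : ℝ → ℝ → ℂ) {T u : ℝ} (hP : Continuous (P u)) :
    Continuous (fun t => PG P T u t) := by
  unfold PG
  refine continuous_const.mul ?_
  apply intervalIntegral.continuous_parametric_intervalIntegral_of_continuous'
  have h1 : Continuous (fun p : ℝ × ℝ => P u ((p.1 + p.2) / 2)) := hP.comp (by fun_prop)
  have h2 : Continuous (fun p : ℝ × ℝ => (Real.exp (-(p.1 - p.2) ^ 2 / 4) : ℂ)) := by fun_prop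
  exact h2.mul h1

lemma PG_int (P : ℝ → ℝ → ℂ) {T u : ℝ} (hT : 0 ≤ T) (hP : Continuous (P u))
    (hB : ∃ B, ∀ m, ‖P u m‖ ≤ B) : Integrable (fun t => ‖PG P T u t‖ ^ 2) := by
  obtain ⟨B, hB⟩ := hB
  obtain ⟨C3, hC3, hwt⟩ := wt_sq_int
  have hB0 : 0 ≤ B := (norm_nonneg _).trans (hB 0)
  refine Integrable.mono' ((hwt T hT).1.const_mul (B ^ 2)) ?_ ?_
  · exact ((PG_cont P hP).norm.pow 2).aestronglyMeasurable
  · refine Eventually.of_forall fun t => ?_
    rw [Real.norm_of_nonneg (sq_nonneg _), ← mul_pow]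
    exact pow_le_pow_left₀ (norm_nonneg _) (PG_norm_le P hT hB t) 2

lemma PG_add (P P' : ℝ → ℝ → ℂ) {T u : ℝ} (hP : Continuous (P u)) (hP' : Continuous (P' u))
    (t : ℝ) : PG (fun u m => P u m + P' u m) T u t = PG P T u t + PG P' T u t := by
  unfold PG
  rw [← mul_add, ← intervalIntegral.integral_add]
  · congr 1
    apply intervalIntegral.integral_congr
    intro τ _
    simp only
    ring
  · apply Continuous.intervalIntegrable
    have : Continuous fun τ : ℝ => P u ((t + τ) / 2) := hP.comp (by fun_prop)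
    fun_prop
  · apply Continuous.intervalIntegrable
    have : Continuous fun τ : ℝ => P' u ((t + τ) / 2) := hP'.comp (by fun_prop)
    fun_prop

end Pool.Agent.V8H24.ZS
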