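import Pool.Agent.V8H24.ZS.Per
import Pool.Agent.V8H24.ZS.Cut
import Pool.Agent.W388.TW.LocalE
import Pool.Agent.W388.TW.CoefE
import Pool.Agent.H343R2.EFb

/-! # Dilations and vertical translates of an L-function -/

set_option autoImplicit false

open Complex Filter Topology Set MeasureTheory
open scoped BigOperators ComplexConjugate
open H370 (zset mult NN Nd Ns)

namespace Pool.Agent.V8H24.ZS

open H385 (zz A1 bt zz_re zz_im)
open H385.PerChi (zz_spec zz_refl zz_inj)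
open H343 (hhb PPb norm_hhb)
open W388 (GoodE CoefE)

/-- the affine map -/
noncomputable def dm (g α : ℝ) (s : ℂ) : ℂ := 1 / 2 + g * (s - 1 / 2 + I * α)

/-- dilation by `g` and vertical translation by `α` -/
noncomputable def dil (g α : ℝ) (F : ℂ → ℂ) : ℂ → ℂ := fun s => F (dm g α s)

lemma dm_re (g α : ℝ) (s : ℂ) : (dm g α s).re = 1 / 2 + g * (s.re - 1 / 2) := by
  unfold dm
  rw [add_re, re_ofReal_mul]
  simp

lemma dm_im (g α : ℝ) (s : ℂ) : (dm g α s).im = g * (s.im + α) := by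
  unfold dm
  rw [add_im, im_ofReal_mul]
  simp

lemma dm_inj {g : ℝ} (hg : g ≠ 0) (α : ℝ) : Function.Injective (dm g α) := by
  intro s t h
  unfold dm at h
  have hg' : (g : ℂ) ≠ 0 := by exact_mod_cast hg
  have h1 := add_left_cancel h
  have h2 := mul_left_cancel₀ hg' h1
  linear_combination h2

lemma dm_surj {g : ℝ} (hg : g ≠ 0) (α : ℝ) (w : ℂ) : ∃ s, dm g α s = w := by
  have hg' : (g : ℂ) ≠ 0 := by exact_mod_cast hg
  refine ⟨(w - 1 / 2) / g + 1 / 2 - I * α, ?_⟩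
  unfold dm
  field_simp
  ring

lemma zz_dm (g α : ℝ) (s : ℂ) : zz (dm g α s) = g * (zz s + α) := by
  unfold zz dm
  have hI : I * I = -1 := Complex.I_mul_I
  linear_combination (-(g : ℂ) * α) * hI

lemma mult_dil {g : ℝ} (hg : g ≠ 0) (α : ℝ) (F : ℂ → ℂ) (s : ℂ) :
    mult (dil g α F) s = mult F (dm g α s) := by
  have h1 : AnalyticAt ℂ (dm g α) s := by
    unfold dm; fun_prop
  have hd : deriv (dm g α) s ≠ 0 := by
    have : HasDerivAt (dm g α) (g : ℂ) s := by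
      unfold dm
      have h2 : HasDerivAt (fun s : ℂ => s - 1 / 2 + I * α) 1 s := by
        simpa using ((hasDerivAt_id s).sub_const (1 / 2 : ℂ)).add_const (I * (α : ℂ))
      simpa using (h2.const_mul (g : ℂ)).const_add (1 / 2 : ℂ)
    rw [this.deriv]
    exact_mod_cast hg
  have h := analyticOrderAt_comp_of_deriv_ne_zero (f := F) h1 hd
  unfold H370.mult analyticOrderNatAt
  have h2 : dil g α F = F ∘ dm g α := rfl
  rw [h2, h]

/-- no zeros outside the strip -/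
structure NZ (F : ℂ → ℂ) : Prop where
  r : ∀ s : ℂ, 1 ≤ s.re → 1 ≤ s.im → F s ≠ 0
  l : ∀ s : ℂ, s.re ≤ 0 → 1 ≤ s.im → F s ≠ 0

lemma nzE {d A Q : ℝ} {F : ℂ → ℂ} {a : ℕ → ℂ} (h : GoodE d A Q F a) : NZ F := ⟨h.nzr, h.nzl⟩

lemma mem_dil {g : ℝ} (hg : 1 ≤ g) (α : ℝ) {F : ℂ → ℂ} (hF : NZ F) {V1 V2 : ℝ}
    (hV : 1 ≤ g * (V1 + α)) (s : ℂ) :
    s ∈ zset (dil g α F) V1 V2 ↔ dm g α s ∈ zset F (g * (V1 + α)) (g * (V2 + α)) := by
  have hg0 : 0 < g := by linarith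
  constructor
  · rintro ⟨h1, h2, h3, h4, h5⟩
    have h3' : g * (V1 + α) < (dm g α s).im := by
      rw [dm_im]; exact mul_lt_mul_of_pos_left (by linarith) hg0
    have h4' : (dm g α s).im ≤ g * (V2 + α) := by
      rw [dm_im]; exact mul_le_mul_of_nonneg_left (by linarith) hg0.le
    refine ⟨?_, ?_, h3', h4', h5⟩
    · by_contra h
      push Not at h
      exact hF.l _ h (by linarith) h5
    · by_contra h
      push Not at h
      exact hF.r _ h (by linarith) h5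
  · rintro ⟨h1, h2, h3, h4, h5⟩
    rw [dm_re] at h1 h2
    rw [dm_im] at h3 h4
    have h3' := lt_of_mul_lt_mul_left h3 hg0.le
    have h4' := le_of_mul_le_mul_left h4 hg0
    refine ⟨?_, ?_, by linarith, by linarith, h5⟩
    · by_contra h
      push Not at h
      nlinarith
    · by_contra h
      push Not at h
      nlinarith

lemma zset_dil {g : ℝ} (hg : 1 ≤ g) (α : ℝ) {F : ℂ → ℂ} (hF : NZ F) {V1 V2 : ℝ}
    (hV : 1 ≤ g * (V1 + α)) :
    zset F (g * (V1 + α)) (g * (V2 + α)) = dm g α '' zset (dil g α F) V1 V2 := by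
  have hg0 : g ≠ 0 := by linarith
  ext w
  constructor
  · intro hw
    obtain ⟨s, rfl⟩ := dm_surj hg0 α w
    exact ⟨s, (mem_dil hg α hF hV s).2 hw, rfl⟩
  · rintro ⟨s, hs, rfl⟩
    exact (mem_dil hg α hF hV s).1 hs

lemma sum_dil {g : ℝ} (hg : 1 ≤ g) (α : ℝ) {F : ℂ → ℂ} (hF : NZ F) {V1 V2 : ℝ}
    (hV : 1 ≤ g * (V1 + α)) {M : Type} [AddCommMonoid M] (f : ℂ → M) :
    ∑ᶠ w ∈ zset F (g * (V1 + α)) (g * (V2 + α)), f w =
      ∑ᶠ s ∈ zset (dil g α F) V1 V2, f (dm g α s) := by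
  have hg0 : g ≠ 0 := by linarith
  rw [zset_dil hg α hF hV, finsum_mem_image ((dm_inj hg0 α).injOn)]

lemma NN_dil {g : ℝ} (hg : 1 ≤ g) (α : ℝ) {F : ℂ → ℂ} (hF : NZ F) {V1 V2 : ℝ}
    (hV : 1 ≤ g * (V1 + α)) :
    NN (dil g α F) V1 V2 = NN F (g * (V1 + α)) (g * (V2 + α)) := by
  have hg0 : g ≠ 0 := by linarith
  unfold H370.NN
  rw [sum_dil hg α hF hV]
  exact finsum_congr fun s => finsum_congr fun _ => mult_dil hg0 α F s

lemma Nd_dil {g : ℝ} (hg : 1 ≤ g) (α : ℝ) {F : ℂ → ℂ} (hF : NZ F) {V1 V2 : ℝ}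
    (hV : 1 ≤ g * (V1 + α)) :
    Nd (dil g α F) V1 V2 = Nd F (g * (V1 + α)) (g * (V2 + α)) := by
  have hg0 : g ≠ 0 := by linarith
  unfold H370.Nd
  rw [zset_dil hg α hF hV, Set.ncard_image_of_injective _ (dm_inj hg0 α)]

lemma Ns_dil {g : ℝ} (hg : 1 ≤ g) (α : ℝ) {F : ℂ → ℂ} (hF : NZ F) {V1 V2 : ℝ}
    (hV : 1 ≤ g * (V1 + α)) :
    Ns (dil g α F) V1 V2 = Ns F (g * (V1 + α)) (g * (V2 + α)) := by
  have hg0 : g ≠ 0 := by linarith
  unfold H370.Ns
  rw [← Set.ncard_image_of_injective {s : ℂ | s ∈ zset (dil g α F) V1 V2 ∧ s.re = 1 / 2 ∧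
    mult (dil g α F) s = 1} (dm_inj hg0 α)]
  congr 1
  ext w
  constructor
  · rintro ⟨s, ⟨h1, h2, h3⟩, rfl⟩
    refine ⟨(mem_dil hg α hF hV s).1 h1, ?_, ?_⟩
    · rw [dm_re, h2]; ring
    · rw [← mult_dil hg0]; exact h3
  · rintro ⟨h1, h2, h3⟩
    obtain ⟨s, rfl⟩ := dm_surj hg0 α w
    refine ⟨s, ⟨(mem_dil hg α hF hV s).2 h1, ?_, ?_⟩, rfl⟩
    · rw [dm_re] at h2
      have : g * (s.re - 1 / 2) = 0 := by linarith
      rcases mul_eq_zero.1 this with h | h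
      · exact absurd h hg0
      · linarith
    · rw [mult_dil hg0]; exact h3

lemma fin_dil {g : ℝ} (hg : 1 ≤ g) (α : ℝ) {F : ℂ → ℂ} (hF : NZ F) {V1 V2 : ℝ}
    (hV : 1 ≤ g * (V1 + α)) (h : (zset F (g * (V1 + α)) (g * (V2 + α))).Finite) :
    (zset (dil g α F) V1 V2).Finite := by
  have hg0 : g ≠ 0 := by linarith
  rw [zset_dil hg α hF hV] at h
  exact h.of_finite_image (dm_inj hg0 α).injOn

lemma dm_conj (g α : ℝ) (s : ℂ) : dm g α (1 - conj s) = 1 - conj (dm g α s) := by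
  unfold dm
  rw [map_add, map_mul, map_add, map_sub, map_mul, conj_I, conj_ofReal, conj_ofReal, map_div₀,
    map_one, map_ofNat]
  ring

/-- the Gaussian zero sum of the dilated function -/
lemma A1_dil {g : ℝ} (hg : 1 ≤ g) (α : ℝ) {F : ℂ → ℂ} (hF : NZ F) {V1 V2 : ℝ}
    (hV : 1 ≤ g * (V1 + α)) (hfin : (zset (dil g α F) V1 V2).Finite) (u m : ℝ) :
    A1 (dil g α F) V1 V2 u m = cexp (-(I * u * α)) *
      ∑ᶠ w ∈ zset F (g * (V1 + α)) (g * (V2 + α)), (mult F w : ℂ) *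
        hhb (2 / g ^ 2) (u / g) (g * (m + α)) w := by
  have hg0 : g ≠ 0 := by linarith
  have hgc : (g : ℂ) ≠ 0 := by exact_mod_cast hg0
  rw [sum_dil hg α hF hV, ← smul_eq_mul, smul_finsum_mem hfin]
  unfold H385.A1
  refine finsum_congr fun s => finsum_congr fun _ => ?_
  rw [mult_dil hg0, smul_eq_mul]
  have h1 : (dm g α s - 1 / 2 : ℂ) = g * (s - 1 / 2 + I * α) := by
    unfold dm; ring
  have h2 : zz s = -I * (s - 1 / 2) := rfl
  have h3 : cexp (I * u * zz s) * cexp (-(zz s - m) ^ 2) = cexp (-(I * u * α)) *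
      hhb (2 / g ^ 2) (u / g) (g * (m + α)) (dm g α s) := by
    unfold H343.hhb
    rw [← Complex.exp_add, ← Complex.exp_add, ← Complex.exp_add, h1, h2]
    congr 1
    push_cast
    have hI : I ^ 2 = -1 := Complex.I_sq
    field_simp
    ring_nf
    simp only [hI]
    ring
  rw [h3]
  ring

end Pool.Agent.V8H24.ZS
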