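import Pool.Agent.N880.HE.Ms
import Pool.Agent.N880.QF.Rest
import Pool.Agent.N880.HE.Blk
import Pool.Agent.N880.HD.Fin

/-!
# The mean square over the family, uniformly in the coefficients, and with dilated frequencies

The prime sums have the frequencies `g log n`, `g ≥ 1`; for `g = 1` this is the mean square of
`Pool.Agent.N880.HE.Ms`, with constants which do not depend on the coefficients nor on a bound for
the height.
-/

set_option autoImplicit false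

open Complex Filter Topology MeasureTheory Set

namespace Pool.Agent.V8H24.ZS

open H385 (c0 primFamM bt wt Rw WM IX primSetM primFamM_eq bt_norm wt_nonneg wt_le_one bt_sq_int
  wt_sq_int bt_cont)
open Pool.Agent.N880.QF (PP mem_PP yy yy_sq yy_abs card_PP sq_add_le)
open Pool.Agent.N880.HD (S_gauss S_winC main_sum_integrable thr num_ms)
open Pool.Agent.N880.HE (S_primM block_estM)
open ArithmeticFunction (vonMangoldt)

/-- the cut-off prime side with the frequencies `g log n` -/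
noncomputable def Pq (g : ℝ) (a : ℕ → ℂ) (T u t : ℝ) : ℂ :=
  ∑' n : ℕ, a n * (((g / Real.sqrt n : ℝ) : ℂ) * bt T u t (g * Real.log n))

/-- `g² ∑ Λ(n)² |c(n)|² / n · exp(-(u - g log n)²)` -/
noncomputable def SQ (g : ℝ) (c : ℕ → ℂ) (u : ℝ) : ℝ :=
  g ^ 2 * ∑' n : ℕ, vonMangoldt n ^ 2 * ‖c n‖ ^ 2 / n * Real.exp (-(u - g * Real.log n) ^ 2)

lemma SQ_nonneg (g : ℝ) (c : ℕ → ℂ) (u : ℝ) : 0 ≤ SQ g c u :=
  mul_nonneg (sq_nonneg g) (tsum_nonneg fun n => by positivity)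

lemma sq_term_le (g : ℝ) (c : ℕ → ℂ) {D : ℝ} (hc : ∀ n, IsPrimePow n → ‖c n‖ ≤ D)
    (u : ℝ) (n : ℕ) : vonMangoldt n ^ 2 * ‖c n‖ ^ 2 / n * Real.exp (-(u - g * Real.log n) ^ 2) ≤
    D ^ 2 * (vonMangoldt n ^ 2 / n * Real.exp (-(u - g * Real.log n) ^ 2)) := by
  by_cases h : IsPrimePow n
  · have h1 : ‖c n‖ ^ 2 ≤ D ^ 2 := pow_le_pow_left₀ (norm_nonneg _) (hc n h) 2
    calc _ = ‖c n‖ ^ 2 * (vonMangoldt n ^ 2 / n *
          Real.exp (-(u - g * Real.log n) ^ 2)) := by ring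
      _ ≤ _ := mul_le_mul_of_nonneg_right h1 (by positivity)
  · have h1 : vonMangoldt n = 0 := ArithmeticFunction.vonMangoldt_eq_zero_iff.2 h
    rw [h1]
    simp

lemma sq_summable {g : ℝ} (hg : 1 ≤ g) (c : ℕ → ℂ) {D : ℝ} (hc : ∀ n, IsPrimePow n → ‖c n‖ ≤ D)
    (u : ℝ) : Summable (fun n : ℕ => vonMangoldt n ^ 2 * ‖c n‖ ^ 2 / n *
      Real.exp (-(u - g * Real.log n) ^ 2)) :=
  Summable.of_nonneg_of_le (fun n => by positivity) (sq_term_le g c hc u)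
    ((Pool.Agent.N7.MainC.inner_summable (c := g) (by linarith) u).mul_left _)

lemma SQ_le {g : ℝ} (hg : 1 ≤ g) (c : ℕ → ℂ) {D : ℝ} (hc : ∀ n, IsPrimePow n → ‖c n‖ ≤ D) (u : ℝ) :
    SQ g c u ≤ D ^ 2 * Pool.Agent.N7.MainC.inner g u := by
  unfold SQ Pool.Agent.N7.MainC.inner
  have h1 : ∑' n : ℕ, vonMangoldt n ^ 2 * ‖c n‖ ^ 2 / n * Real.exp (-(u - g * Real.log n) ^ 2) ≤
      D ^ 2 * ∑' n : ℕ, vonMangoldt n ^ 2 / n * Real.exp (-(u - g * Real.log n) ^ 2) := by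
    rw [← tsum_mul_left]
    exact Summable.tsum_le_tsum (sq_term_le g c hc u) (sq_summable hg c hc u)
      ((Pool.Agent.N7.MainC.inner_summable (c := g) (by linarith) u).mul_left _)
  calc _ ≤ g ^ 2 * (D ^ 2 * ∑' n : ℕ, vonMangoldt n ^ 2 / n *
        Real.exp (-(u - g * Real.log n) ^ 2)) := mul_le_mul_of_nonneg_left h1 (sq_nonneg g)
    _ = _ := by ring

lemma SQ_one (c : ℕ → ℂ) (u : ℝ) : SQ 1 c u = W388.SWu c 1 u := by
  unfold SQ W388.SWu
  simp only [one_pow, one_mul]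

lemma exp_le_dil {g : ℝ} (hg : 1 ≤ g) (u l : ℝ) :
    Real.exp (-(u - g * l) ^ 2 / 4) ≤ Real.exp (-(u / g - l) ^ 2 / 4) := by
  have hg0 : 0 < g := by linarith
  apply Real.exp_le_exp.2
  have h1 : (u - g * l) ^ 2 = g ^ 2 * (u / g - l) ^ 2 := by
    rw [← mul_pow]; congr 1; field_simp
  rw [h1]
  have h2 : 1 ≤ g ^ 2 := one_le_pow₀ hg
  nlinarith [sq_nonneg (u / g - l)]

/-- the rest of the sum -/
theorem rest_dil (B : ℕ) (ε : ℝ) (hε : 0 < ε) : ∃ C : ℝ, 0 < C ∧ ∀ (g L u T t : ℝ) (a : ℕ → ℂ),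
    1 ≤ g → 1 ≤ L → 0 ≤ u → u / g ≤ L → 0 ≤ T → (∀ n, ‖a n‖ ≤ vonMangoldt n) →
    ‖(∑' n : ℕ, a n * (((g / Real.sqrt n : ℝ) : ℂ) * bt T u t (g * Real.log n))) -
      ∑ p ∈ PP B ε L (u / g), a p * (((g / Real.sqrt p : ℝ) : ℂ) * bt T u t (g * Real.log p))‖ ≤
      g * C * wt T t := by
  open Pool.Agent.N880.QF.Rest in
  obtain ⟨C3, hC3, h3⟩ := f3_le
  obtain ⟨K, hK⟩ : ∃ K, K = Real.exp (((3 / 2) * (1 + 1 / ε)) ^ 2) := ⟨_, rfl⟩
  obtain ⟨D, hD⟩ : ∃ D, D = ∑' m : ℕ, vonMangoldt m / (m : ℝ) ^ 2 := ⟨_, rfl⟩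
  have hK0 : 0 < K := hK ▸ Real.exp_pos _
  have hD0 : 0 ≤ D := hD ▸ tsum_nonneg fun m => by
    have := vm_nonneg m
    positivity
  have hF0 : 0 ≤ ∑' n, f4 n := tsum_nonneg f4_nonneg
  have hB0 : 0 ≤ ∑ n ∈ Finset.range (B + 1), vonMangoldt n :=
    Finset.sum_nonneg fun n _ => vm_nonneg n
  refine ⟨(∑ n ∈ Finset.range (B + 1), vonMangoldt n) + K * D + C3 + ∑' n, f4 n, by positivity, ?_⟩
  intro g L u T t a hg hL hu0 hu hT ha
  have hg0 : 0 < g := by linarith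
  have hv0 : 0 ≤ u / g := by positivity
  have hw0 := wt_nonneg T t hT
  obtain ⟨G, hG⟩ : ∃ G : ℕ → ℂ, G = fun n => a n * (((g / Real.sqrt n : ℝ) : ℂ) *
    bt T u t (g * Real.log n)) := ⟨_, rfl⟩
  have hgn : ∀ n, ‖G n‖ ≤ g * (w (u / g) n * wt T t) := by
    intro n
    have h1 := bt_norm T u t (g * Real.log n) hT
    have h2 : 1 / Real.sqrt (2 * Real.pi) ≤ 1 := by
      rw [div_le_one (Real.sqrt_pos.2 (by positivity))]
      exact Real.one_le_sqrt.2 (by linarith [Real.pi_gt_three])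
    have h5 : ‖bt T u t (g * Real.log n)‖ ≤
        Real.exp (-(u / g - Real.log n) ^ 2 / 4) * wt T t := by
      refine h1.trans (mul_le_mul_of_nonneg_right ?_ hw0)
      exact (mul_le_of_le_one_left (Real.exp_pos _).le h2).trans (exp_le_dil hg u _)
    rw [hG]
    simp only [norm_mul, Complex.norm_real]
    rw [Real.norm_of_nonneg (div_nonneg hg0.le (Real.sqrt_nonneg _))]
    calc ‖a n‖ * (g / Real.sqrt n * ‖bt T u t (g * Real.log n)‖) ≤
        vonMangoldt n * (g / Real.sqrt n *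
          (Real.exp (-(u / g - Real.log n) ^ 2 / 4) * wt T t)) := by
          have := ha n
          have h6 := vm_nonneg n
          gcongr
      _ = _ := by unfold w; ring
  have hgs : Summable G :=
    Summable.of_norm_bounded (((w_summable (u / g)).mul_right (wt T t)).mul_left g) hgn
  have e1 : (∑' n, G n) - ∑ p ∈ PP B ε L (u / g), G p =
      ∑' n, Set.indicator ((PP B ε L (u / g) : Set ℕ)ᶜ) G n := by
    rw [← hgs.sum_add_tsum_compl (s := PP B ε L (u / g)), add_sub_cancel_left, tsum_subtype]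
  have e0 : (∑' n : ℕ, a n * (((g / Real.sqrt n : ℝ) : ℂ) * bt T u t (g * Real.log n))) -
      ∑ p ∈ PP B ε L (u / g), a p * (((g / Real.sqrt p : ℝ) : ℂ) * bt T u t (g * Real.log p)) =
      (∑' n, G n) - ∑ p ∈ PP B ε L (u / g), G p := by rw [hG]
  rw [e0, e1]
  obtain ⟨F, hF⟩ : ∃ F : ℕ → ℝ, F = fun n =>
      (if n ∈ Finset.range (B + 1) then vonMangoldt n else 0) +
      K * (vonMangoldt n / (n : ℝ) ^ 2) + f3 (u / g) n + f4 n := ⟨_, rfl⟩
  have hs1 : HasSum (fun n => if n ∈ Finset.range (B + 1) then vonMangoldt n else 0)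
      (∑ n ∈ Finset.range (B + 1), vonMangoldt n) := by
    have := hasSum_sum_of_ne_finset_zero (L := SummationFilter.unconditional ℕ)
      (f := fun n => if n ∈ Finset.range (B + 1) then
      vonMangoldt n else 0) (s := Finset.range (B + 1)) (fun n hn => if_neg hn)
    convert this using 1
    exact Finset.sum_congr rfl fun n hn => (if_pos hn).symm
  have hs : HasSum F ((∑ n ∈ Finset.range (B + 1), vonMangoldt n) + K * D +
      (∑' n, f3 (u / g) n) + ∑' n, f4 n) := by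
    rw [hF, hD]
    exact ((hs1.add (sum_vm.hasSum.mul_left K)).add (f3_summable (u / g)).hasSum).add
      f4_summable.hasSum
  have hF0' : ∀ n, 0 ≤ F n := by
    intro n
    have h4 := f3_nonneg (u / g) n
    have h5 := f4_nonneg n
    have h6 := vm_nonneg n
    have h7 : 0 ≤ (if n ∈ Finset.range (B + 1) then vonMangoldt n else 0) := by
      split_ifs <;> positivity
    have h8 : 0 ≤ K * (vonMangoldt n / (n : ℝ) ^ 2) := by positivity
    simp only [hF]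
    linarith
  have hb : ∀ n, ‖Set.indicator ((PP B ε L (u / g) : Set ℕ)ᶜ) G n‖ ≤ g * (F n * wt T t) := by
    intro n
    by_cases hn : n ∈ PP B ε L (u / g)
    · rw [Set.indicator_of_notMem (by simpa using hn), norm_zero]
      exact mul_nonneg hg0.le (mul_nonneg (hF0' n) hw0)
    · rw [Set.indicator_of_mem (by simpa using hn)]
      refine (hgn n).trans (mul_le_mul_of_nonneg_left
        (mul_le_mul_of_nonneg_right ?_ hw0) hg0.le)
      rw [hF, hK]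
      exact split B ε L (u / g) hε hu n hn
  refine (tsum_of_norm_bounded ((hs.mul_right (wt T t)).mul_left g) hb).trans ?_
  have := h3 (u / g) hv0
  rw [mul_assoc]
  refine mul_le_mul_of_nonneg_left (mul_le_mul_of_nonneg_right ?_ hw0) hg0.le
  linarith

set_option maxHeartbeats 4000000 in
theorem msU (hprim : S_primM) (hgauss : S_gauss) (hwin : S_winC) :
    ∀ Q0 : ℕ, Squarefree Q0 → ∀ (D g : ℝ), 1 ≤ D → 1 ≤ g → ∀ s : ℝ, 0 < s → s ≤ 1 / 2 →
    ∃ K C X0 : ℝ, 1 ≤ K ∧ 0 < C ∧ 3 ≤ X0 ∧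
    ∀ (X Y : ℕ) (T u : ℝ) (c : ℕ → ℂ), (∀ n, IsPrimePow n → ‖c n‖ ≤ D) → X0 ≤ X → K * X ≤ Y →
      1 ≤ T → (Real.log (X * T)) ^ 2 ≤ T → 0 ≤ u →
      u ≤ 2 * Real.log X + Real.log T - s * Real.log (X * T) →
      ∫ t : ℝ, primFamM Q0 X Y (fun q χ => ‖Pq g (fun n => χ (n : ZMod q) * c n *
          (vonMangoldt n : ℂ)) T u t‖ ^ 2) ≤
        (1 + s) * WM Q0 X Y * (T / (2 * Real.pi)) * SQ g c u + C * WM Q0 X Y * T := by
  intro Q0 hQ0 D g hD1 hg1 s hs hs1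
  have hD0 : 0 < D := by linarith
  have hg0 : 0 < g := by linarith
  obtain ⟨δ, hδ⟩ : ∃ δ, δ = s / 20 := ⟨_, rfl⟩
  have hδ0 : 0 < δ := by rw [hδ]; positivity
  have hδ1 : δ ≤ 1 := by rw [hδ]; linarith
  obtain ⟨B, K, e0, hB1, hK1, he0, hp⟩ := hprim Q0 hQ0 δ hδ0 hδ1
  obtain ⟨Cg, hCg, hg⟩ := hgauss δ hδ0
  obtain ⟨C2, κ0, d0, hC2, hκ0, hd0, hw⟩ := hwin δ hδ0
  obtain ⟨CR, hCR, hr⟩ := rest_dil B (s / 8) (by positivity)
  obtain ⟨C3, hC3, hwt⟩ := wt_sq_int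
  obtain ⟨C5, hC5, hcr⟩ := H385.lam_sq_crude
  obtain ⟨L1, hL1⟩ := thr (κ0 := κ0) (d0 := d0) hs he0 hCg hδ0
  refine ⟨K, 12 * C2 * (D ^ 2 * g ^ 2 * C5) + 2 * C2 * (D ^ 2 * g ^ 2 * (4 * Real.exp 144)) +
      (1 + 1 / δ) * (D * (g * CR)) ^ 2 * (1 + C3),
    max 3 (max (Real.exp L1) (2 / e0)), hK1, by positivity, le_max_left _ _, ?_⟩
  intro X Y T u c hc hX hKX hT1 hTL hu0 hu
  have hX3 : (3 : ℝ) ≤ X := (le_max_left _ _).trans hX
  have hXL1 : Real.exp L1 ≤ X := ((le_max_left _ _).trans (le_max_right _ _)).trans hX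
  have hXe0 : 2 / e0 ≤ X := ((le_max_right _ _).trans (le_max_right _ _)).trans hX
  have hX0 : (0 : ℝ) < X := by linarith
  have hXn : 1 ≤ X := by exact_mod_cast hX0
  have hT0 : 0 < T := by linarith
  obtain ⟨lX, hlX⟩ : ∃ lX, lX = Real.log X := ⟨_, rfl⟩
  obtain ⟨lT, hlT⟩ : ∃ lT, lT = Real.log T := ⟨_, rfl⟩
  have hLeq : Real.log (X * T) = lX + lT := by
    rw [Real.log_mul hX0.ne' hT0.ne', hlX, hlT]
  obtain ⟨L, hL⟩ : ∃ L, L = Real.log (X * T) := ⟨_, rfl⟩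
  rw [← hL] at hTL hu
  rw [← hL] at hLeq
  rw [← hlX, ← hlT] at hu
  have hlT0 : 0 ≤ lT := by rw [hlT]; exact Real.log_nonneg hT1
  have hlX1 : L1 ≤ lX := by rw [hlX, Real.le_log_iff_exp_le hX0]; exact hXL1
  have hlX0 : 0 ≤ lX := by rw [hlX]; exact Real.log_nonneg (by linarith)
  obtain ⟨t1, t2, t3, t4, t5⟩ := hL1 L (by linarith)
  have hL0 : 0 < L := by linarith
  have hsL : 0 ≤ s * L := by positivity
  have hu2L : u ≤ 2 * L := by linarith
  obtain ⟨v, hv⟩ : ∃ v, v = u / g := ⟨_, rfl⟩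
  have hv0 : 0 ≤ v := by rw [hv]; positivity
  have hvu : v ≤ u := by rw [hv]; exact div_le_self hu0 hg1
  have hexp1 : v + s / 8 * (2 * L) ≤ 2 * lX + lT - 3 / 4 * s * L := by linarith
  have hexp2 : v + s / 8 * (2 * L) ≤ 3 * L := by
    have : s * L ≤ 1 / 2 * L := mul_le_mul_of_nonneg_right hs1 hL0.le
    linarith
  obtain ⟨P, hP⟩ : ∃ P, P = PP B (s / 8) (2 * L) v := ⟨_, rfl⟩
  have hPm : ∀ p ∈ P, p.Prime ∧ B < p ∧ |Real.log p - v| ≤ s / 8 * (2 * L) := fun p hp => by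
    rw [hP] at hp; exact mem_PP hp
  have hcard : (P.card : ℝ) ≤ Real.exp (3 * L) := by
    rw [hP]
    refine card_PP (Real.one_le_exp (by positivity)) ?_
    rw [Real.log_exp]; exact hexp2
  -- parameters
  obtain ⟨κ, hκ⟩ : ∃ κ, κ = T / L := ⟨_, rfl⟩
  obtain ⟨ρ, hρ⟩ : ∃ ρ, ρ = L ^ 2 / T := ⟨_, rfl⟩
  have hκL : L ≤ κ := by
    rw [hκ, le_div_iff₀ hL0]; nlinarith
  have hκ1 : 0 < κ := by linarith
  have hκd : κ ≤ d0 * T := by
    rw [hκ, div_le_iff₀ hL0]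
    have : 1 ≤ d0 * L := by
      rw [div_le_iff₀ hd0] at t4; linarith
    nlinarith
  have hρ0 : 0 < ρ := by rw [hρ]; positivity
  have hρ1 : ρ ≤ 1 := by rw [hρ, div_le_one hT0]; exact hTL
  have hκρ : κ * ρ = L := by rw [hκ, hρ]; field_simp
  have hρg0 : 0 < ρ / g := by positivity
  have hρg : ρ / g ≤ ρ := div_le_self hρ0.le hg1
  have hρg1 : ρ / g ≤ 1 := hρg.trans hρ1
  have hlen : 12 * (ρ / g) * Real.exp (v + s / 8 * (2 * L)) + 1 ≤ e0 * (X : ℝ) ^ 2 := by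
    have e1 : Real.exp (v + s / 8 * (2 * L)) ≤ (X : ℝ) ^ 2 * T * Real.exp (-(3 / 4 * s * L)) := by
      refine (Real.exp_le_exp.2 hexp1).trans (le_of_eq ?_)
      rw [show 2 * lX + lT - 3 / 4 * s * L = lX + lX + lT + -(3 / 4 * s * L) by ring,
        Real.exp_add, Real.exp_add, Real.exp_add, hlX, hlT, Real.exp_log hX0, Real.exp_log hT0]
      ring
    have e2 : 12 * (ρ / g) * Real.exp (v + s / 8 * (2 * L)) ≤ e0 / 2 * (X : ℝ) ^ 2 := by
      calc _ ≤ 12 * ρ * ((X : ℝ) ^ 2 * T * Real.exp (-(3 / 4 * s * L))) := by gcongr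
        _ = (12 * L ^ 2 * Real.exp (-(3 / 4 * s * L))) * (X : ℝ) ^ 2 := by
            rw [hρ]; field_simp
        _ ≤ _ := mul_le_mul_of_nonneg_right t1 (by positivity)
    have e3 : 1 ≤ e0 / 2 * (X : ℝ) ^ 2 := by
      rw [div_le_iff₀ he0] at hXe0
      nlinarith
    linarith
  have hW0 : 0 ≤ WM Q0 X Y := H385.primFamM_nonneg _ _ _ _ (fun _ _ => zero_le_one)
  have hWs : ∑ i ∈ primSetM Q0 X Y, (1 / (i.1 : ℝ) ^ 2) = WM Q0 X Y := by
    unfold WM; rw [primFamM_eq]; simp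
  obtain ⟨W, hWd⟩ : ∃ W, W = WM Q0 X Y := ⟨_, rfl⟩
  rw [← hWd] at hW0 hWs ⊢
  have hω : ∀ i ∈ primSetM Q0 X Y, 0 ≤ (fun i : IX => 1 / (i.1 : ℝ) ^ 2) i := fun i _ => by positivity
  have hz : ∀ (i : IX) (p : ℕ), ‖(fun (i : IX) (p : ℕ) => i.2 (p : ZMod i.1)) i p‖ ≤ 1 :=
    fun i p => DirichletCharacter.norm_le_one _ _
  -- kernel estimate
  have hker := hg IX ℕ (primSetM Q0 X Y) (fun i => 1 / (i.1 : ℝ) ^ 2)
    (fun i p => i.2 (p : ZMod i.1)) P (fun p => g * Real.log p) ((1 + δ) * W) κ ρ hω hz hκ1 hρ0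
    (by positivity) (fun w x hx => by
      rw [hP, hWd]
      refine block_estM hp X Y hXn hKX (s / 8) (2 * L) v (ρ / g) hρg0 hρg1 hδ0.le hlen (w / g) x ?_
      intro p hpw
      apply hx
      have h1 : g * Real.log p - w = g * (Real.log p - w / g) := by field_simp
      rw [h1, abs_mul, abs_of_pos hg0]
      rw [div_lt_iff₀ hg0] at hpw
      linarith)
  rw [hWs, hκρ] at hker
  obtain ⟨A, hA⟩ : ∃ A, A = (1 + δ) * ((1 + δ) * W) + δ * W := ⟨_, rfl⟩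
  have hA0 : 0 ≤ A := by rw [hA]; positivity
  have hker2 : ∀ x : ℕ → ℂ, ∑ i ∈ primSetM Q0 X Y, 1 / (i.1 : ℝ) ^ 2 *
      (∑ p ∈ P, ∑ q ∈ P, (i.2 (p : ZMod i.1) * x p) *
        (starRingEnd ℂ) (i.2 (q : ZMod i.1) * x q) *
        ((Real.exp (-(κ ^ 2 * (g * Real.log p - g * Real.log q) ^ 2 / 4)) : ℝ) : ℂ)).re ≤
      A * ∑ p ∈ P, ‖x p‖ ^ 2 := by
    intro x
    refine (hker x).trans ?_
    refine mul_le_mul_of_nonneg_right ?_ (Finset.sum_nonneg fun _ _ => by positivity)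
    rw [hA]
    have e1 : Cg * W * P.card * Real.exp (-L ^ 2 / 2) ≤ δ * W := by
      calc _ ≤ Cg * W * Real.exp (3 * L) * Real.exp (-L ^ 2 / 2) := by gcongr
        _ = (Cg * (Real.exp (3 * L) * Real.exp (-L ^ 2 / 2))) * W := by ring
        _ ≤ _ := mul_le_mul_of_nonneg_right t2 hW0
    linarith
  -- window lemma
  have hwin1 := hw IX ℕ (primSetM Q0 X Y) (fun i => 1 / (i.1 : ℝ) ^ 2)
    (fun i p => i.2 (p : ZMod i.1)) P (fun p => g * Real.log p)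
    (fun p => c p * ((g * yy p : ℝ) : ℂ)) A κ T u
    hω hz (fun p _ => mul_nonneg hg0.le (Real.log_natCast_nonneg p)) (t3.trans hκL) hκd hA0 hker2
  -- the pointwise bound
  obtain ⟨M, hM⟩ : ∃ M : IX → ℝ → ℂ, M = fun i t => ∑ p ∈ P, i.2 (p : ZMod i.1) *
    (c p * ((g * yy p : ℝ) : ℂ)) * bt T u t (g * Real.log p) := ⟨_, rfl⟩
  have hpt : ∀ t : ℝ, primFamM Q0 X Y (fun q χ => ‖Pq g (fun n => χ (n : ZMod q) * c n *
        (vonMangoldt n : ℂ)) T u t‖ ^ 2) ≤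
      (1 + δ) * ∑ i ∈ primSetM Q0 X Y, 1 / (i.1 : ℝ) ^ 2 * ‖M i t‖ ^ 2 +
        (1 + 1 / δ) * ((D * (g * CR)) ^ 2 * W) * wt T t ^ 2 := by
    intro t
    rw [primFamM_eq]
    have hwn := wt_nonneg T t hT0.le
    have hk : ∀ i ∈ primSetM Q0 X Y, 1 / (i.1 : ℝ) ^ 2 *
        ‖Pq g (fun n => i.2 (n : ZMod i.1) * c n * (vonMangoldt n : ℂ)) T u t‖ ^ 2 ≤
        1 / (i.1 : ℝ) ^ 2 * ((1 + δ) * ‖M i t‖ ^ 2 +
          (1 + 1 / δ) * (D * (g * CR) * wt T t) ^ 2) := by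
      intro i hi
      refine mul_le_mul_of_nonneg_left ?_ (by positivity)
      have hDc : (D : ℂ) ≠ 0 := by exact_mod_cast hD0.ne'
      have h1 := hr g (2 * L) u T t (fun n => (i.2 (n : ZMod i.1) * c n *
        (vonMangoldt n : ℂ)) / (D : ℂ)) hg1 (by linarith) hu0
          (by rw [← hv]; linarith) hT0.le (fun n => by
          rw [norm_div, norm_mul, norm_mul, Complex.norm_real, Complex.norm_real, Real.norm_eq_abs,
            Real.norm_eq_abs, abs_of_pos hD0,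
            abs_of_nonneg ArithmeticFunction.vonMangoldt_nonneg, div_le_iff₀ hD0]
          by_cases hpp : IsPrimePow n
          · have k1 : ‖i.2 (n : ZMod i.1)‖ * ‖c n‖ ≤ 1 * D :=
              mul_le_mul (DirichletCharacter.norm_le_one _ _) (hc n hpp) (norm_nonneg _) zero_le_one
            have k2 : (0 : ℝ) ≤ vonMangoldt n :=
              ArithmeticFunction.vonMangoldt_nonneg
            calc _ ≤ (1 * D) * vonMangoldt n := mul_le_mul_of_nonneg_right k1 k2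
              _ = _ := by ring
          · rw [ArithmeticFunction.vonMangoldt_eq_zero_iff.2 hpp]
            simp)
      have hsc : ∀ n : ℕ, (i.2 (n : ZMod i.1) * c n * (vonMangoldt n : ℂ)) *
          (((g / Real.sqrt n : ℝ) : ℂ) * bt T u t (g * Real.log n)) =
          (D : ℂ) * ((i.2 (n : ZMod i.1) * c n * (vonMangoldt n : ℂ)) / (D : ℂ) *
          (((g / Real.sqrt n : ℝ) : ℂ) * bt T u t (g * Real.log n))) := by
        intro n
        field_simp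
      have h2 : (D : ℂ) * ∑ p ∈ PP B (s / 8) (2 * L) (u / g), (i.2 (p : ZMod i.1) * c p *
          (vonMangoldt p : ℂ)) / (D : ℂ) *
          (((g / Real.sqrt p : ℝ) : ℂ) * bt T u t (g * Real.log p)) = M i t := by
        rw [hM, ← hv, ← hP, Finset.mul_sum]
        refine Finset.sum_congr rfl fun p hp => ?_
        rw [← hsc p]
        unfold yy
        push_cast
        ring
      have h1' : ‖Pq g (fun n => i.2 (n : ZMod i.1) * c n * (vonMangoldt n : ℂ)) T u t - M i t‖ ≤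
          D * (g * CR) * wt T t := by
        unfold Pq
        rw [tsum_congr hsc, tsum_mul_left, ← h2, ← mul_sub, norm_mul, Complex.norm_real,
          Real.norm_eq_abs, abs_of_pos hD0, mul_assoc D]
        exact mul_le_mul_of_nonneg_left h1 hD0.le
      have h3 := norm_le_norm_add_norm_sub' (Pq g (fun n => i.2 (n : ZMod i.1) * c n *
        (vonMangoldt n : ℂ)) T u t) (M i t)
      exact (pow_le_pow_left₀ (norm_nonneg _) (h3.trans (add_le_add le_rfl h1')) 2).trans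
        (sq_add_le hδ0 _ _)
    refine (Finset.sum_le_sum hk).trans (le_of_eq ?_)
    rw [Finset.mul_sum, ← hWs, Finset.mul_sum, Finset.mul_sum, Finset.sum_mul,
      ← Finset.sum_add_distrib]
    refine Finset.sum_congr rfl fun i _ => ?_
    ring
  -- integrability
  have hTκ : T ≤ Real.exp (L ^ 2) := by
    have : T = Real.exp lT := by rw [hlT, Real.exp_log hT0]
    rw [this]
    apply Real.exp_le_exp.2
    nlinarith
  have hMi : ∀ i : IX, Integrable (fun t => ‖M i t‖ ^ 2) := by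
    intro i
    rw [hM]
    exact main_sum_integrable P (fun p => i.2 (p : ZMod i.1) * (c p * ((g * yy p : ℝ) : ℂ)))
      (fun p => g * Real.log p) t5 hT1 hTκ
  have hi1 : Integrable (fun t => ∑ i ∈ primSetM Q0 X Y, 1 / (i.1 : ℝ) ^ 2 * ‖M i t‖ ^ 2) :=
    integrable_finsetSum _ fun i _ => (hMi i).const_mul _
  have hi2 : Integrable (fun t => wt T t ^ 2) := (hwt T hT0.le).1
  have hint : Integrable (fun t => (1 + δ) * ∑ i ∈ primSetM Q0 X Y, 1 / (i.1 : ℝ) ^ 2 * ‖M i t‖ ^ 2 +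
      (1 + 1 / δ) * ((D * (g * CR)) ^ 2 * W) * wt T t ^ 2) := (hi1.const_mul _).add (hi2.const_mul _)
  refine (integral_mono_of_nonneg (Eventually.of_forall fun t =>
    H385.primFamM_nonneg _ _ _ _ fun q χ => by positivity) hint
    (Eventually.of_forall hpt)).trans ?_
  rw [integral_add (hi1.const_mul _) (hi2.const_mul _), integral_const_mul, integral_const_mul]
  have hcP : ∀ p ∈ P, ‖c p‖ ≤ D := fun p hp => hc p (hPm p hp).1.isPrimePow
  have hyn : ∀ p : ℕ, ‖((g * yy p : ℝ) : ℂ)‖ ^ 2 = g ^ 2 * (vonMangoldt p ^ 2 / p) := by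
    intro p
    rw [Complex.norm_real, Real.norm_eq_abs, sq_abs, mul_pow, yy_sq]
  have s1 : ∑ p ∈ P, ‖c p * ((g * yy p : ℝ) : ℂ)‖ ^ 2 *
      Real.exp (-(u - g * Real.log p) ^ 2) ≤ SQ g c u := by
    have h1 := mul_le_mul_of_nonneg_left ((sq_summable hg1 c hc u).sum_le_tsum P
      (fun n _ => by positivity)) (sq_nonneg g)
    unfold SQ
    refine le_trans (le_of_eq ?_) h1
    rw [Finset.mul_sum]
    refine Finset.sum_congr rfl fun p _ => ?_
    rw [norm_mul, mul_pow, hyn]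
    ring
  have s2 : ∑ p ∈ P, ‖c p * ((g * yy p : ℝ) : ℂ)‖ ^ 2 *
      Real.exp (-(u - g * Real.log p) ^ 2 / 2) ≤ D ^ 2 * g ^ 2 * C5 * (u + 1) := by
    obtain ⟨h1, h2⟩ := hcr v hv0
    have h3 : ∑ p ∈ P, ‖c p * ((g * yy p : ℝ) : ℂ)‖ ^ 2 *
        Real.exp (-(u - g * Real.log p) ^ 2 / 2) ≤
        (D ^ 2 * g ^ 2) * ∑ p ∈ P, ((vonMangoldt p) ^ 2 / p *
          Real.exp (-(v - Real.log p) ^ 2 / 2)) := by
      rw [Finset.mul_sum]
      refine Finset.sum_le_sum fun p hp => ?_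
      rw [norm_mul, mul_pow, hyn]
      have k1 : ‖c p‖ ^ 2 ≤ D ^ 2 := pow_le_pow_left₀ (norm_nonneg _) (hcP p hp) 2
      have k2 : Real.exp (-(u - g * Real.log p) ^ 2 / 2) ≤
          Real.exp (-(v - Real.log p) ^ 2 / 2) := by
        apply Real.exp_le_exp.2
        have h1 : (u - g * Real.log p) ^ 2 = g ^ 2 * (v - Real.log p) ^ 2 := by
          rw [← mul_pow, hv]; congr 1; field_simp
        rw [h1]
        have h2 : 1 ≤ g ^ 2 := one_le_pow₀ hg1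
        nlinarith [sq_nonneg (v - Real.log p)]
      calc _ ≤ D ^ 2 * (g ^ 2 * (vonMangoldt p ^ 2 / p)) *
            Real.exp (-(v - Real.log p) ^ 2 / 2) := by gcongr
        _ = _ := by ring
    have h4 : ∑ p ∈ P, ((vonMangoldt p) ^ 2 / p *
          Real.exp (-(v - Real.log p) ^ 2 / 2)) ≤ C5 * (v + 1) :=
      (h1.sum_le_tsum P (fun n _ => by positivity)).trans h2
    calc _ ≤ _ := h3
      _ ≤ (D ^ 2 * g ^ 2) * (C5 * (v + 1)) := mul_le_mul_of_nonneg_left h4 (by positivity)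
      _ ≤ (D ^ 2 * g ^ 2) * (C5 * (u + 1)) := by gcongr
      _ = _ := by ring
  have s3 : Real.exp (-κ ^ 2 / 16) * (∑ p ∈ P, ‖c p * ((g * yy p : ℝ) : ℂ)‖) ^ 2 ≤
      D ^ 2 * g ^ 2 * (4 * Real.exp 144) := by
    have h1 : ∑ p ∈ P, ‖c p * ((g * yy p : ℝ) : ℂ)‖ ≤ 2 * (D * g) * Real.exp (3 * L) := by
      have h2 : ∑ p ∈ P, ‖c p * ((g * yy p : ℝ) : ℂ)‖ ≤ ∑ _p ∈ P, (D * (g * 2) : ℝ) :=
        Finset.sum_le_sum fun p hp => by
          rw [norm_mul, Complex.norm_real, Real.norm_eq_abs, abs_mul, abs_of_pos hg0]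
          exact mul_le_mul (hcP p hp) (mul_le_mul_of_nonneg_left (yy_abs p) hg0.le)
            (by positivity) hD0.le
      rw [Finset.sum_const, nsmul_eq_mul] at h2
      have h3 := mul_le_mul_of_nonneg_right hcard (show 0 ≤ D * (g * 2) by positivity)
      linarith
    have h4 : (∑ p ∈ P, ‖c p * ((g * yy p : ℝ) : ℂ)‖) ^ 2 ≤ (2 * (D * g) * Real.exp (3 * L)) ^ 2 :=
      pow_le_pow_left₀ (Finset.sum_nonneg fun p _ => norm_nonneg _) h1 2
    have h5 : Real.exp (-κ ^ 2 / 16) ≤ Real.exp (-L ^ 2 / 16) := by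
      apply Real.exp_le_exp.2
      have : L ^ 2 ≤ κ ^ 2 := pow_le_pow_left₀ hL0.le hκL 2
      linarith
    calc _ ≤ Real.exp (-L ^ 2 / 16) * (2 * (D * g) * Real.exp (3 * L)) ^ 2 :=
          mul_le_mul h5 h4 (by positivity) (Real.exp_pos _).le
      _ = D ^ 2 * g ^ 2 * (4 * Real.exp (-L ^ 2 / 16 + (3 * L + 3 * L))) := by
          rw [Real.exp_add, Real.exp_add]; ring
      _ ≤ _ := by
          refine mul_le_mul_of_nonneg_left (mul_le_mul_of_nonneg_left (Real.exp_le_exp.2 ?_)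
            (by norm_num)) (by positivity)
          nlinarith [sq_nonneg (L - 48)]
  have hwtI := (hwt T hT0.le).2
  have hTp : 0 ≤ T / (2 * Real.pi) := by positivity
  have hI1n := SQ_nonneg g c u
  have hwin2 : ∫ t : ℝ, ∑ i ∈ primSetM Q0 X Y, 1 / (i.1 : ℝ) ^ 2 * ‖M i t‖ ^ 2 ≤
      (1 + δ) * A * (T / (2 * Real.pi)) * SQ g c u +
      C2 * A * κ * (D ^ 2 * g ^ 2 * C5 * (u + 1)) +
      C2 * W * T * (D ^ 2 * g ^ 2 * (4 * Real.exp 144)) := by
    rw [hM]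
    refine hwin1.trans ?_
    have b1 := mul_le_mul_of_nonneg_left s1 (show 0 ≤ (1 + δ) * A * (T / (2 * Real.pi)) by positivity)
    have b2 := mul_le_mul_of_nonneg_left s2 (show 0 ≤ C2 * A * κ by positivity)
    have b3 := mul_le_mul_of_nonneg_left s3 (show 0 ≤ C2 * W * T by positivity)
    rw [hWs]
    have b4 : C2 * W * T * Real.exp (-κ ^ 2 / 16) * (∑ p ∈ P, ‖c p * ((g * yy p : ℝ) : ℂ)‖) ^ 2 =
      C2 * W * T * (Real.exp (-κ ^ 2 / 16) * (∑ p ∈ P, ‖c p * ((g * yy p : ℝ) : ℂ)‖) ^ 2) := by ring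
    rw [b4]
    linarith
  have hfin := num_ms (δ := δ) (s := s) (Tp := T / (2 * Real.pi))
    (I1 := SQ g c u) (C2 := C2) (C5 := D ^ 2 * g ^ 2 * C5) (Cw := D ^ 2 * g ^ 2 * (4 * Real.exp 144))
    (L := L)
    (u := u) (T := T) (W := W) (CR := D * (g * CR)) (C3 := C3) (κ := κ)
    hδ0 hδ hs1 hTp hI1n hC2 (by positivity) t5 hu0 hu2L hκ hT1 hW0 (by positivity) (by positivity) hC3
  rw [← hA] at hfin
  refine le_trans ?_ hfin
  refine add_le_add (mul_le_mul_of_nonneg_left hwin2 (by linarith)) ?_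
  exact mul_le_mul_of_nonneg_left hwtI (by positivity)

/-- the mean square, without hypotheses -/
theorem ms_uniform : ∀ Q0 : ℕ, Squarefree Q0 → ∀ (D g : ℝ), 1 ≤ D → 1 ≤ g →
    ∀ s : ℝ, 0 < s → s ≤ 1 / 2 → ∃ K C X0 : ℝ, 1 ≤ K ∧ 0 < C ∧ 3 ≤ X0 ∧
    ∀ (X Y : ℕ) (T u : ℝ) (c : ℕ → ℂ), (∀ n, IsPrimePow n → ‖c n‖ ≤ D) → X0 ≤ X → K * X ≤ Y →
      1 ≤ T → (Real.log (X * T)) ^ 2 ≤ T → 0 ≤ u →
      u ≤ 2 * Real.log X + Real.log T - s * Real.log (X * T) →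
      ∫ t : ℝ, primFamM Q0 X Y (fun q χ => ‖Pq g (fun n => χ (n : ZMod q) * c n *
          (vonMangoldt n : ℂ)) T u t‖ ^ 2) ≤
        (1 + s) * WM Q0 X Y * (T / (2 * Real.pi)) * SQ g c u + C * WM Q0 X Y * T :=
  msU (Pool.Agent.N880.HE.primM_main Pool.Agent.N880.HE.blockM_main Pool.Agent.N880.HD.cop_main)
    Pool.Agent.N880.HD.gauss_main Pool.Agent.N880.HD.winC_main

end Pool.Agent.V8H24.ZS
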