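import Pool.Agent.V8H24.ZS.Cut
import Pool.Agent.V8H24.ZS.Ms
import Pool.Agent.W388.TW.CoefE
import Pool.Agent.V8H24.LI.A

/-! # The dilated prime side -/

set_option autoImplicit false

open Complex Filter Topology Set MeasureTheory
open scoped BigOperators ComplexConjugate

namespace Pool.Agent.V8H24.ZS

open H385 (bt)
open W388 (CoefE gauss_pow)
open H343 (PPb)
open Pool.Agent.V8H24.LI (tw tw_norm)

/-- the dilated prime sum -/
noncomputable def PQ (g : ℝ) (a : ℕ → ℂ) (u m : ℝ) : ℂ :=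
  ∑' n : ℕ, a n * (((g / Real.sqrt n : ℝ) : ℂ) * cexp (I * m * (u - (g * Real.log n : ℝ))) *
    Real.exp (-(u - g * Real.log n) ^ 2 / 4))

/-- the majorant -/
noncomputable def mj (g : ℝ) (a : ℕ → ℂ) (u : ℝ) (n : ℕ) : ℝ :=
  ‖a n‖ * (g / Real.sqrt n * Real.exp (-(u - g * Real.log n) ^ 2 / 4))

lemma gauss_dil {g : ℝ} (hg : 1 ≤ g) (u l : ℝ) :
    Real.exp (-(u - g * l) ^ 2 / 4) ≤ Real.exp (-(u / g - l) ^ 2 / 4) := by
  have hg0 : 0 < g := by linarith
  apply Real.exp_le_exp.mpr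
  have h1 : u - g * l = g * (u / g - l) := by field_simp
  rw [h1, mul_pow]
  have h2 : 1 ≤ g ^ 2 := one_le_pow₀ hg
  have h3 : 0 ≤ (u / g - l) ^ 2 := sq_nonneg _
  have h4 : (u / g - l) ^ 2 ≤ g ^ 2 * (u / g - l) ^ 2 := le_mul_of_one_le_left h3 h2
  linarith

lemma mj_nonneg {g : ℝ} (hg : 1 ≤ g) (a : ℕ → ℂ) (u : ℝ) (n : ℕ) : 0 ≤ mj g a u n := by
  unfold mj
  have : 0 < g := by linarith
  positivity

lemma mj_le {g : ℝ} (hg : 1 ≤ g) (a : ℕ → ℂ) (u : ℝ) (n : ℕ) :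
    mj g a u n ≤ g * Real.exp (u / g + 1) * (‖a n‖ * (n : ℝ) ^ (-(3 / 2) : ℝ)) := by
  have hg0 : 0 < g := by linarith
  unfold mj
  have h1 := gauss_dil hg u (Real.log n)
  have h2 := gauss_pow (u / g) n
  calc ‖a n‖ * (g / Real.sqrt n * Real.exp (-(u - g * Real.log n) ^ 2 / 4)) ≤
      ‖a n‖ * (g / Real.sqrt n * Real.exp (-(u / g - Real.log n) ^ 2 / 4)) := by gcongr
    _ = ‖a n‖ * (g * ((Real.sqrt n)⁻¹ * Real.exp (-(u / g - Real.log n) ^ 2 / 4))) := by
        rw [div_eq_mul_inv]; ring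
    _ ≤ ‖a n‖ * (g * (Real.exp (u / g + 1) * (n : ℝ) ^ (-(3 / 2) : ℝ))) := by gcongr
    _ = _ := by ring

lemma mj_summable {g : ℝ} (hg : 1 ≤ g) {A : ℝ} {a : ℕ → ℂ} (ha : CoefE A a) (u : ℝ) :
    Summable (mj g a u) :=
  Summable.of_nonneg_of_le (mj_nonneg hg a u) (mj_le hg a u) (ha.sm.mul_left _)

lemma mj_tsum {g : ℝ} (hg : 1 ≤ g) {A : ℝ} {a : ℕ → ℂ} (ha : CoefE A a) (u : ℝ) :
    ∑' n, mj g a u n ≤ g * Real.exp (u / g + 1) * A := by
  have hg0 : 0 < g := by linarith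
  refine (Summable.tsum_le_tsum (mj_le hg a u) (mj_summable hg ha u) (ha.sm.mul_left _)).trans ?_
  rw [tsum_mul_left]
  exact mul_le_mul_of_nonneg_left ha.le (by positivity)

lemma norm_PQ_term {g : ℝ} (hg : 1 ≤ g) (a : ℕ → ℂ) (u m : ℝ) (n : ℕ) :
    ‖a n * (((g / Real.sqrt n : ℝ) : ℂ) * cexp (I * m * (u - (g * Real.log n : ℝ))) *
      Real.exp (-(u - g * Real.log n) ^ 2 / 4))‖ = mj g a u n := by
  have hg0 : 0 < g := by linarith
  have h1 : ‖cexp (I * m * (u - (g * Real.log n : ℝ)))‖ = 1 := by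
    have : I * m * (u - (g * Real.log n : ℝ)) = ((m * (u - g * Real.log n) : ℝ) : ℂ) * I := by
      push_cast; ring
    rw [this, Complex.norm_exp_ofReal_mul_I]
  unfold mj
  rw [norm_mul, norm_mul, norm_mul, h1, mul_one, Complex.norm_real, Complex.norm_real,
    Real.norm_of_nonneg (by positivity), Real.norm_of_nonneg (Real.exp_pos _).le]

lemma PQ_cont {g : ℝ} (hg : 1 ≤ g) {A : ℝ} {a : ℕ → ℂ} (ha : CoefE A a) (u : ℝ) :
    Continuous (PQ g a u) := by
  unfold PQ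
  refine continuous_tsum (fun n => by fun_prop) (mj_summable hg ha u) fun n m => ?_
  exact (norm_PQ_term hg a u m n).le

lemma PQ_le {g : ℝ} (hg : 1 ≤ g) {A : ℝ} {a : ℕ → ℂ} (ha : CoefE A a) (u m : ℝ) :
    ‖PQ g a u m‖ ≤ g * Real.exp (u / g + 1) * A := by
  unfold PQ
  refine (tsum_of_norm_bounded (mj_summable hg ha u).hasSum
    (fun n => (norm_PQ_term hg a u m n).le)).trans ?_
  exact mj_tsum hg ha u

lemma PG_PQ {g : ℝ} (hg : 1 ≤ g) {A : ℝ} {a : ℕ → ℂ} (ha : CoefE A a) (T u t : ℝ) :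
    PG (PQ g a) T u t = Pq g a T u t := by
  have h1 : ∫ τ in T..(2 * T), (Real.exp (-(t - τ) ^ 2 / 4) : ℂ) * PQ g a u ((t + τ) / 2)
      = ∑' n : ℕ, ∫ τ in T..(2 * T), (Real.exp (-(t - τ) ^ 2 / 4) : ℂ) *
        (a n * (((g / Real.sqrt n : ℝ) : ℂ) *
          cexp (I * ((t + τ) / 2 : ℝ) * (u - (g * Real.log n : ℝ))) *
          Real.exp (-(u - g * Real.log n) ^ 2 / 4))) := by
    have e1 : ∀ τ : ℝ, (Real.exp (-(t - τ) ^ 2 / 4) : ℂ) * PQ g a u ((t + τ) / 2) =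
        ∑' n : ℕ, (Real.exp (-(t - τ) ^ 2 / 4) : ℂ) *
        (a n * (((g / Real.sqrt n : ℝ) : ℂ) *
          cexp (I * ((t + τ) / 2 : ℝ) * (u - (g * Real.log n : ℝ))) *
          Real.exp (-(u - g * Real.log n) ^ 2 / 4))) := by
      intro τ
      rw [tsum_mul_left]
      rfl
    simp_rw [e1]
    symm
    refine (intervalIntegral.hasSum_integral_of_dominated_convergence
      (fun n _ => mj g a u n) ?_ ?_ ?_ ?_ ?_).tsum_eq
    · intro n
      apply Continuous.aestronglyMeasurable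
      fun_prop
    · intro n
      refine Eventually.of_forall fun τ _ => ?_
      rw [norm_mul, Complex.norm_real, Real.norm_of_nonneg (Real.exp_pos _).le]
      have h2 : Real.exp (-(t - τ) ^ 2 / 4) ≤ 1 := by
        rw [Real.exp_le_one_iff]
        nlinarith [sq_nonneg (t - τ)]
      rw [norm_PQ_term hg]
      have h3 := mj_nonneg hg a u n
      nlinarith
    · exact Eventually.of_forall fun τ _ => mj_summable hg ha u
    · exact intervalIntegrable_const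
    · refine Eventually.of_forall fun τ _ => ?_
      have : Summable (fun n : ℕ => (a n * (((g / Real.sqrt n : ℝ) : ℂ) *
          cexp (I * ((t + τ) / 2 : ℝ) * (u - (g * Real.log n : ℝ))) *
          Real.exp (-(u - g * Real.log n) ^ 2 / 4)))) :=
        Summable.of_norm_bounded (mj_summable hg ha u) (fun n => (norm_PQ_term hg a u _ n).le)
      exact (this.mul_left _).hasSum
  unfold PG Pq
  rw [h1, ← tsum_mul_left]
  refine tsum_congr fun n => ?_
  have h4 : ∀ τ : ℝ, (Real.exp (-(t - τ) ^ 2 / 4) : ℂ) *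
        (a n * (((g / Real.sqrt n : ℝ) : ℂ) *
          cexp (I * ((t + τ) / 2 : ℝ) * (u - (g * Real.log n : ℝ))) *
          Real.exp (-(u - g * Real.log n) ^ 2 / 4))) =
      (a n * ((g / Real.sqrt n : ℝ) : ℂ) * Real.exp (-(u - g * Real.log n) ^ 2 / 4)) *
        ((Real.exp (-(t - τ) ^ 2 / 4) : ℂ) *
          cexp (I * ((t + τ) / 2) * (u - (g * Real.log n : ℝ)))) := by
    intro τ
    push_cast
    ring
  simp_rw [h4]
  rw [intervalIntegral.integral_const_mul]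
  unfold H385.bt
  push_cast
  ring

/-- the prime side of the dilated and translated function -/
lemma PQ_tw {g : ℝ} (hg : 1 ≤ g) (α : ℝ) (a : ℕ → ℂ) (u m : ℝ) :
    PQ g (fun n => a n * tw (g * α) n) u m =
      g * cexp (-(I * u * α)) * PPb (2 / g ^ 2) a (u / g) (g * (m + α)) := by
  have hg0 : g ≠ 0 := by linarith
  have hgc : (g : ℂ) ≠ 0 := by exact_mod_cast hg0
  unfold PQ H343.PPb
  rw [← tsum_mul_left]
  refine tsum_congr fun n => ?_
  have e1 : Real.exp (-(u / g - Real.log n) ^ 2 / (2 * (2 / g ^ 2))) =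
      Real.exp (-(u - g * Real.log n) ^ 2 / 4) := by
    congr 1
    field_simp
    ring
  have e2 : tw (g * α) n * cexp (I * m * (u - (g * Real.log n : ℝ))) =
      cexp (-(I * u * α)) * cexp (I * (g * (m + α) : ℝ) * ((u / g : ℝ) - Real.log n)) := by
    unfold Pool.Agent.V8H24.LI.tw
    rw [← Complex.exp_add, ← Complex.exp_add]
    congr 1
    push_cast
    field_simp
    ring
  rw [e1, show ((g / Real.sqrt n : ℝ) : ℂ) = (g : ℂ) * (Real.sqrt n : ℂ)⁻¹ by
    push_cast; rw [div_eq_mul_inv]]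
  linear_combination (a n * (g : ℂ) * (Real.sqrt n : ℂ)⁻¹ *
    ((Real.exp (-(u - g * Real.log n) ^ 2 / 4) : ℝ) : ℂ)) * e2

lemma CoefE_tw {A : ℝ} {a : ℕ → ℂ} (ha : CoefE A a) (α : ℝ) : CoefE A (fun n => a n * tw α n) := by
  have h : ∀ n, ‖a n * tw α n‖ = ‖a n‖ := fun n => by rw [norm_mul, tw_norm, mul_one]
  refine ⟨fun n hn => by rw [ha.h1 n hn, zero_mul], ?_, ?_⟩
  · simp_rw [h]; exact ha.sm
  · simp_rw [h]; exact ha.le

end Pool.Agent.V8H24.ZS
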