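import Pool.Agent.V8H24.ZS.EF
import Pool.Agent.V8H24.ZS.Dil
import Pool.Agent.V8H24.ZS.PQ

/-! # The system of zeros of a dilated L-function -/

set_option autoImplicit false

open Complex Filter Topology Set MeasureTheory
open scoped BigOperators ComplexConjugate
open H370 (zset mult NN Nd Ns)

namespace Pool.Agent.V8H24.ZS

open H385 (zz A1 bt zz_re zz_im)
open H385.LocU (logQ_le one_le_logQ logQ_mono)
open H385.PerChi (zz_spec zz_refl zz_inj)
open H343 (hhb PPb norm_hhb)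
open W388 (GoodE CoefE zcount_long_D zset_finite_D)
open Pool.Agent.V8H24.LI (tw tw_norm)

/-- change of the window of a sum over zeros -/
lemma window_change {F : ℂ → ℂ} {a1 a2 b1 b2 B bd : ℝ} (h12 : a1 ≤ a2) (hb1 : b1 ≤ B)
    (hb2 : b2 ≤ B) (hfin : (zset F a1 B).Finite) (f : ℂ → ℂ)
    (hf : ∀ s ∈ zset F a1 B, (s.im ≤ a2 ∨ b1 < s.im ∨ b2 < s.im) → ‖f s‖ ≤ bd) (hbd : 0 ≤ bd) :
    ‖(∑ᶠ s ∈ zset F a1 b1, (mult F s : ℂ) * f s) - (∑ᶠ s ∈ zset F a2 b2, (mult F s : ℂ) * f s)‖ ≤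
      NN F a1 B * bd := by
  classical
  have s1 : zset F a1 b1 ⊆ zset F a1 B := fun s hs => ⟨hs.1, hs.2.1, hs.2.2.1,
    hs.2.2.2.1.trans hb1, hs.2.2.2.2⟩
  have s2 : zset F a2 b2 ⊆ zset F a1 B := fun s hs => ⟨hs.1, hs.2.1, lt_of_le_of_lt h12 hs.2.2.1,
    hs.2.2.2.1.trans hb2, hs.2.2.2.2⟩
  have f1 := hfin.subset s1
  have f2 := hfin.subset s2
  rw [finsum_mem_eq_finite_toFinset_sum _ f1, finsum_mem_eq_finite_toFinset_sum _ f2]
  have e1 : ∑ s ∈ f1.toFinset, (mult F s : ℂ) * f s =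
      ∑ s ∈ hfin.toFinset, if s ∈ zset F a1 b1 then (mult F s : ℂ) * f s else 0 := by
    rw [← Finset.sum_filter]
    refine Finset.sum_congr ?_ fun s _ => rfl
    ext s
    simp only [Set.Finite.mem_toFinset, Finset.mem_filter]
    exact ⟨fun h => ⟨s1 h, h⟩, fun h => h.2⟩
  have e2 : ∑ s ∈ f2.toFinset, (mult F s : ℂ) * f s =
      ∑ s ∈ hfin.toFinset, if s ∈ zset F a2 b2 then (mult F s : ℂ) * f s else 0 := by
    rw [← Finset.sum_filter]
    refine Finset.sum_congr ?_ fun s _ => rfl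
    ext s
    simp only [Set.Finite.mem_toFinset, Finset.mem_filter]
    exact ⟨fun h => ⟨s2 h, h⟩, fun h => h.2⟩
  rw [e1, e2, ← Finset.sum_sub_distrib]
  have hNN : (NN F a1 B : ℝ) = ∑ s ∈ hfin.toFinset, (mult F s : ℝ) := by
    unfold H370.NN
    rw [finsum_mem_eq_finite_toFinset_sum _ hfin]
    push_cast
    rfl
  rw [hNN, Finset.sum_mul]
  refine (norm_sum_le _ _).trans (Finset.sum_le_sum fun s hs => ?_)
  rw [Set.Finite.mem_toFinset] at hs
  have hm : (0 : ℝ) ≤ (mult F s : ℝ) := Nat.cast_nonneg _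
  have hn : ‖(mult F s : ℂ) * f s‖ = (mult F s : ℝ) * ‖f s‖ := by
    rw [norm_mul, Complex.norm_natCast]
  by_cases c1 : s ∈ zset F a1 b1
  · by_cases c2 : s ∈ zset F a2 b2
    · simp only [c1, c2, if_true, sub_self, norm_zero]
      positivity
    · simp only [c1, c2, if_true, if_false, sub_zero]
      rw [hn]
      refine mul_le_mul_of_nonneg_left (hf s hs ?_) hm
      by_contra h
      push Not at h
      exact c2 ⟨hs.1, hs.2.1, h.1, h.2.2, hs.2.2.2.2⟩
  · by_cases c2 : s ∈ zset F a2 b2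
    · simp only [c1, c2, if_true, if_false, zero_sub, norm_neg]
      rw [hn]
      refine mul_le_mul_of_nonneg_left (hf s hs ?_) hm
      by_contra h
      push Not at h
      exact c1 ⟨hs.1, hs.2.1, hs.2.2.1, h.2.1, hs.2.2.2.2⟩
    · simp only [c1, c2, if_false, sub_self, norm_zero]
      positivity

set_option maxHeartbeats 4000000 in
/-- a dilated and translated L-function has a system of zeros -/
theorem zsys_comp (d A g : ℝ) (hd : 1 ≤ d) (hA : 1 ≤ A) (hg : 1 ≤ g) : ∃ C : ℝ, 0 < C ∧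
    ∀ (Q : ℝ) (F : ℂ → ℂ) (a : ℕ → ℂ), 1 ≤ Q → GoodE d A Q F a →
    ∀ (α H κ L : ℝ), 0 ≤ α → 3 ≤ κ → 8 * κ ≤ H → g * (H + α) ≤ Real.exp (κ ^ 2 / 2) →
      g * (d * Real.log (Q * (g * (H + α)))) ≤ L →
      ZSys (dil g α F) H κ (g * (d * Real.log (Q * (g * (H + α))))) L C (1 / g)
        (PQ g (fun n => a n * tw (g * α) n)) := by
  have hg0 : 0 < g := by linarith
  have hgc : (g : ℂ) ≠ 0 := by exact_mod_cast hg0.ne'
  have hb : 0 < 2 / g ^ 2 := by positivity
  obtain ⟨C1, hC1, hform⟩ := Ab_formula d A (2 / g ^ 2) hd hA hb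
  obtain ⟨C2, hC2, hcount⟩ := zcount_long_D d A hd hA
  refine ⟨24 * C2 * g + C1 + 48 * C2 * Real.exp 1 + g * Real.exp 1 * A, by positivity, ?_⟩
  intro Q F a hQ hF α H κ L hα hκ hH hexp hL
  have hNZ := nzE hF
  have hca := hF.coef
  have hA0 : 0 < A := by linarith
  obtain ⟨T', hT'⟩ : ∃ T', T' = g * (H + α) := ⟨_, rfl⟩
  obtain ⟨κ', hκ'⟩ : ∃ κ', κ' = g * κ := ⟨_, rfl⟩
  obtain ⟨L', hL'⟩ : ∃ L', L' = Real.log (Q * T') := ⟨_, rfl⟩
  rw [← hT'] at hexp hL ⊢
  rw [← hL'] at hL ⊢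
  have hgα : 0 ≤ g * α := by positivity
  have hgκ : 0 ≤ g * κ := mul_nonneg hg0.le (by linarith)
  have hgH : g * (8 * κ) ≤ g * H := mul_le_mul_of_nonneg_left hH hg0.le
  have hκ'κ : κ ≤ κ' := by rw [hκ']; exact le_mul_of_one_le_left (by linarith) hg
  have hκ'3 : 3 ≤ κ' := hκ.trans hκ'κ
  have h8 : 8 * κ' ≤ T' := by rw [hκ', hT']; linarith
  have hT'24 : 24 ≤ T' := by linarith
  have hL'1 : 1 ≤ L' := hL' ▸ one_le_logQ hQ (by linarith)
  have hL'L : L' ≤ L := by
    have h1 : L' ≤ d * L' := le_mul_of_one_le_left (by linarith) hd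
    have h2 : d * L' ≤ g * (d * L') := le_mul_of_one_le_left (by positivity) hg
    linarith
  have hL1 : 1 ≤ L := hL'1.trans hL'L
  -- logs up to `8 T'`
  have hlog : ∀ x : ℝ, 3 ≤ x → x ≤ 3 * T' → Real.log (Q * x) ≤ 3 * L := by
    intro x hx hx2
    have h1 : Real.log (Q * x) ≤ Real.log (Q * (3 * T')) := logQ_mono hQ (by linarith) hx2
    have h2 : Real.log (Q * (3 * T')) ≤ 2 * Real.log (Q * T') := by
      have e : Real.log (Q * (3 * T')) = Real.log 3 + Real.log (Q * T') := by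
        rw [← Real.log_mul (by norm_num) (by positivity)]
        congr 1; ring
      have h3 : Real.log 3 ≤ Real.log (Q * T') :=
        Real.log_le_log (by norm_num) (by
          have : T' ≤ Q * T' := le_mul_of_one_le_left (by linarith) hQ
          linarith)
      linarith
    rw [← hL'] at h2
    linarith
  have hcnt : ∀ x y : ℝ, 3 ≤ x → x + 1 ≤ y → y ≤ 3 * T' →
      (NN F x y : ℝ) ≤ C2 * (y - x) * (3 * L) := by
    intro x y hx hxy hy
    refine (hcount Q F a hQ hF x y hx hxy).trans ?_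
    refine mul_le_mul_of_nonneg_left (hlog y (by linarith) hy) ?_
    have : 0 ≤ y - x := by linarith
    positivity
  have hfinF : ∀ x y : ℝ, 1 ≤ x → (zset F x y).Finite := fun x y hx =>
    zset_finite_D hA hQ hF x y hx
  -- the end points
  have m1 : g * (H - 3 * κ + α) = T' - 3 * κ' := by rw [hT', hκ']; ring
  have m2 : g * (H + κ + α) = T' + κ' := by rw [hT', hκ']; ring
  have m3 : g * (2 * H - κ + α) = g * (2 * H + α) - κ' := by rw [hκ']; ring
  have m4 : g * (2 * H + 3 * κ + α) = g * (2 * H + α) + 3 * κ' := by rw [hκ']; ring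
  have mE : g * (2 * H + α) ≤ 2 * T' := by rw [hT']; linarith
  have mE2 : T' ≤ g * (2 * H + α) := by rw [hT']; linarith
  have hV : 1 ≤ g * (H - 3 * κ + α) := by rw [m1]; linarith
  have hV3 : 1 ≤ g * (2 * H - κ + α) := by rw [m3]; linarith
  have mT : T' ≤ 2 * (g * H) + g * α - g * H := by rw [hT']; linarith
  have hfd := fin_dil hg α hNZ hV (V2 := 2 * H + 3 * κ) (hfinF _ _ hV)
  refine ⟨hfd, ?_, ?_, ?_, ?_, ?_, ?_, ?_, ?_, ?_, ?_, ?_, hL⟩
  · -- reflection
    intro s hs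
    have h1 := (mem_dil hg α hNZ hV s).1 hs
    rw [mem_dil hg α hNZ hV, dm_conj]
    obtain ⟨a1, a2, a3, a4, a5⟩ := h1
    have him : 1 ≤ (dm g α s).im := by linarith
    have e := hF.symm (dm g α s) a1 a2 him
    refine ⟨?_, ?_, ?_, ?_, ?_⟩
    · simp only [sub_re, one_re, conj_re]; linarith
    · simp only [sub_re, one_re, conj_re]; linarith
    · simp only [sub_im, one_im, conj_im]; linarith
    · simp only [sub_im, one_im, conj_im]; linarith
    · have han1 : AnalyticAt ℂ F (dm g α s) := hF.an _ (by linarith)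
      have han2 : AnalyticAt ℂ F (1 - conj (dm g α s)) := hF.an _ (by
        simp only [sub_im, one_im, conj_im]; linarith)
      have h2 : analyticOrderAt F (dm g α s) ≠ 0 := by
        rw [han1.analyticOrderAt_ne_zero]; exact a5
      rw [← e] at h2
      exact (han2.analyticOrderAt_ne_zero).1 h2
  · intro s hs
    obtain ⟨a1, a2, a3, a4, a5⟩ := (mem_dil hg α hNZ hV s).1 hs
    rw [mult_dil hg0.ne', mult_dil hg0.ne', dm_conj]
    unfold H370.mult analyticOrderNatAt
    rw [hF.symm (dm g α s) a1 a2 (by linarith)]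
  · intro s hs
    obtain ⟨a1, a2, a3, a4, a5⟩ := (mem_dil hg α hNZ hV s).1 hs
    rw [mult_dil hg0.ne']
    exact W388.LocD.mult_pos_D hA hF (by linarith) a5
  · -- count
    rw [NN_dil hg α hNZ hV, m1, m4]
    refine (hcnt _ _ (by linarith) (by linarith) (by linarith)).trans ?_
    have h1 : g * (2 * H + α) + 3 * κ' - (T' - 3 * κ') ≤ 2 * (g * H) := by
      have : 6 * κ' ≤ g * H := by rw [hκ']; linarith
      rw [hT']; linarith
    calc C2 * (g * (2 * H + α) + 3 * κ' - (T' - 3 * κ')) * (3 * L) ≤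
        C2 * (2 * (g * H)) * (3 * L) := by gcongr
      _ = 6 * C2 * g * (H * L) := by ring
      _ ≤ (24 * C2 * g + C1 + 48 * C2 * Real.exp 1 + g * Real.exp 1 * A) * (H * L) := by
          refine mul_le_mul_of_nonneg_right ?_ (mul_nonneg (by linarith) (by linarith))
          have : 0 ≤ C1 + 48 * C2 * Real.exp 1 + g * Real.exp 1 * A := by positivity
          have : 0 ≤ C2 * g := by positivity
          linarith
  · rw [NN_dil hg α hNZ hV, m1, m2]
    refine (hcnt _ _ (by linarith) (by linarith) (by linarith)).trans ?_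
    calc C2 * (T' + κ' - (T' - 3 * κ')) * (3 * L) = 12 * C2 * g * (κ * L) := by rw [hκ']; ring
      _ ≤ (24 * C2 * g + C1 + 48 * C2 * Real.exp 1 + g * Real.exp 1 * A) * (κ * L) := by
          refine mul_le_mul_of_nonneg_right ?_ (mul_nonneg (by linarith) (by linarith))
          have : 0 ≤ C1 + 48 * C2 * Real.exp 1 + g * Real.exp 1 * A := by positivity
          have : 0 ≤ C2 * g := by positivity
          linarith
  · rw [NN_dil hg α hNZ hV3, m3, m4]
    refine (hcnt _ _ (by linarith) (by linarith) (by linarith)).trans ?_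
    calc C2 * (g * (2 * H + α) + 3 * κ' - (g * (2 * H + α) - κ')) * (3 * L) =
          12 * C2 * g * (κ * L) := by rw [hκ']; ring
      _ ≤ (24 * C2 * g + C1 + 48 * C2 * Real.exp 1 + g * Real.exp 1 * A) * (κ * L) := by
          refine mul_le_mul_of_nonneg_right ?_ (mul_nonneg (by linarith) (by linarith))
          have : 0 ≤ C1 + 48 * C2 * Real.exp 1 + g * Real.exp 1 * A := by positivity
          have : 0 ≤ C2 * g := by positivity
          linarith
  · -- the explicit formula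
    intro u m hu hm1 hm2
    obtain ⟨V1, V2, hV1a, hV1b, hV2a, hV2b, hef⟩ := hform Q F a hQ hF T' κ' hκ'3 h8
    obtain ⟨t', ht'⟩ : ∃ t', t' = g * (m + α) := ⟨_, rfl⟩
    obtain ⟨u', hu'⟩ : ∃ u', u' = u / g := ⟨_, rfl⟩
    have hu'0 : 0 ≤ u' := by rw [hu']; positivity
    have ht1 : T' - 3 / 2 * κ' ≤ t' := by
      have := mul_le_mul_of_nonneg_left hm1 hg0.le
      rw [hT', hκ', ht']; linarith
    have ht2 : t' ≤ g * (2 * H + α) + 3 / 2 * κ' := by
      have := mul_le_mul_of_nonneg_left hm2 hg0.le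
      rw [hκ', ht']; linarith
    have hef' := hef u' t' hu'0 (by linarith) (by linarith)
    rw [A1_dil hg α hNZ hV hfd, m1, m4, ← ht', ← hu']
    -- replace the window
    have hBfin := hfinF (T' - 3 * κ') (2 * T' + 3 * κ') (by linarith)
    have hB0 : (NN F (T' - 3 * κ') (2 * T' + 3 * κ') : ℝ) ≤ 8 * C2 * T' * L := by
      refine (hcnt _ _ (by linarith) (by linarith) (by linarith)).trans ?_
      have h1 : 2 * T' + 3 * κ' - (T' - 3 * κ') ≤ 2 * T' := by linarith
      calc C2 * (2 * T' + 3 * κ' - (T' - 3 * κ')) * (3 * L) ≤ C2 * (2 * T') * (3 * L) := by gcongr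
        _ ≤ 8 * C2 * T' * L := by
          have : 0 ≤ C2 * T' * L := by positivity
          linarith
    obtain ⟨bd, hbd⟩ : ∃ bd, bd = Real.exp 1 * Real.exp (u / 2) * Real.exp (-κ ^ 2) := ⟨_, rfl⟩
    have hbd0 : 0 ≤ bd := by rw [hbd]; positivity
    have hwc := window_change (F := F) (a1 := T' - 3 * κ') (a2 := V1) (b1 := g * (2 * H + α) + 3 * κ')
      (b2 := V2) (B := 2 * T' + 3 * κ') (bd := bd) hV1a (by linarith) hV2b hBfin
      (hhb (2 / g ^ 2) u' t') (by
        intro s hs hcase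
        have hdist : 3 / 2 * κ' - 1 ≤ |s.im - t'| := by
          rcases hcase with h | h | h
          · rw [abs_sub_comm]
            exact le_trans (by linarith) (le_abs_self _)
          · exact le_trans (by linarith) (le_abs_self _)
          · exact le_trans (by linarith) (le_abs_self _)
        have hs1 : s = (⟨s.re, s.im⟩ : ℂ) := rfl
        rw [hs1, norm_hhb, hbd, ← Real.exp_add, ← Real.exp_add, ← Real.exp_add]
        apply Real.exp_le_exp.mpr
        have hsr0 := hs.1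
        have hsr1 := hs.2.1
        have hre : (s.re - 1 / 2) ^ 2 ≤ 1 / 4 := by
          have := sq_le_sq' (a := s.re - 1 / 2) (b := 1 / 2) (by linarith) (by linarith)
          linarith
        have hu2 : u' * (s.re - 1 / 2) ≤ u / 2 := by
          have h1 : u' ≤ u := by rw [hu']; exact div_le_self hu hg
          have h2 : u' * (s.re - 1 / 2) ≤ u' * (1 / 2) :=
            mul_le_mul_of_nonneg_left (by linarith) hu'0
          linarith
        have hsq : (3 / 2 * κ' - 1) ^ 2 ≤ (s.im - t') ^ 2 := by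
          rw [← sq_abs (s.im - t')]
          exact pow_le_pow_left₀ (by linarith) hdist 2
        have hg2 : (κ * g) ^ 2 ≤ (3 / 2 * κ' - 1) ^ 2 := by
          apply pow_le_pow_left₀ (by positivity)
          have : κ * g = κ' := by rw [hκ', mul_comm]
          rw [this]; linarith
        have h5 : 2 / g ^ 2 * ((s.re - 1 / 2) ^ 2 - (s.im - t') ^ 2) / 2 ≤ 1 - κ ^ 2 := by
          have e : 2 / g ^ 2 * ((s.re - 1 / 2) ^ 2 - (s.im - t') ^ 2) / 2 =
            ((s.re - 1 / 2) ^ 2 - (s.im - t') ^ 2) / g ^ 2 := by ring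
          rw [e, div_le_iff₀ (by positivity)]
          have : 1 ≤ g ^ 2 := one_le_pow₀ hg
          linarith
        linarith) hbd0
    -- the main term
    obtain ⟨S1, hS1⟩ : ∃ S1, S1 = ∑ᶠ w ∈ zset F (T' - 3 * κ') (g * (2 * H + α) + 3 * κ'),
      (mult F w : ℂ) * hhb (2 / g ^ 2) u' t' w := ⟨_, rfl⟩
    obtain ⟨S2, hS2⟩ : ∃ S2, S2 = ∑ᶠ w ∈ zset F V1 V2,
      (mult F w : ℂ) * hhb (2 / g ^ 2) u' t' w := ⟨_, rfl⟩
    rw [← hS1, ← hS2] at hwc
    rw [← hS2, ← hL'] at hef'
    rw [← hS1]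
    have hu0 : Real.exp (-(1 / g * u)) = Real.exp (-u') := by rw [hu']; congr 1; ring
    have hsqrt : 1 / Real.sqrt (2 * Real.pi * (2 / g ^ 2)) = g * (1 / (2 * Real.sqrt Real.pi)) := by
      have : 2 * Real.pi * (2 / g ^ 2) = (2 / g) ^ 2 * Real.pi := by field_simp
      rw [this, Real.sqrt_mul (by positivity), Real.sqrt_sq (by positivity)]
      field_simp
    rw [hsqrt] at hef'
    have hexpk : Real.exp (u' - 2 / g ^ 2 * κ' ^ 2 / 4) = Real.exp (u' - κ ^ 2 / 2) := by
      congr 1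
      rw [hκ']
      field_simp
      ring
    rw [hexpk] at hef'
    have hmain : cexp (-(I * u * α)) * (((g * (1 / (2 * Real.sqrt Real.pi)) : ℝ) : ℂ) *
        (((d * L' : ℝ) : ℂ) * cexp (I * t' * u') * Real.exp (-u' ^ 2 / (2 * (2 / g ^ 2)))
            - PPb (2 / g ^ 2) a u' t')) =
        (1 / (2 * Real.sqrt Real.pi) : ℝ) *
      (((g * (d * L') : ℝ) : ℂ) * cexp (I * m * u) * Real.exp (-u ^ 2 / 4) -
        PQ g (fun n => a n * tw (g * α) n) u m) := by
      rw [PQ_tw hg α a u m, ← ht', ← hu']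
      have e1 : Real.exp (-u' ^ 2 / (2 * (2 / g ^ 2))) = Real.exp (-u ^ 2 / 4) := by
        congr 1
        rw [hu']
        field_simp
        ring
      have e2 : cexp (-(I * u * α)) * cexp (I * t' * u') = cexp (I * m * u) := by
        rw [← Complex.exp_add]
        congr 1
        rw [ht', hu']
        push_cast
        field_simp
        ring
      rw [e1]
      push_cast
      linear_combination (g * (1 / (2 * (Real.sqrt Real.pi : ℂ))) * (d * L') *
        cexp (-u ^ 2 / 4)) * e2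
    have hn1 : ‖cexp (-(I * u * α))‖ = 1 := by
      have : -(I * u * α) = ((-(u * α) : ℝ) : ℂ) * I := by push_cast; ring
      rw [this, Complex.norm_exp_ofReal_mul_I]
    rw [← hmain, ← mul_sub, norm_mul, hn1, one_mul]
    obtain ⟨M, hM⟩ : ∃ M : ℂ, M = ((g * (1 / (2 * Real.sqrt Real.pi)) : ℝ) : ℂ) *
        (((d * L' : ℝ) : ℂ) * cexp (I * t' * u') * Real.exp (-u' ^ 2 / (2 * (2 / g ^ 2)))
            - PPb (2 / g ^ 2) a u' t') := ⟨_, rfl⟩
    rw [← hM] at hef' ⊢
    have htri : ‖S1 - M‖ ≤ ‖S1 - S2‖ + ‖S2 - M‖ := by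
      have : S1 - M = (S1 - S2) + (S2 - M) := by ring
      rw [this]; exact norm_add_le _ _
    have hLL : L' ^ 2 ≤ L ^ 2 := pow_le_pow_left₀ (by linarith) hL'L 2
    have hx1 : Real.exp (u' - κ ^ 2 / 2) ≤ Real.exp (u - κ ^ 2 / 2) := by
      apply Real.exp_le_exp.mpr
      have : u' ≤ u := by rw [hu']; exact div_le_self hu hg
      linarith
    have hb1 : (NN F (T' - 3 * κ') (2 * T' + 3 * κ') : ℝ) * bd ≤
        8 * C2 * Real.exp 1 * (L ^ 2 * Real.exp (u - κ ^ 2 / 2)) := by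
      have hx2 : T' * bd ≤ Real.exp 1 * Real.exp (u - κ ^ 2 / 2) := by
        calc T' * bd ≤ Real.exp (κ ^ 2 / 2) * bd := mul_le_mul_of_nonneg_right hexp hbd0
          _ = Real.exp 1 * Real.exp (u / 2 - κ ^ 2 / 2) := by
              rw [hbd, ← Real.exp_add, ← Real.exp_add, ← Real.exp_add, ← Real.exp_add]
              congr 1; ring
          _ ≤ Real.exp 1 * Real.exp (u - κ ^ 2 / 2) := by
              refine mul_le_mul_of_nonneg_left (Real.exp_le_exp.mpr (by linarith))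
                (Real.exp_pos _).le
      calc (NN F (T' - 3 * κ') (2 * T' + 3 * κ') : ℝ) * bd ≤ 8 * C2 * T' * L * bd :=
            mul_le_mul_of_nonneg_right hB0 hbd0
        _ = 8 * C2 * L * (T' * bd) := by ring
        _ ≤ 8 * C2 * L * (Real.exp 1 * Real.exp (u - κ ^ 2 / 2)) := by gcongr
        _ ≤ 8 * C2 * L ^ 2 * (Real.exp 1 * Real.exp (u - κ ^ 2 / 2)) := by
            have : L ≤ L ^ 2 := le_self_pow₀ hL1 (by norm_num)
            gcongr
        _ = _ := by ring
    rw [hu0]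
    obtain ⟨E1, hE1⟩ : ∃ E1, E1 = Real.exp (-u') := ⟨_, rfl⟩
    obtain ⟨E2, hE2⟩ : ∃ E2, E2 = L ^ 2 * Real.exp (u - κ ^ 2 / 2) := ⟨_, rfl⟩
    have hE10 : 0 ≤ E1 := hE1 ▸ (Real.exp_pos _).le
    have hE20 : 0 ≤ E2 := hE2 ▸ by positivity
    have hb2 : ‖S2 - M‖ ≤ C1 * (E1 + E2) := by
      refine hef'.trans ?_
      rw [hE1, hE2]
      gcongr
    rw [← hE2] at hb1
    rw [← hE1, ← hE2]
    calc ‖S1 - M‖ ≤ 8 * C2 * Real.exp 1 * E2 + C1 * (E1 + E2) :=
          htri.trans (add_le_add (hwc.trans hb1) hb2)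
      _ ≤ (24 * C2 * g + C1 + 48 * C2 * Real.exp 1 + g * Real.exp 1 * A) * (E1 + E2) := by
          have h1 : 0 ≤ C2 * Real.exp 1 * E2 := by positivity
          have h2 : 0 ≤ C2 * Real.exp 1 * E1 := by positivity
          have h3 : 0 ≤ C2 * g * (E1 + E2) := by positivity
          have h4 : 0 ≤ g * Real.exp 1 * A * (E1 + E2) := by positivity
          linarith
  · exact fun u => PQ_cont hg (CoefE_tw hca _) u
  · exact fun u => ⟨_, fun m => PQ_le hg (CoefE_tw hca _) u m⟩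
  · intro m
    refine (PQ_le hg (CoefE_tw hca _) 0 m).trans ?_
    rw [zero_div, zero_add]
    have : 0 ≤ 24 * C2 * g + C1 + 48 * C2 * Real.exp 1 := by positivity
    linarith
  · positivity

end Pool.Agent.V8H24.ZS
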