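import Pool.Agent.V8H24.ZS.Cut

/-! # The abstract family theorem for systems of zeros -/

set_option autoImplicit false

open Complex Filter Topology Set MeasureTheory
open H370 (zset mult NN Nd Ns)

namespace Pool.Agent.V8H24.ZS

open H385 (zz cc BB A1 bt wt Rw BB_int BB_far wt_sq_int bt_sq_int wt_cont fa_bt_cont fa_mink
  fa_arith1 fa_arith3 fa_gauss_int fa_Rw_cont fa_Rw_le Rw_nonneg)

lemma ar2 {ρ : ℝ} (hρ0 : 0 < ρ) (hρ1 : ρ ≤ 1) {u : ℝ} (hu : 0 ≤ u) :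
    Real.exp (-(ρ * u)) * Real.sqrt (u + 1) ≤ 1 / ρ * Real.exp (-(ρ * u) / 2) := by
  have h0 : 1 ≤ 1 / ρ := by rw [le_div_iff₀ hρ0]; linarith
  have h1 : Real.sqrt (u + 1) ≤ 1 / ρ * Real.exp (ρ * u / 2) := by
    rw [Real.sqrt_le_left (by positivity), mul_pow, ← Real.exp_nat_mul]
    have h2 := Real.add_one_le_exp (ρ * u)
    have h3 : ((2 : ℕ) : ℝ) * (ρ * u / 2) = ρ * u := by push_cast; ring
    rw [h3]
    have h4 : u + 1 ≤ 1 / ρ * (ρ * u + 1) := by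
      rw [mul_add, mul_one, ← mul_assoc, one_div_mul_cancel hρ0.ne', one_mul]
      linarith
    have h5 : 1 / ρ ≤ (1 / ρ) ^ 2 := le_self_pow₀ h0 two_ne_zero
    calc u + 1 ≤ 1 / ρ * (ρ * u + 1) := h4
      _ ≤ (1 / ρ) ^ 2 * Real.exp (ρ * u) := by
        have : 0 ≤ ρ * u := by positivity
        gcongr
  calc Real.exp (-(ρ * u)) * Real.sqrt (u + 1) ≤
      Real.exp (-(ρ * u)) * (1 / ρ * Real.exp (ρ * u / 2)) := by gcongr
    _ = 1 / ρ * (Real.exp (-(ρ * u)) * Real.exp (ρ * u / 2)) := by ring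
    _ = _ := by rw [← Real.exp_add]; congr 2; ring

lemma ar_int {ρ : ℝ} (hρ0 : 0 < ρ) (Λ : ℝ) :
    ∫ u in (0 : ℝ)..Λ, Real.exp (-(ρ * u) / 2) ≤ 2 / ρ := by
  have : ∫ u in (0 : ℝ)..Λ, Real.exp (-(ρ * u) / 2) = 2 / ρ - 2 / ρ * Real.exp (-(ρ * Λ) / 2) := by
    have hd : ∀ x ∈ Set.uIcc 0 Λ, HasDerivAt (fun u : ℝ => -(2 / ρ) * Real.exp (-(ρ * u) / 2))
        (Real.exp (-(ρ * x) / 2)) x := by
      intro x _
      have h1 : HasDerivAt (fun u : ℝ => -(ρ * u) / 2) (-(ρ * 1) / 2) x :=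
        (((hasDerivAt_id x).const_mul ρ).neg).div_const 2
      have h2 := (h1.exp).const_mul (-(2 / ρ))
      refine h2.congr_deriv ?_
      field_simp
    rw [intervalIntegral.integral_eq_sub_of_hasDerivAt hd
      ((by fun_prop : Continuous fun x : ℝ => Real.exp (-(ρ * x) / 2)).intervalIntegrable _ _)]
    simp
    ring
  rw [this]
  have := Real.exp_pos (-(ρ * Λ) / 2)
  have h2 : 0 < 2 / ρ := by positivity
  nlinarith

lemma fixedZ (C0 ρ : ℝ) (hC0 : 0 < C0) (hρ0 : 0 < ρ) (hρ1 : ρ ≤ 1) :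
    ∃ K : ℝ, 0 < K ∧ ∀ {ι : Type} (s : Finset ι) (ω : ι → ℝ) (ℓ : ι → ℝ) (F : ι → ℂ → ℂ)
      (P : ι → ℝ → ℝ → ℂ) (T κ Λ Lm y1 y2 : ℝ) (Y : ℝ → ℝ),
      (∀ i ∈ s, 0 ≤ ω i ∧ ZSys (F i) T κ (ℓ i) Lm C0 ρ (P i)) →
      3 ≤ κ → 8 * κ ≤ T → T ≤ Real.exp (κ ^ 2 / 2) → 1 ≤ Λ → 1 ≤ Lm →
      Lm ^ 2 * Real.exp (Λ - κ ^ 2 / 2) ≤ Real.exp (-Λ) → 0 ≤ y1 → 0 ≤ y2 →
      (∀ u ∈ Set.Icc 0 Λ, ∫ t : ℝ, ∑ i ∈ s, ω i * ‖PG (P i) T u t‖ ^ 2 ≤ Y u) →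
      (∀ u ∈ Set.Icc 0 Λ, Y u ≤ T * (y1 * (u + 1) + y2)) →
        ∀ u ∈ Set.Icc 0 Λ, ∑ i ∈ s, ω i *
          ∫ t : ℝ, ‖BB (F i) (T - 3 * κ) (2 * T + 3 * κ) T u t‖ ^ 2 ≤
          (∑ i ∈ s, ω i) * Lm ^ 2 * (T / (2 * Real.pi) * Real.exp (-u ^ 2)) + Y u +
          K * ((∑ i ∈ s, ω i) * (Lm ^ 2 * κ) + (∑ i ∈ s, ω i) * (Lm * T) +
            Real.sqrt (∑ i ∈ s, ω i) * Lm * T * (Real.sqrt y1 + Real.sqrt y2)) *
              Real.exp (-(ρ * u) / 2) := by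
  obtain ⟨C1, hC1d⟩ : ∃ C1, C1 = C0 := ⟨_, rfl⟩
  have hC1 : 0 < C1 := hC1d ▸ hC0
  obtain ⟨C3, hC3, hwt⟩ := wt_sq_int
  obtain ⟨C4, hC4, hbt⟩ := bt_sq_int
  refine ⟨Real.exp 1 * C4 + 2 * ((1 + C4) * Real.exp 1 + (1 + C4) * (4 * C1) * (1 + C3) +
    4 * C1 * (1 + C3) * (1 / ρ)) + (4 * C1) ^ 2 * (1 + C3) ^ 2 + 100 * C0 ^ 2 , by positivity, ?_⟩
  intro ι s ω ℓ F P T κ Λ Lm y1 y2 Y hs hκ hT hTκ hΛ hLm hLmΛ hy1 hy2 hY hYb u hu
  have hT0 : 0 < T := by linarith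
  have hT1 : 1 ≤ T := by linarith
  have hκ0 : 0 ≤ κ := by linarith
  obtain ⟨V1, hV1⟩ : ∃ V1, V1 = T - 3 * κ := ⟨_, rfl⟩
  obtain ⟨V2, hV2⟩ : ∃ V2, V2 = 2 * T + 3 * κ := ⟨_, rfl⟩
  rw [← hV1, ← hV2]
  have hfin : ∀ i ∈ s, (zset (F i) V1 V2).Finite := fun i hi => by
    rw [hV1, hV2]; exact (hs i hi).2.fin
  obtain ⟨hu0, huΛ⟩ := hu
  set W := ∑ i ∈ s, ω i with hW
  have hW0 : 0 ≤ W := Finset.sum_nonneg fun i hi => (hs i hi).1
  -- the three functions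
  set f : ι → ℝ → ℝ := fun _ t => Lm * ‖bt T u t 0‖ with hf
  set g : ι → ℝ → ℝ := fun i t => ‖PG (P i) T u t‖ with hg
  set h : ι → ℝ → ℝ := fun _ t => (4 * C1 * Real.exp (-(ρ * u))) * wt T t with hh
  have hfc : ∀ i ∈ s, Continuous (f i) := fun i _ => continuous_const.mul (fa_bt_cont T u 0).norm
  have hgc : ∀ i ∈ s, Continuous (g i) := fun i hi => (PG_cont (P i) ((hs i hi).2.Pc u)).norm
  have hhc : ∀ i ∈ s, Continuous (h i) := fun i _ => continuous_const.mul (wt_cont T)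
  have hbt0 := hbt T κ u 0 (by linarith) hT1
    (hTκ.trans (Real.exp_le_exp.mpr (H385.NL.a2 κ)))
  have hf2 : ∀ i ∈ s, Integrable (fun t => f i t ^ 2) := by
    intro i _
    simp only [hf, mul_pow]
    exact hbt0.1.const_mul _
  have hg2 : ∀ i ∈ s, Integrable (fun t => g i t ^ 2) := fun i hi =>
    PG_int (P i) hT0.le ((hs i hi).2.Pc u) ((hs i hi).2.Pb u)
  have hh2 : ∀ i ∈ s, Integrable (fun t => h i t ^ 2) := by
    intro i _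
    simp only [hh, mul_pow]
    exact (hwt T hT0.le).1.const_mul _
  set X := W * Lm ^ 2 * (T / (2 * Real.pi) * Real.exp (-u ^ 2) + C4 * κ * Real.exp (-u ^ 2 / 2))
    with hXdef
  set Z := W * (4 * C1 * Real.exp (-(ρ * u))) ^ 2 * (T + C3) with hZdef
  have hX : ∑ i ∈ s, ω i * ∫ t, f i t ^ 2 ≤ X := by
    simp only [hf, mul_pow]
    rw [integral_const_mul, ← Finset.sum_mul, ← hW, hXdef, mul_assoc W (Lm ^ 2)]
    have := hbt0.2
    rw [sub_zero] at this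
    gcongr
  have hY1 : ∑ i ∈ s, ω i * ∫ t, g i t ^ 2 ≤ Y u := by
    refine le_trans (le_of_eq ?_) (hY u ⟨hu0, huΛ⟩)
    rw [integral_finsetSum]
    · apply Finset.sum_congr rfl
      intro i _
      rw [integral_const_mul]
    · intro i hi
      exact (hg2 i hi).const_mul _
  have hZ : ∑ i ∈ s, ω i * ∫ t, h i t ^ 2 ≤ Z := by
    simp only [hh, mul_pow]
    rw [integral_const_mul, ← Finset.sum_mul, ← hW, hZdef]
    have := (hwt T hT0.le).2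
    rw [mul_assoc W]
    simp only [mul_pow]
    gcongr
  obtain ⟨hint, hmk⟩ := fa_mink s ω (fun i hi => (hs i hi).1) f g h hfc hgc hhc hf2 hg2 hh2
    hX hY1 hZ
  have hYu0 : 0 ≤ Y u := le_trans (Finset.sum_nonneg fun i hi =>
    mul_nonneg (hs i hi).1 (integral_nonneg fun t => sq_nonneg _)) hY1
  -- each BB
  have hLmbig : Lm ^ 2 * Real.exp (u - κ ^ 2 / 2) ≤ Real.exp (-u) := by
    calc Lm ^ 2 * Real.exp (u - κ ^ 2 / 2) ≤ Lm ^ 2 * Real.exp (Λ - κ ^ 2 / 2) := by gcongr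
      _ ≤ Real.exp (-Λ) := hLmΛ
      _ ≤ Real.exp (-u) := by gcongr
  have hρu : ρ * u ≤ u := mul_le_of_le_one_left hu0 hρ1
  have hρu0 : 0 ≤ ρ * u := by positivity
  have heuρ : Real.exp (-u) ≤ Real.exp (-(ρ * u)) := Real.exp_le_exp.2 (by linarith)
  have hBB : ∀ i ∈ s, ∫ t : ℝ, ‖BB (F i) V1 V2 T u t‖ ^ 2 ≤
      (∫ t, (f i t + g i t + h i t) ^ 2) + 100 * C0 ^ 2 * (T * Real.exp (-u)) := by
    intro i hi
    obtain ⟨hωi, hsys⟩ := hs i hi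
    have hbbi := BB_int (F i) V1 V2 T (hfin i hi)
    rw [← integral_add_compl (measurableSet_Icc : MeasurableSet
      (Set.Icc (T - 3 * κ) (2 * T + 3 * κ))) (hbbi.1 u)]
    apply add_le_add
    · refine le_trans ?_ (setIntegral_le_integral (s := Set.Icc (T - 3 * κ) (2 * T + 3 * κ))
        (hint i hi) (Filter.Eventually.of_forall fun t => sq_nonneg _))
      apply setIntegral_mono_on (hbbi.1 u).integrableOn (hint i hi).integrableOn measurableSet_Icc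
      intro t ht
      apply pow_le_pow_left₀ (norm_nonneg _)
      have hE : ∀ m : ℝ, T - 3 / 2 * κ ≤ m → m ≤ 2 * T + 3 / 2 * κ →
          ‖A1 (F i) V1 V2 u m - (1 / (2 * Real.sqrt Real.pi) : ℝ) *
          (((ℓ i : ℝ) : ℂ) * cexp (I * m * u) * Real.exp (-u ^ 2 / 4)
            - P i u m)‖ ≤
          2 * C1 * Real.exp (-(ρ * u)) := by
        intro m hm1 hm2
        rw [hV1, hV2]
        refine (hsys.form u m hu0 hm1 hm2).trans ?_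
        rw [← hC1d]
        exact H385.NL.a3 hC1.le (hLmbig.trans heuρ)
      have hb := BB_formulaZ (F i) (P i) (ℓ i) V1 V2 T κ u
        (2 * C1 * Real.exp (-(ρ * u))) (hsys.Pc u) (hfin i hi) hκ hT hE t ht.1 ht.2
      have hb2 : ‖BB (F i) V1 V2 T u t‖ ≤
          ‖((ℓ i : ℝ) : ℂ) * bt T u t 0 - PG (P i) T u t‖ +
          2 * (2 * C1 * Real.exp (-(ρ * u))) * wt T t := by
        have := norm_le_insert' (BB (F i) V1 V2 T u t)
          (((ℓ i : ℝ) : ℂ) * bt T u t 0 - PG (P i) T u t)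
        linarith
      have hb3 : ‖((ℓ i : ℝ) : ℂ) * bt T u t 0 - PG (P i) T u t‖ ≤
          Lm * ‖bt T u t 0‖ + ‖PG (P i) T u t‖ := by
        refine (norm_sub_le _ _).trans ?_
        rw [norm_mul, Complex.norm_real, Real.norm_eq_abs, abs_of_nonneg hsys.hl0]
        have := hsys.hl
        gcongr
      simp only [hf, hg, hh]
      linarith
    · refine (BB_far (F i) V1 V2 T κ u (hfin i hi) hT0.le (by linarith) hu0).trans ?_
      have hNN : (NN (F i) V1 V2 : ℝ) ≤ C0 * (T * Lm) := by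
        rw [hV1, hV2]; exact hsys.cnt
      have hNN2 : (NN (F i) V1 V2 : ℝ) ^ 2 ≤ (C0 * (T * Lm)) ^ 2 :=
        pow_le_pow_left₀ (by positivity) hNN 2
      calc 100 * (NN (F i) V1 V2 : ℝ) ^ 2 * Real.exp (u - κ ^ 2)
          ≤ 100 * (C0 * (T * Lm)) ^ 2 * Real.exp (u - κ ^ 2) := by gcongr
        _ = 100 * C0 ^ 2 * (T * ((T * Real.exp (-(κ ^ 2 / 2))) *
            (Lm ^ 2 * Real.exp (u - κ ^ 2 / 2)))) := by
            have : Real.exp (u - κ ^ 2) = Real.exp (-(κ ^ 2 / 2)) * Real.exp (u - κ ^ 2 / 2) := by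
              rw [← Real.exp_add]; congr 1; ring
            rw [this]; ring
        _ ≤ 100 * C0 ^ 2 * (T * (1 * Real.exp (-u))) := by
            have : T * Real.exp (-(κ ^ 2 / 2)) ≤ 1 := by
              calc T * Real.exp (-(κ ^ 2 / 2)) ≤
                  Real.exp (κ ^ 2 / 2) * Real.exp (-(κ ^ 2 / 2)) := by gcongr
                _ = 1 := by rw [← Real.exp_add]; simp
            gcongr
        _ = _ := by ring
  have hsum : ∑ i ∈ s, ω i * ∫ t : ℝ, ‖BB (F i) V1 V2 T u t‖ ^ 2 ≤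
      (∑ i ∈ s, ω i * ∫ t, (f i t + g i t + h i t) ^ 2) +
        W * (100 * C0 ^ 2 * (T * Real.exp (-u))) := by
    rw [hW, Finset.sum_mul, ← Finset.sum_add_distrib]
    apply Finset.sum_le_sum
    intro i hi
    rw [← mul_add]
    exact mul_le_mul_of_nonneg_left (hBB i hi) (hs i hi).1
  -- square roots
  set E2 := Real.exp (-(ρ * u) / 2) with hE2
  have hE2p : 0 < E2 := Real.exp_pos _
  have hE2a : Real.exp (-u / 2) ≤ E2 := by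
    rw [hE2]; apply Real.exp_le_exp.mpr; linarith
  have heu : Real.exp (-u) ≤ E2 := by
    rw [hE2]; apply Real.exp_le_exp.mpr; linarith
  have heρ : Real.exp (-(ρ * u)) ≤ E2 := by
    rw [hE2]; apply Real.exp_le_exp.mpr; linarith
  have heρ1 : Real.exp (-(ρ * u)) ≤ 1 := by
    rw [Real.exp_le_one_iff]; linarith
  have sX : Real.sqrt X ≤ Real.sqrt W * Lm * Real.sqrt T * (1 + C4) * Real.exp (-u ^ 2 / 4) := by
    rw [Real.sqrt_le_left (by positivity)]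
    have e1 : (Real.sqrt W * Lm * Real.sqrt T * (1 + C4) * Real.exp (-u ^ 2 / 4)) ^ 2 =
        W * Lm ^ 2 * (T * (1 + C4) ^ 2 * Real.exp (-u ^ 2 / 2)) := by
      rw [mul_pow, mul_pow, mul_pow, mul_pow, Real.sq_sqrt hW0, Real.sq_sqrt hT0.le,
        ← Real.exp_nat_mul]
      have : ((2 : ℕ) : ℝ) * (-u ^ 2 / 4) = -u ^ 2 / 2 := by push_cast; ring
      rw [this]; ring
    rw [e1, hXdef]
    have e2 : Real.exp (-u ^ 2) ≤ Real.exp (-u ^ 2 / 2) := by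
      exact Real.exp_le_exp.mpr (H385.NL.a4 u)
    have e3 : T / (2 * Real.pi) ≤ T := by
      rw [div_le_iff₀ (by positivity)]
      exact H385.NL.a5 hT0.le
    have e4 : κ ≤ T := by linarith
    have e5 : T / (2 * Real.pi) * Real.exp (-u ^ 2) + C4 * κ * Real.exp (-u ^ 2 / 2) ≤
        T * (1 + C4) ^ 2 * Real.exp (-u ^ 2 / 2) := by
      calc T / (2 * Real.pi) * Real.exp (-u ^ 2) + C4 * κ * Real.exp (-u ^ 2 / 2) ≤
          T * Real.exp (-u ^ 2 / 2) + C4 * T * Real.exp (-u ^ 2 / 2) := by gcongr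
        _ = T * (1 + C4) * Real.exp (-u ^ 2 / 2) := by ring
        _ ≤ T * (1 + C4) ^ 2 * Real.exp (-u ^ 2 / 2) := by
          have : (1 + C4) ≤ (1 + C4) ^ 2 := H385.NL.a6 hC4.le
          gcongr
    gcongr
  have sY : Real.sqrt (Y u) ≤ Real.sqrt T * Real.sqrt (u + 1) * (Real.sqrt y1 + Real.sqrt y2) := by
    rw [Real.sqrt_le_left (by positivity)]
    rw [mul_pow, mul_pow, Real.sq_sqrt hT0.le, Real.sq_sqrt (by linarith)]
    refine (hYb u ⟨hu0, huΛ⟩).trans ?_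
    have e1 : (Real.sqrt y1 + Real.sqrt y2) ^ 2 ≥ y1 + y2 := by
      exact H385.NL.a7 hy1 hy2
    calc T * (y1 * (u + 1) + y2) ≤ T * ((u + 1) * (y1 + y2)) := by
          apply mul_le_mul_of_nonneg_left _ hT0.le
          exact H385.NL.a8 hu0 hy2
      _ ≤ T * ((u + 1) * (Real.sqrt y1 + Real.sqrt y2) ^ 2) := by gcongr
      _ = _ := by ring
  have sZ : Real.sqrt Z ≤ Real.sqrt W * (4 * C1 * Real.exp (-(ρ * u))) * Real.sqrt T *
      (1 + C3) := by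
    rw [Real.sqrt_le_left (by positivity)]
    have e1 : (Real.sqrt W * (4 * C1 * Real.exp (-(ρ * u))) * Real.sqrt T * (1 + C3)) ^ 2 =
        W * (4 * C1 * Real.exp (-(ρ * u))) ^ 2 * (T * (1 + C3) ^ 2) := by
      calc (Real.sqrt W * (4 * C1 * Real.exp (-(ρ * u))) * Real.sqrt T * (1 + C3)) ^ 2 =
          (Real.sqrt W) ^ 2 * (4 * C1 * Real.exp (-(ρ * u))) ^ 2 *
            ((Real.sqrt T) ^ 2 * (1 + C3) ^ 2) := by ring
        _ = _ := by rw [Real.sq_sqrt hW0, Real.sq_sqrt hT0.le]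
    rw [e1, hZdef]
    have : T + C3 ≤ T * (1 + C3) ^ 2 := H385.NL.a9 hT1 hC3
    exact mul_le_mul_of_nonneg_left this (by positivity)
  set S := Real.sqrt y1 + Real.sqrt y2 with hS
  have hS0 : 0 ≤ S := by positivity
  set rW := Real.sqrt W with hrW
  have hrW0 : 0 ≤ rW := Real.sqrt_nonneg _
  have hrWW : rW * rW = W := Real.mul_self_sqrt hW0
  have hTT : Real.sqrt T * Real.sqrt T = T := Real.mul_self_sqrt hT0.le
  have cXY : Real.sqrt X * Real.sqrt (Y u) ≤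
      (1 + C4) * Real.exp 1 * (rW * Lm * T * S) * E2 := by
    calc Real.sqrt X * Real.sqrt (Y u) ≤
        (rW * Lm * Real.sqrt T * (1 + C4) * Real.exp (-u ^ 2 / 4)) *
          (Real.sqrt T * Real.sqrt (u + 1) * S) := by gcongr
      _ = (1 + C4) * (rW * Lm * (Real.sqrt T * Real.sqrt T) * S) *
          (Real.exp (-u ^ 2 / 4) * Real.sqrt (u + 1)) := by ring
      _ ≤ (1 + C4) * (rW * Lm * (Real.sqrt T * Real.sqrt T) * S) *
          (Real.exp 1 * E2) :=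
          mul_le_mul_of_nonneg_left ((fa_arith1 u).trans (by gcongr)) (by positivity)
      _ = _ := by rw [hTT]; ring
  have cXZ : Real.sqrt X * Real.sqrt Z ≤
      (1 + C4) * (4 * C1) * (1 + C3) * (W * (Lm * T)) * E2 := by
    calc Real.sqrt X * Real.sqrt Z ≤
        (rW * Lm * Real.sqrt T * (1 + C4) * Real.exp (-u ^ 2 / 4)) *
          (rW * (4 * C1 * Real.exp (-(ρ * u))) * Real.sqrt T * (1 + C3)) := by gcongr
      _ = (1 + C4) * (4 * C1) * (1 + C3) * ((rW * rW) * (Lm * (Real.sqrt T * Real.sqrt T))) *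
          (Real.exp (-u ^ 2 / 4) * Real.exp (-(ρ * u))) := by ring
      _ ≤ (1 + C4) * (4 * C1) * (1 + C3) * ((rW * rW) * (Lm * (Real.sqrt T * Real.sqrt T))) *
          (1 * E2) := by
          have : Real.exp (-u ^ 2 / 4) ≤ 1 := by
            exact Real.exp_le_one_iff.mpr (H385.NL.a10 u)
          gcongr
      _ = _ := by rw [hTT, hrWW]; ring
  have cYZ : Real.sqrt (Y u) * Real.sqrt Z ≤
      4 * C1 * (1 + C3) * (1 / ρ) * (rW * Lm * T * S) * E2 := by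
    calc Real.sqrt (Y u) * Real.sqrt Z ≤
        (Real.sqrt T * Real.sqrt (u + 1) * S) *
          (rW * (4 * C1 * Real.exp (-(ρ * u))) * Real.sqrt T * (1 + C3)) := by gcongr
      _ = 4 * C1 * (1 + C3) * (rW * 1 * (Real.sqrt T * Real.sqrt T) * S) *
          (Real.exp (-(ρ * u)) * Real.sqrt (u + 1)) := by ring
      _ ≤ 4 * C1 * (1 + C3) * (rW * Lm * (Real.sqrt T * Real.sqrt T) * S) *
          (1 / ρ * E2) := by
          have := ar2 hρ0 hρ1 hu0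
          gcongr
      _ = _ := by rw [hTT]; ring
  have cZ : Z ≤ (4 * C1) ^ 2 * (1 + C3) ^ 2 * (W * (Lm * T)) * E2 := by
    calc Z ≤ W * (4 * C1 * Real.exp (-(ρ * u))) ^ 2 * (T * (1 + C3) ^ 2) := by
          have : T + C3 ≤ T * (1 + C3) ^ 2 := H385.NL.a9 hT1 hC3
          rw [hZdef]
          gcongr
      _ = (4 * C1) ^ 2 * (1 + C3) ^ 2 * (W * (1 * T)) *
          (Real.exp (-(ρ * u)) * Real.exp (-(ρ * u))) := by ring
      _ ≤ (4 * C1) ^ 2 * (1 + C3) ^ 2 * (W * (Lm * T)) * (1 * E2) := by gcongr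
      _ = _ := by ring
  have cX : X ≤ W * Lm ^ 2 * (T / (2 * Real.pi) * Real.exp (-u ^ 2)) +
      Real.exp 1 * C4 * (W * (Lm ^ 2 * κ)) * E2 := by
    have := fa_arith3 u
    have e1 : W * Lm ^ 2 * (C4 * κ * Real.exp (-u ^ 2 / 2)) ≤
        W * Lm ^ 2 * (C4 * κ * (Real.exp 1 * E2)) := by
      have h7 : Real.exp (-u ^ 2 / 2) ≤ Real.exp 1 * E2 := this.trans (by gcongr)
      gcongr
    rw [hXdef, mul_add]
    have e2 : W * Lm ^ 2 * (C4 * κ * (Real.exp 1 * E2)) =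
      Real.exp 1 * C4 * (W * (Lm ^ 2 * κ)) * E2 := by ring
    linarith
  have cO : W * (100 * C0 ^ 2 * (T * Real.exp (-u))) ≤
      100 * C0 ^ 2 * (W * (Lm * T)) * E2 := by
    calc W * (100 * C0 ^ 2 * (T * Real.exp (-u))) =
        100 * C0 ^ 2 * (W * (1 * T)) * Real.exp (-u) := by ring
      _ ≤ _ := by gcongr
  -- final
  set D1 := W * (Lm ^ 2 * κ) with hD1
  set D2 := W * (Lm * T) with hD2
  set D3 := rW * Lm * T * S with hD3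
  have d1 : 0 ≤ D1 * E2 := by positivity
  have d2 : 0 ≤ D2 * E2 := by positivity
  have d3 : 0 ≤ D3 * E2 := by positivity
  have k1 : 0 < Real.exp 1 * C4 := by positivity
  have k2 : 0 < (1 + C4) * Real.exp 1 := by positivity
  have k3 : 0 < (1 + C4) * (4 * C1) * (1 + C3) := by positivity
  have k4 : 0 < 4 * C1 * (1 + C3) * (1 / ρ) := by positivity
  have k5 : 0 < (4 * C1) ^ 2 * (1 + C3) ^ 2 := by positivity
  have k6 : 0 < 100 * C0 ^ 2 := by positivity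
  set K1 := Real.exp 1 * C4 with hK1
  set K2 := (1 + C4) * Real.exp 1
  set K3 := (1 + C4) * (4 * C1) * (1 + C3)
  set K4 := 4 * C1 * (1 + C3) * (1 / ρ)
  set K5 := (4 * C1) ^ 2 * (1 + C3) ^ 2
  set K6 := 100 * C0 ^ 2
  have key : (K1 * (D1 * E2) + 2 * (K2 * (D3 * E2) + K3 * (D2 * E2) + K4 * (D3 * E2)) +
      K5 * (D2 * E2) + K6 * (D2 * E2)) ≤
      (K1 + 2 * (K2 + K3 + K4) + K5 + K6) * (D1 * E2 + D2 * E2 + D3 * E2) := by
    generalize D1 * E2 = g1 at *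
    generalize D2 * E2 = g2 at *
    generalize D3 * E2 = g3 at *
    have e1 : (K1 + 2 * (K2 + K3 + K4) + K5 + K6) * (g1 + g2 + g3) -
        (K1 * g1 + 2 * (K2 * g3 + K3 * g2 + K4 * g3) + K5 * g2 + K6 * g2) =
        K1 * (g2 + g3) + 2 * (K2 * (g1 + g2) + K3 * (g1 + g3) + K4 * (g1 + g2)) +
        K5 * (g1 + g3) + K6 * (g1 + g3) := by ring
    have e2 : 0 ≤ K1 * (g2 + g3) + 2 * (K2 * (g1 + g2) + K3 * (g1 + g3) + K4 * (g1 + g2)) +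
        K5 * (g1 + g3) + K6 * (g1 + g3) := by positivity
    linarith
  have e0 : (K1 + 2 * (K2 + K3 + K4) + K5 + K6) * (D1 * E2 + D2 * E2 + D3 * E2) =
      (K1 + 2 * (K2 + K3 + K4) + K5 + K6) * (D1 + D2 + D3) * E2 := by ring
  calc ∑ i ∈ s, ω i * ∫ t : ℝ, ‖BB (F i) V1 V2 T u t‖ ^ 2 ≤
      X + Y u + Z + 2 * (Real.sqrt X * Real.sqrt (Y u) + Real.sqrt X * Real.sqrt Z +
        Real.sqrt (Y u) * Real.sqrt Z) + W * (K6 * (T * Real.exp (-u))) := by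
        linarith
    _ ≤ W * Lm ^ 2 * (T / (2 * Real.pi) * Real.exp (-u ^ 2)) + Y u +
        (K1 * (D1 * E2) + 2 * (K2 * (D3 * E2) + K3 * (D2 * E2) + K4 * (D3 * E2)) +
      K5 * (D2 * E2) + K6 * (D2 * E2)) := by
        linarith
    _ ≤ _ := by linarith

/-! ### integration over `u` -/

lemma intZ (γ : ℝ) (h0 : 0 < γ) (hπ : γ < Real.pi) (C0 ρ : ℝ) (hC0 : 0 < C0) (hρ0 : 0 < ρ)
    (hρ1 : ρ ≤ 1) :
    ∃ K : ℝ, 0 < K ∧ ∀ {ι : Type} (s : Finset ι) (ω : ι → ℝ) (ℓ : ι → ℝ) (F : ι → ℂ → ℂ)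
      (P : ι → ℝ → ℝ → ℂ) (T κ Λ Lm y1 y2 : ℝ) (Y : ℝ → ℝ),
      (∀ i ∈ s, 0 ≤ ω i ∧ ZSys (F i) T κ (ℓ i) Lm C0 ρ (P i)) →
      3 ≤ κ → 8 * κ ≤ T → T ≤ Real.exp (κ ^ 2 / 2) → 1 ≤ Λ → 1 ≤ Lm →
      Lm ^ 2 * Real.exp (Λ - κ ^ 2 / 2) ≤ Real.exp (-Λ) → 0 ≤ y1 → 0 ≤ y2 →
      (∀ u ∈ Set.Icc 0 Λ, ∫ t : ℝ, ∑ i ∈ s, ω i * ‖PG (P i) T u t‖ ^ 2 ≤ Y u) →
      (∀ u ∈ Set.Icc 0 Λ, Y u ≤ T * (y1 * (u + 1) + y2)) →
      IntervalIntegrable Y volume 0 Λ →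
        ∑ i ∈ s, ω i * ((2 / (Real.sqrt Real.pi * Λ)) * (∫ u in (0 : ℝ)..Λ, Rw γ (u / Λ) *
          ∫ t : ℝ, ‖BB (F i) (T - 3 * κ) (2 * T + 3 * κ) T u t‖ ^ 2)) ≤
        (∑ i ∈ s, ω i) * Lm ^ 2 * Rw γ 0 * T / (2 * Real.pi * Λ) +
        (2 / (Real.sqrt Real.pi * Λ)) * (∫ u in (0 : ℝ)..Λ, Rw γ (u / Λ) * Y u) +
        K * ((∑ i ∈ s, ω i) * (Lm ^ 2 * κ / Λ + Lm * T / Λ) +
          Real.sqrt (∑ i ∈ s, ω i) * Lm * T * (Real.sqrt y1 + Real.sqrt y2) / Λ) := by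
  obtain ⟨K, hK, hfix⟩ := fixedZ C0 ρ hC0 hρ0 hρ1
  have hR0 : 0 ≤ Rw γ 0 := Rw_nonneg γ h0 hπ 0
  have hRc := fa_Rw_cont γ h0 hπ
  refine ⟨4 * (Rw γ 0 + 1) * K / ρ / Real.sqrt Real.pi, by positivity, ?_⟩
  intro ι s ω ℓ F P T κ Λ Lm y1 y2 Y hs hκ hT hTκ hΛ hLm hLmΛ hy1 hy2 hY hYb hYi
  have hu := hfix s ω ℓ F P T κ Λ Lm y1 y2 Y hs hκ hT hTκ hΛ hLm hLmΛ hy1 hy2 hY hYb
  have hT0 : 0 < T := by linarith
  have hΛ0 : 0 < Λ := by linarith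
  have hκ0 : 0 < κ := by linarith
  set W := ∑ i ∈ s, ω i with hW
  have hW0 : 0 ≤ W := Finset.sum_nonneg fun i hi => (hs i hi).1
  set D := W * (Lm ^ 2 * κ) + W * (Lm * T) +
    Real.sqrt W * Lm * T * (Real.sqrt y1 + Real.sqrt y2) with hD
  have hD0 : 0 ≤ D := by positivity
  set G : ι → ℝ → ℝ := fun i u =>
    ∫ t : ℝ, ‖BB (F i) (T - 3 * κ) (2 * T + 3 * κ) T u t‖ ^ 2 with hG
  have hGc : ∀ i ∈ s, Continuous (G i) := fun i hi =>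
    (BB_int (F i) (T - 3 * κ) (2 * T + 3 * κ) T (hs i hi).2.fin).2
  have hRc2 : Continuous (fun u : ℝ => Rw γ (u / Λ)) := hRc.comp (by fun_prop)
  have hlhs : ∑ i ∈ s, ω i * ((2 / (Real.sqrt Real.pi * Λ)) *
      (∫ u in (0 : ℝ)..Λ, Rw γ (u / Λ) * G i u)) =
      (2 / (Real.sqrt Real.pi * Λ)) * ∫ u in (0 : ℝ)..Λ, Rw γ (u / Λ) * ∑ i ∈ s, ω i * G i u := by
    have e1 : ∀ u, Rw γ (u / Λ) * ∑ i ∈ s, ω i * G i u =
        ∑ i ∈ s, ω i * (Rw γ (u / Λ) * G i u) := by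
      intro u
      rw [Finset.mul_sum]
      apply Finset.sum_congr rfl
      intro i _
      ring
    simp_rw [e1]
    rw [intervalIntegral.integral_finsetSum, Finset.mul_sum]
    · apply Finset.sum_congr rfl
      intro i _
      rw [intervalIntegral.integral_const_mul]
      ring
    · intro i hi
      exact (continuous_const.mul (hRc2.mul (hGc i hi))).intervalIntegrable _ _
  show ∑ i ∈ s, ω i * ((2 / (Real.sqrt Real.pi * Λ)) *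
      (∫ u in (0 : ℝ)..Λ, Rw γ (u / Λ) * G i u)) ≤ _
  rw [hlhs]
  have hgi : IntervalIntegrable (fun u : ℝ => Rw γ 0 * (W * Lm ^ 2 * (T / (2 * Real.pi)) *
      Real.exp (-u ^ 2))) volume 0 Λ :=
    (by fun_prop : Continuous (fun u : ℝ => Rw γ 0 * (W * Lm ^ 2 * (T / (2 * Real.pi)) *
      Real.exp (-u ^ 2)))).intervalIntegrable _ _
  have hYi2 : IntervalIntegrable (fun u : ℝ => Rw γ (u / Λ) * Y u) volume 0 Λ :=
    hYi.continuousOn_mul hRc2.continuousOn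
  have hei : IntervalIntegrable (fun u : ℝ => Rw γ 0 * (K * D * Real.exp (-(ρ * u) / 2)))
      volume 0 Λ :=
    (by fun_prop : Continuous (fun u : ℝ => Rw γ 0 * (K * D *
      Real.exp (-(ρ * u) / 2)))).intervalIntegrable _ _
  have hint : ∫ u in (0 : ℝ)..Λ, Rw γ (u / Λ) * ∑ i ∈ s, ω i * G i u ≤
      ∫ u in (0 : ℝ)..Λ, (Rw γ 0 * (W * Lm ^ 2 * (T / (2 * Real.pi)) * Real.exp (-u ^ 2)) +
        Rw γ (u / Λ) * Y u + Rw γ 0 * (K * D * Real.exp (-(ρ * u) / 2))) := by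
    apply intervalIntegral.integral_mono_on hΛ0.le _ ((hgi.add hYi2).add hei)
    · intro u hu'
      have h1 := hu u hu'
      have hr0 := Rw_nonneg γ h0 hπ (u / Λ)
      have hr1 : Rw γ (u / Λ) ≤ Rw γ 0 := fa_Rw_le γ h0 hπ (div_nonneg hu'.1 hΛ0.le)
      calc Rw γ (u / Λ) * ∑ i ∈ s, ω i * G i u ≤
          Rw γ (u / Λ) * (W * Lm ^ 2 * (T / (2 * Real.pi) * Real.exp (-u ^ 2)) + Y u +
          K * D * Real.exp (-(ρ * u) / 2)) := mul_le_mul_of_nonneg_left h1 hr0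
        _ = Rw γ (u / Λ) * (W * Lm ^ 2 * (T / (2 * Real.pi)) * Real.exp (-u ^ 2)) +
            Rw γ (u / Λ) * Y u + Rw γ (u / Λ) * (K * D * Real.exp (-(ρ * u) / 2)) := by ring
        _ ≤ _ := by gcongr
    · apply Continuous.intervalIntegrable
      exact hRc2.mul (continuous_finsetSum _ fun i hi => continuous_const.mul (hGc i hi))
  rw [intervalIntegral.integral_add (hgi.add hYi2) hei,
    intervalIntegral.integral_add hgi hYi2, intervalIntegral.integral_const_mul,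
    intervalIntegral.integral_const_mul, intervalIntegral.integral_const_mul,
    intervalIntegral.integral_const_mul] at hint
  have hg1 := fa_gauss_int Λ hΛ0.le
  have he1 := ar_int hρ0 Λ
  have hsp : 0 < Real.sqrt Real.pi := Real.sqrt_pos.mpr Real.pi_pos
  have hc0 : 0 < 2 / (Real.sqrt Real.pi * Λ) := by positivity
  set IY := ∫ u in (0 : ℝ)..Λ, Rw γ (u / Λ) * Y u with hIY
  have hfin2 : ∫ u in (0 : ℝ)..Λ, Rw γ (u / Λ) * ∑ i ∈ s, ω i * G i u ≤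
      Rw γ 0 * (W * Lm ^ 2 * (T / (2 * Real.pi)) * (Real.sqrt Real.pi / 2)) + IY +
        (Rw γ 0 + 1) * (K * D * (2 / ρ)) := by
    refine hint.trans ?_
    have e1 : Rw γ 0 * (W * Lm ^ 2 * (T / (2 * Real.pi)) * ∫ u in (0 : ℝ)..Λ, Real.exp (-u ^ 2)) ≤
        Rw γ 0 * (W * Lm ^ 2 * (T / (2 * Real.pi)) * (Real.sqrt Real.pi / 2)) := by gcongr
    have e2 : Rw γ 0 * (K * D * ∫ u in (0 : ℝ)..Λ, Real.exp (-(ρ * u) / 2)) ≤
        (Rw γ 0 + 1) * (K * D * (2 / ρ)) := by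
      calc Rw γ 0 * (K * D * ∫ u in (0 : ℝ)..Λ, Real.exp (-(ρ * u) / 2)) ≤
          Rw γ 0 * (K * D * (2 / ρ)) := by gcongr
        _ ≤ _ := by
          apply mul_le_mul_of_nonneg_right (by linarith) (by positivity)
    linarith
  calc (2 / (Real.sqrt Real.pi * Λ)) * ∫ u in (0 : ℝ)..Λ, Rw γ (u / Λ) * ∑ i ∈ s, ω i * G i u
      ≤ (2 / (Real.sqrt Real.pi * Λ)) * (Rw γ 0 * (W * Lm ^ 2 * (T / (2 * Real.pi)) *
        (Real.sqrt Real.pi / 2)) + IY + (Rw γ 0 + 1) * (K * D * (2 / ρ))) :=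
        mul_le_mul_of_nonneg_left hfin2 hc0.le
    _ = _ := by
        rw [hD]
        field_simp
        ring

theorem famZ (γ : ℝ) (h0 : 0 < γ) (hπ : γ < Real.pi) (C0 ρ : ℝ) (hC0 : 0 < C0) (hρ0 : 0 < ρ)
    (hρ1 : ρ ≤ 1) :
    ∃ C : ℝ, 0 < C ∧ ∀ {ι : Type} (s : Finset ι) (ω : ι → ℝ) (ℓ : ι → ℝ) (F : ι → ℂ → ℂ)
      (P : ι → ℝ → ℝ → ℂ) (T κ Λ Lm y1 y2 : ℝ) (Y : ℝ → ℝ),
      (∀ i ∈ s, 0 ≤ ω i ∧ ZSys (F i) T κ (ℓ i) Lm C0 ρ (P i)) →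
      3 ≤ κ → 8 * κ ≤ T → T ≤ Real.exp (κ ^ 2 / 2) → 1 ≤ Λ → 1 ≤ Lm →
      Lm ^ 2 * Real.exp (Λ - κ ^ 2 / 2) ≤ Real.exp (-Λ) → 0 ≤ y1 → 0 ≤ y2 →
      (∀ u ∈ Set.Icc 0 Λ, ∫ t : ℝ, ∑ i ∈ s, ω i * ‖PG (P i) T u t‖ ^ 2 ≤ Y u) →
      (∀ u ∈ Set.Icc 0 Λ, Y u ≤ T * (y1 * (u + 1) + y2)) →
      IntervalIntegrable Y volume 0 Λ →
      (∑ i ∈ s, ω i * (2 * (NN (F i) T (2 * T) : ℝ) - (Ns (F i) T (2 * T) : ℝ)) ≤
        (∑ i ∈ s, ω i) * Lm ^ 2 * Rw γ 0 * T / (2 * Real.pi * Λ) +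
        (2 / (Real.sqrt Real.pi * Λ)) * (∫ u in (0 : ℝ)..Λ, Rw γ (u / Λ) * Y u) +
        C * ((∑ i ∈ s, ω i) * (Lm ^ 2 * κ / Λ + Lm * T / Λ + κ * Lm) +
          Real.sqrt (∑ i ∈ s, ω i) * Lm * T * (Real.sqrt y1 + Real.sqrt y2) / Λ)) ∧
      (∑ i ∈ s, ω i * (3 * (NN (F i) T (2 * T) : ℝ) - 2 * (Nd (F i) T (2 * T) : ℝ)) ≤
        (∑ i ∈ s, ω i) * Lm ^ 2 * Rw γ 0 * T / (2 * Real.pi * Λ) +
        (2 / (Real.sqrt Real.pi * Λ)) * (∫ u in (0 : ℝ)..Λ, Rw γ (u / Λ) * Y u) +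
        C * ((∑ i ∈ s, ω i) * (Lm ^ 2 * κ / Λ + Lm * T / Λ + κ * Lm) +
          Real.sqrt (∑ i ∈ s, ω i) * Lm * T * (Real.sqrt y1 + Real.sqrt y2) / Λ)) := by
  obtain ⟨K, hK, hcore⟩ := intZ γ h0 hπ C0 ρ hC0 hρ0 hρ1
  refine ⟨K + 60 * C0, by positivity, ?_⟩
  intro ι s ω ℓ F P T κ Λ Lm y1 y2 Y hs hκ hT hTκ hΛ hLm hLmΛ hy1 hy2 hY hYb hYi
  have hb := hcore s ω ℓ F P T κ Λ Lm y1 y2 Y hs hκ hT hTκ hΛ hLm hLmΛ hy1 hy2
    hY hYb hYi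
  have hT0 : 0 < T := by linarith
  have hΛ0 : 0 < Λ := by linarith
  have hκ0 : 0 < κ := by linarith
  have hW0 : 0 ≤ ∑ i ∈ s, ω i := Finset.sum_nonneg fun i hi => (hs i hi).1
  have hTe : T * Real.exp (-κ ^ 2 / 2) ≤ 1 := by
    calc T * Real.exp (-κ ^ 2 / 2) ≤ Real.exp (κ ^ 2 / 2) * Real.exp (-κ ^ 2 / 2) := by gcongr
      _ = 1 := by rw [← Real.exp_add]; simp; ring
  have hstep : ∀ f : ι → ℝ, (∀ i ∈ s, f i ≤ (2 / (Real.sqrt Real.pi * Λ)) *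
      (∫ u in (0 : ℝ)..Λ, Rw γ (u / Λ) *
          ∫ t : ℝ, ‖BB (F i) (T - 3 * κ) (2 * T + 3 * κ) T u t‖ ^ 2)
        + 30 * C0 * (κ + T * Real.exp (-κ ^ 2 / 2)) * Lm) →
      ∑ i ∈ s, ω i * f i ≤
      (∑ i ∈ s, ω i * ((2 / (Real.sqrt Real.pi * Λ)) * (∫ u in (0 : ℝ)..Λ, Rw γ (u / Λ) *
          ∫ t : ℝ, ‖BB (F i) (T - 3 * κ) (2 * T + 3 * κ) T u t‖ ^ 2))) +
      (∑ i ∈ s, ω i) * (60 * C0 * (κ * Lm)) := by
    intro f hf
    rw [Finset.sum_mul, ← Finset.sum_add_distrib]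
    apply Finset.sum_le_sum
    intro i hi
    rw [← mul_add]
    refine mul_le_mul_of_nonneg_left ((hf i hi).trans ?_) (hs i hi).1
    have he : 30 * C0 * (κ + T * Real.exp (-κ ^ 2 / 2)) * Lm ≤ 60 * C0 * (κ * Lm) := by
      calc 30 * C0 * (κ + T * Real.exp (-κ ^ 2 / 2)) * Lm ≤ 30 * C0 * (κ + κ) * Lm := by
            have : T * Real.exp (-κ ^ 2 / 2) ≤ κ := by linarith
            gcongr
        _ = _ := by ring
    linarith
  have hfinal : ∀ f : ι → ℝ, (∀ i ∈ s, f i ≤ (2 / (Real.sqrt Real.pi * Λ)) *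
      (∫ u in (0 : ℝ)..Λ, Rw γ (u / Λ) *
          ∫ t : ℝ, ‖BB (F i) (T - 3 * κ) (2 * T + 3 * κ) T u t‖ ^ 2)
        + 30 * C0 * (κ + T * Real.exp (-κ ^ 2 / 2)) * Lm) →
      ∑ i ∈ s, ω i * f i ≤ (∑ i ∈ s, ω i) * Lm ^ 2 * Rw γ 0 * T / (2 * Real.pi * Λ) +
        (2 / (Real.sqrt Real.pi * Λ)) * (∫ u in (0 : ℝ)..Λ, Rw γ (u / Λ) * Y u) +
        (K + 60 * C0) * ((∑ i ∈ s, ω i) * (Lm ^ 2 * κ / Λ + Lm * T / Λ + κ * Lm) +
          Real.sqrt (∑ i ∈ s, ω i) * Lm * T * (Real.sqrt y1 + Real.sqrt y2) / Λ) := by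
    intro f hf
    refine ((hstep f hf).trans (add_le_add_left hb _)).trans ?_
    set W := ∑ i ∈ s, ω i
    have p1 : 0 ≤ W * (κ * Lm) := by positivity
    have p2 : 0 ≤ W * (Lm ^ 2 * κ / Λ + Lm * T / Λ) := by positivity
    have p3 : 0 ≤ Real.sqrt W * Lm * T * (Real.sqrt y1 + Real.sqrt y2) / Λ := by positivity
    have q1 : 0 ≤ K * (W * (κ * Lm)) := by positivity
    have q2 : 0 ≤ C0 * (W * (Lm ^ 2 * κ / Λ + Lm * T / Λ)) := by positivity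
    have q3 : 0 ≤ C0 * (Real.sqrt W * Lm * T * (Real.sqrt y1 + Real.sqrt y2) / Λ) := by positivity
    have e : (K + 60 * C0) * (W * (Lm ^ 2 * κ / Λ + Lm * T / Λ + κ * Lm) +
        Real.sqrt W * Lm * T * (Real.sqrt y1 + Real.sqrt y2) / Λ) =
        K * (W * (Lm ^ 2 * κ / Λ + Lm * T / Λ) +
        Real.sqrt W * Lm * T * (Real.sqrt y1 + Real.sqrt y2) / Λ) + W * (60 * C0 * (κ * Lm)) +
        K * (W * (κ * Lm)) + 60 * (C0 * (W * (Lm ^ 2 * κ / Λ + Lm * T / Λ))) +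
        60 * (C0 * (Real.sqrt W * Lm * T * (Real.sqrt y1 + Real.sqrt y2) / Λ)) := by ring
    rw [e]
    linarith
  constructor
  · exact hfinal _ fun i hi =>
      (per_chiZ γ h0 hπ (hs i hi).2 hκ hT hC0.le (by linarith) Λ hΛ0).1
  · exact hfinal _ fun i hi =>
      (per_chiZ γ h0 hπ (hs i hi).2 hκ hT hC0.le (by linarith) Λ hΛ0).2

end Pool.Agent.V8H24.ZS
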