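import Pool.Agent.H385R2.PerChiD
import Pool.Agent.H385R2.CutD
import Pool.Agent.H385R2.NLowCore

/-!
# Systems of zeros with an explicit formula, and the basic inequality

The data about the zeros of a function `G` near a window `(H, 2H]` which the trace inequality needs.
The function may be a translate of an L-function (so that the window is a short one), a dilated
L-function, or a product of such functions.
-/

set_option autoImplicit false

open Complex Filter Topology Set MeasureTheory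
open scoped BigOperators ComplexConjugate
open H370 (zset mult NN Nd Ns)

namespace Pool.Agent.V8H24.ZS

open H385 (zz cc BB A1 Rw bt wt zz_re zz_im kapw_sq Rw_even phiw gram_w trace_w quad_form cc_conj
  cc_real cc_bound cc_near)
open H385.PerChi (zz_spec zz_refl zz_inj kk phiw_even phiw_zero Rw_cont aw aw_zz)

/-- The zeros of `G` with ordinates near `(H, 2H]`: `ℓ` is the logarithm of the conductor, `P` is the
prime side, `κ` the width of the edges, `L` an upper bound of the logarithms, `C` and `ρ` are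
constants. -/
structure ZSys (G : ℂ → ℂ) (H κ ℓ L C ρ : ℝ) (P : ℝ → ℝ → ℂ) : Prop where
  fin : (zset G (H - 3 * κ) (2 * H + 3 * κ)).Finite
  refl : ∀ s ∈ zset G (H - 3 * κ) (2 * H + 3 * κ), 1 - conj s ∈ zset G (H - 3 * κ) (2 * H + 3 * κ)
  mrefl : ∀ s ∈ zset G (H - 3 * κ) (2 * H + 3 * κ), mult G (1 - conj s) = mult G s
  pos : ∀ s ∈ zset G (H - 3 * κ) (2 * H + 3 * κ), 1 ≤ mult G s
  cnt : (NN G (H - 3 * κ) (2 * H + 3 * κ) : ℝ) ≤ C * (H * L)
  edge1 : (NN G (H - 3 * κ) (H + κ) : ℝ) ≤ C * (κ * L)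
  edge2 : (NN G (2 * H - κ) (2 * H + 3 * κ) : ℝ) ≤ C * (κ * L)
  form : ∀ u m : ℝ, 0 ≤ u → H - 3 / 2 * κ ≤ m → m ≤ 2 * H + 3 / 2 * κ →
    ‖A1 G (H - 3 * κ) (2 * H + 3 * κ) u m - (1 / (2 * Real.sqrt Real.pi) : ℝ) *
      ((ℓ : ℂ) * cexp (I * m * u) * Real.exp (-u ^ 2 / 4) - P u m)‖ ≤
      C * (Real.exp (-(ρ * u)) + L ^ 2 * Real.exp (u - κ ^ 2 / 2))
  Pc : ∀ u, Continuous (P u)
  Pb : ∀ u, ∃ B, ∀ m, ‖P u m‖ ≤ B
  P0 : ∀ m, ‖P 0 m‖ ≤ C
  hl0 : 0 ≤ ℓ
  hl : ℓ ≤ L

theorem trace_partZ (γ : ℝ) (h0 : 0 < γ) (hπ : γ < Real.pi) {F : ℂ → ℂ}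
    (T Λ V1 V2 : ℝ) (hΛ : 0 < Λ) (hT : 0 ≤ T) (hfin : (zset F V1 V2).Finite)
    (hrefl : ∀ s ∈ zset F V1 V2, 1 - conj s ∈ zset F V1 V2)
    (hmrefl : ∀ s ∈ zset F V1 V2, mult F (1 - conj s) = mult F s) :
    ∑ s ∈ hfin.toFinset, (4 * (mult F s : ℝ) * (cc T (zz s)).re - kk F s) ≤
      (2 / (Real.sqrt Real.pi * Λ)) * (∫ u in (0 : ℝ)..Λ, Rw γ (u / Λ) *
          ∫ t : ℝ, ‖BB F V1 V2 T u t‖ ^ 2) := by
  classical
  set Zf := hfin.toFinset with hZf
  have hmem : ∀ {s}, s ∈ Zf ↔ s ∈ zset F V1 V2 := by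
    intro s; rw [hZf, Set.Finite.mem_toFinset]
  set Z := Zf.image zz with hZdef
  have hinj : Set.InjOn zz (Zf : Set ℂ) := fun s _ s' _ h => zz_inj h
  have hZ : ∀ z ∈ Z, (starRingEnd ℂ) z ∈ Z := by
    intro z hz
    obtain ⟨s, hs, rfl⟩ := Finset.mem_image.mp hz
    rw [← zz_refl]
    exact Finset.mem_image_of_mem _ (hmem.2 (hrefl s (hmem.1 hs)))
  have hac : ∀ z ∈ Z, aw F T ((starRingEnd ℂ) z) = (starRingEnd ℂ) (aw F T z) := by
    intro z hz
    obtain ⟨s, hs, rfl⟩ := Finset.mem_image.mp hz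
    rw [← zz_refl, aw_zz, aw_zz, map_mul, Complex.conj_natCast, cc_conj, zz_refl,
      hmrefl s (hmem.1 hs)]
  obtain ⟨E, i1, i2, k, hk⟩ := gram_w γ h0 hπ Λ
  set S := Z.filter (fun z => z.im = 0 ∧ mult F (1 / 2 + I * z) = 1) with hS
  have hSZ : S ⊆ Z := Finset.filter_subset _ _
  have hSr : ∀ z ∈ S, z.im = 0 ∧ 0 ≤ (aw F T z).re ∧ (aw F T z).re ≤ 1 := by
    intro z hz
    obtain ⟨hz1, hz2, hz3⟩ := Finset.mem_filter.mp hz
    have hzr : z = ((z.re : ℝ) : ℂ) := by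
      apply Complex.ext
      · simp
      · simp [hz2]
    have h4 := cc_real T z.re hT
    rw [← hzr] at h4
    refine ⟨hz2, ?_⟩
    unfold aw
    rw [hz3, Nat.cast_one, one_mul]
    exact h4.2
  have hmain := trace_w (phiw γ Λ) k hk (phiw_even γ Λ) (phiw_zero γ h0 hπ Λ) Z hZ (aw F T) hac S
    hSZ hSr
  rw [quad_form γ Λ hΛ (kapw_sq γ h0 hπ) (Rw_cont γ h0 hπ) (Rw_even γ) Z hZ (aw F T) hac] at hmain
  have hBB : ∀ u t : ℝ, ∑ z ∈ Z, aw F T z * (cexp (I * u * z) * cexp (-(z - t) ^ 2 / 2)) =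
      BB F V1 V2 T u t := by
    intro u t
    unfold BB
    rw [finsum_mem_eq_finite_toFinset_sum _ hfin, hZdef, Finset.sum_image hinj]
    refine Finset.sum_congr rfl fun s _ => ?_
    rw [aw_zz]
  simp_rw [hBB] at hmain
  refine le_trans (le_of_eq ?_) hmain
  -- compute the left hand side
  have c1 : (∑ z ∈ Z, aw F T z).re = ∑ s ∈ Zf, (mult F s : ℝ) * (cc T (zz s)).re := by
    rw [hZdef, Finset.sum_image hinj, Complex.re_sum]
    refine Finset.sum_congr rfl fun s _ => ?_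
    rw [aw_zz, ← Complex.ofReal_natCast, Complex.re_ofReal_mul]
  have him0 : ∀ s, (zz s).im = 0 ↔ s.re = 1 / 2 := by
    intro s; rw [zz_im]; constructor <;> intro h <;> linarith
  have c2 : (S.card : ℝ) = ∑ s ∈ Zf, if (s.re = 1 / 2 ∧ mult F s = 1) then 1 else 0 := by
    rw [hS, Finset.card_filter, Nat.cast_sum, hZdef, Finset.sum_image hinj]
    refine Finset.sum_congr rfl fun s _ => ?_
    simp only [him0, zz_spec, Nat.cast_ite, Nat.cast_one, Nat.cast_zero]
  have c3 : (((Z \ S).filter (fun z => z.im = 0)).card : ℝ) =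
      ∑ s ∈ Zf, if (s.re = 1 / 2 ∧ mult F s ≠ 1) then 1 else 0 := by
    have : (Z \ S).filter (fun z => z.im = 0) =
        Z.filter (fun z => z.im = 0 ∧ mult F (1 / 2 + I * z) ≠ 1) := by
      ext z
      simp only [hS, Finset.mem_filter, Finset.mem_sdiff]
      tauto
    rw [this, Finset.card_filter, Nat.cast_sum, hZdef, Finset.sum_image hinj]
    refine Finset.sum_congr rfl fun s _ => ?_
    simp only [him0, zz_spec, Nat.cast_ite, Nat.cast_one, Nat.cast_zero]
  have c4 : 2 * ((Z.filter (fun z => 0 < z.im)).card : ℝ) =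
      ∑ s ∈ Zf, if s.re = 1 / 2 then 0 else 1 := by
    have e1 : (Z.filter (fun z => z.im < 0)).card = (Z.filter (fun z => 0 < z.im)).card := by
      refine Finset.card_nbij' (fun z => (starRingEnd ℂ) z) (fun z => (starRingEnd ℂ) z) ?_ ?_ ?_ ?_
      · intro z hz
        simp only [Finset.coe_filter, Set.mem_ofPred_eq] at hz ⊢
        refine ⟨hZ z hz.1, ?_⟩
        rw [Complex.conj_im]; linarith [hz.2]
      · intro z hz
        simp only [Finset.coe_filter, Set.mem_ofPred_eq] at hz ⊢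
        refine ⟨hZ z hz.1, ?_⟩
        rw [Complex.conj_im]; linarith [hz.2]
      · intro z _; simp
      · intro z _; simp
    have e2 : (Z.filter (fun z => ¬ z.im = 0)).card =
        (Z.filter (fun z => z.im < 0)).card + (Z.filter (fun z => 0 < z.im)).card := by
      rw [← Finset.card_union_of_disjoint]
      · congr 1
        ext z
        simp only [Finset.mem_filter, Finset.mem_union]
        constructor
        · rintro ⟨h1, h2⟩
          rcases lt_or_gt_of_ne h2 with h | h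
          · exact Or.inl ⟨h1, h⟩
          · exact Or.inr ⟨h1, h⟩
        · rintro (⟨h1, h2⟩ | ⟨h1, h2⟩)
          · exact ⟨h1, ne_of_lt h2⟩
          · exact ⟨h1, ne_of_gt h2⟩
      · rw [Finset.disjoint_filter]
        intro z _ h1 h2
        linarith
    have e3 : 2 * ((Z.filter (fun z => 0 < z.im)).card : ℝ) =
        ((Z.filter (fun z => ¬ z.im = 0)).card : ℝ) := by
      rw [e2, e1]; push_cast; ring
    rw [e3, Finset.card_filter, Nat.cast_sum, hZdef, Finset.sum_image hinj]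
    refine Finset.sum_congr rfl fun s _ => ?_
    simp only [him0, Nat.cast_ite, Nat.cast_one, Nat.cast_zero, ite_not]
  have c5 : ∑ s ∈ Zf, (4 * (mult F s : ℝ) * (cc T (zz s)).re - kk F s) =
      4 * (∑ s ∈ Zf, (mult F s : ℝ) * (cc T (zz s)).re) -
      3 * (∑ s ∈ Zf, if (s.re = 1 / 2 ∧ mult F s = 1) then (1 : ℝ) else 0) -
      (4 * (∑ s ∈ Zf, if (s.re = 1 / 2 ∧ mult F s ≠ 1) then (1 : ℝ) else 0) +
        2 * (∑ s ∈ Zf, if s.re = 1 / 2 then (0 : ℝ) else 1)) := by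
    rw [Finset.mul_sum, Finset.mul_sum, Finset.mul_sum, Finset.mul_sum, ← Finset.sum_sub_distrib,
      ← Finset.sum_add_distrib, ← Finset.sum_sub_distrib]
    refine Finset.sum_congr rfl fun s _ => ?_
    unfold kk
    by_cases h1 : s.re = 1 / 2
    · by_cases h2 : mult F s = 1
      · rw [if_pos h1, if_pos h2, if_pos ⟨h1, h2⟩, if_neg (fun h => h.2 h2), if_pos h1]; ring
      · rw [if_pos h1, if_neg h2, if_neg (fun h => h2 h.2), if_pos ⟨h1, h2⟩, if_pos h1]; ring
    · rw [if_neg h1, if_neg (fun h => h1 h.1), if_neg (fun h => h1 h.1), if_neg h1]; ring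
  rw [c5, c1, c2, c3, ← c4]
  ring

theorem coreZ (γ : ℝ) (h0 : 0 < γ) (hπ : γ < Real.pi) {F : ℂ → ℂ} {T κ ℓ L C0 ρ : ℝ}
    {P : ℝ → ℝ → ℂ} (hF : ZSys F T κ ℓ L C0 ρ P) (hκ : 3 ≤ κ) (hκT : 8 * κ ≤ T)
    (hC0 : 0 ≤ C0) (hL0 : 0 ≤ L)
    (w : ℂ → ℝ) (hw1 : ∀ s, 1 ≤ mult F s → w s ≤ 4 * (mult F s : ℝ) - kk F s)
    (hw2 : ∀ s, 1 ≤ mult F s → w s ≤ 3 * (mult F s : ℝ)) (Λ : ℝ) (hΛ : 0 < Λ)
    (hfin : (zset F T (2 * T)).Finite) : ∑ s ∈ hfin.toFinset, w s ≤
        (2 / (Real.sqrt Real.pi * Λ)) * (∫ u in (0 : ℝ)..Λ, Rw γ (u / Λ) *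
          ∫ t : ℝ, ‖BB F (T - 3 * κ) (2 * T + 3 * κ) T u t‖ ^ 2)
        + 30 * C0 * (κ + T * Real.exp (-κ ^ 2 / 2)) * L := by
  obtain ⟨V1, hV1⟩ : ∃ V1, V1 = T - 3 * κ := ⟨_, rfl⟩
  obtain ⟨V2, hV2⟩ : ∃ V2, V2 = 2 * T + 3 * κ := ⟨_, rfl⟩
  have hfinV := hF.fin
  have hrefl := hF.refl
  have hmrefl := hF.mrefl
  have hmpos := hF.pos
  have b1 := hF.cnt
  have b2 := hF.edge1
  have b3 := hF.edge2
  rw [← hV1, ← hV2] at hfinV hrefl hmrefl hmpos b1
  rw [← hV1] at b2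
  rw [← hV2] at b3
  rw [← hV1, ← hV2]
  have hT24 : 24 ≤ T := by linarith
  have htr := trace_partZ γ h0 hπ T Λ V1 V2 hΛ (by linarith) hfinV hrefl hmrefl
  set e := Real.exp (-κ ^ 2 / 2) with he
  have he0 : 0 < e := Real.exp_pos _
  -- sums over zeros
  have hmulti : ∀ s ∈ hfinV.toFinset, 1 ≤ mult F s := by
    intro s hs
    rw [Set.Finite.mem_toFinset] at hs
    exact hmpos s hs
  have n1 : (NN F V1 V2 : ℝ) = ∑ s ∈ hfinV.toFinset, (mult F s : ℝ) := by
    unfold NN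
    rw [finsum_mem_eq_finite_toFinset_sum _ hfinV]
    push_cast; rfl
  have n2 : (NN F V1 (T + κ) : ℝ) =
      ∑ s ∈ hfinV.toFinset, if s.im ≤ T + κ then (mult F s : ℝ) else 0 := by
    have hf : (zset F V1 (T + κ)).Finite := hfinV.subset fun s hs =>
      ⟨hs.1, hs.2.1, hs.2.2.1, by linarith [hs.2.2.2.1], hs.2.2.2.2⟩
    unfold NN
    rw [finsum_mem_eq_finite_toFinset_sum _ hf, ← Finset.sum_filter]
    push_cast
    refine Finset.sum_congr ?_ fun _ _ => rfl
    ext s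
    simp only [Finset.mem_filter, Set.Finite.mem_toFinset]
    constructor
    · rintro ⟨h1, h2, h3, h4, h5⟩
      exact ⟨⟨h1, h2, h3, by linarith, h5⟩, h4⟩
    · rintro ⟨⟨h1, h2, h3, h4, h5⟩, h6⟩
      exact ⟨h1, h2, h3, h6, h5⟩
  have n3 : (NN F (2 * T - κ) V2 : ℝ) =
      ∑ s ∈ hfinV.toFinset, if 2 * T - κ < s.im then (mult F s : ℝ) else 0 := by
    have hf : (zset F (2 * T - κ) V2).Finite := hfinV.subset fun s hs =>
      ⟨hs.1, hs.2.1, by linarith [hs.2.2.1], hs.2.2.2.1, hs.2.2.2.2⟩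
    unfold NN
    rw [finsum_mem_eq_finite_toFinset_sum _ hf, ← Finset.sum_filter]
    push_cast
    refine Finset.sum_congr ?_ fun _ _ => rfl
    ext s
    simp only [Finset.mem_filter, Set.Finite.mem_toFinset]
    constructor
    · rintro ⟨h1, h2, h3, h4, h5⟩
      exact ⟨⟨h1, h2, by linarith, h4, h5⟩, h3⟩
    · rintro ⟨⟨h1, h2, h3, h4, h5⟩, h6⟩
      exact ⟨h1, h2, h6, h4, h5⟩
  have n4 : ∑ s ∈ hfin.toFinset, w s =
      ∑ s ∈ hfinV.toFinset, if T < s.im ∧ s.im ≤ 2 * T then w s else 0 := by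
    rw [← Finset.sum_filter]
    refine Finset.sum_congr ?_ fun _ _ => rfl
    ext s
    simp only [Finset.mem_filter, Set.Finite.mem_toFinset]
    constructor
    · rintro ⟨h1, h2, h3, h4, h5⟩
      exact ⟨⟨h1, h2, by linarith, by linarith, h5⟩, h3, h4⟩
    · rintro ⟨⟨h1, h2, h3, h4, h5⟩, h6, h7⟩
      exact ⟨h1, h2, h6, h7, h5⟩
  have hpt : ∀ s ∈ hfinV.toFinset, (if T < s.im ∧ s.im ≤ 2 * T then w s else 0) ≤
      (4 * (mult F s : ℝ) * (cc T (zz s)).re - kk F s) + 8 * e * (mult F s : ℝ) +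
        15 * (if s.im ≤ T + κ then (mult F s : ℝ) else 0) +
        15 * (if 2 * T - κ < s.im then (mult F s : ℝ) else 0) := by
    intro s hs
    have hm := hmulti s hs
    have hm' : (1 : ℝ) ≤ (mult F s : ℝ) := by exact_mod_cast hm
    have h1 := hw1 s hm
    have h2 := hw2 s hm
    rw [Set.Finite.mem_toFinset] at hs
    have him : |(zz s).im| ≤ 1 / 2 := by
      rw [zz_im, abs_le]; constructor <;> linarith [hs.1, hs.2.1]
    have hk2 : kk F s ≤ 4 := by
      unfold kk; split_ifs <;> norm_num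
    have hcre : -2 ≤ (cc T (zz s)).re := by
      have h3 := cc_bound T (by linarith) (zz s) him
      have h4 := Complex.abs_re_le_norm (cc T (zz s))
      linarith [neg_abs_le (cc T (zz s)).re]
    have hedge : ∀ X : ℝ, X ≤ 3 * (mult F s : ℝ) → X ≤
        (4 * (mult F s : ℝ) * (cc T (zz s)).re - kk F s) + 8 * e * (mult F s : ℝ) +
        15 * (mult F s : ℝ) := by
      intro X hX
      have h5 : 4 * (mult F s : ℝ) * (-2) ≤ 4 * (mult F s : ℝ) * (cc T (zz s)).re :=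
        mul_le_mul_of_nonneg_left hcre (by positivity)
      have h6 : 0 ≤ 8 * e * (mult F s : ℝ) := by positivity
      linarith
    have hX3 : (if T < s.im ∧ s.im ≤ 2 * T then w s else 0) ≤ 3 * (mult F s : ℝ) := by
      split_ifs
      · exact h2
      · positivity
    by_cases c1 : s.im ≤ T + κ
    · rw [if_pos c1]
      have h7 : 0 ≤ 15 * (if 2 * T - κ < s.im then (mult F s : ℝ) else 0) := by
        split_ifs <;> positivity
      linarith [hedge _ hX3]
    · rw [if_neg c1]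
      by_cases c2 : 2 * T - κ < s.im
      · rw [if_pos c2]
        linarith [hedge _ hX3]
      · rw [if_neg c2, if_pos ⟨by push Not at c1; linarith, by push Not at c2; linarith⟩]
        push Not at c1 c2
        have h8 := cc_near T κ (by linarith) (zz s) him (by rw [zz_re]; linarith)
          (by rw [zz_re]; linarith)
        have h9 : 1 - 2 * e ≤ (cc T (zz s)).re := by
          have h10 := Complex.abs_re_le_norm (cc T (zz s) - 1)
          rw [Complex.sub_re, Complex.one_re] at h10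
          linarith [neg_abs_le ((cc T (zz s)).re - 1)]
        have h11 : 4 * (mult F s : ℝ) * (1 - 2 * e) ≤ 4 * (mult F s : ℝ) * (cc T (zz s)).re :=
          mul_le_mul_of_nonneg_left h9 (by positivity)
        linarith
  have hsum := Finset.sum_le_sum hpt
  rw [← n4] at hsum
  rw [Finset.sum_add_distrib, Finset.sum_add_distrib, Finset.sum_add_distrib, ← Finset.mul_sum,
    ← Finset.mul_sum, ← Finset.mul_sum, ← n1, ← n2, ← n3] at hsum
  calc ∑ s ∈ hfin.toFinset, w s ≤ _ := hsum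
    _ ≤ (2 / (Real.sqrt Real.pi * Λ)) * (∫ u in (0 : ℝ)..Λ, Rw γ (u / Λ) *
          ∫ t : ℝ, ‖BB F V1 V2 T u t‖ ^ 2) + 8 * e * (C0 * (T * L)) +
          15 * (C0 * (κ * L)) + 15 * (C0 * (κ * L)) := by
        gcongr
    _ ≤ _ := by
        have : 0 ≤ C0 * (T * e) * L := by positivity
        nlinarith

theorem per_chiZ (γ : ℝ) (h0 : 0 < γ) (hπ : γ < Real.pi) {F : ℂ → ℂ} {T κ ℓ L C0 ρ : ℝ}
    {P : ℝ → ℝ → ℂ} (hF : ZSys F T κ ℓ L C0 ρ P) (hκ : 3 ≤ κ) (hκT : 8 * κ ≤ T)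
    (hC0 : 0 ≤ C0) (hL0 : 0 ≤ L) (Λ : ℝ) (hΛ : 0 < Λ) :
    (2 * (NN F T (2 * T) : ℝ) - (Ns F T (2 * T) : ℝ) ≤
        (2 / (Real.sqrt Real.pi * Λ)) * (∫ u in (0 : ℝ)..Λ, Rw γ (u / Λ) *
          ∫ t : ℝ, ‖BB F (T - 3 * κ) (2 * T + 3 * κ) T u t‖ ^ 2)
        + 30 * C0 * (κ + T * Real.exp (-κ ^ 2 / 2)) * L) ∧
    (3 * (NN F T (2 * T) : ℝ) - 2 * (Nd F T (2 * T) : ℝ) ≤
        (2 / (Real.sqrt Real.pi * Λ)) * (∫ u in (0 : ℝ)..Λ, Rw γ (u / Λ) *
          ∫ t : ℝ, ‖BB F (T - 3 * κ) (2 * T + 3 * κ) T u t‖ ^ 2)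
        + 30 * C0 * (κ + T * Real.exp (-κ ^ 2 / 2)) * L) := by
  classical
  have hfin : (zset F T (2 * T)).Finite := hF.fin.subset fun s hs =>
    ⟨hs.1, hs.2.1, by linarith [hs.2.2.1], by linarith [hs.2.2.2.1], hs.2.2.2.2⟩
  constructor
  · have h1 := coreZ γ h0 hπ hF hκ hκT hC0 hL0
      (fun s => 2 * (mult F s : ℝ) - if (s.re = 1 / 2 ∧ mult F s = 1) then 1 else 0) ?_ ?_
      Λ hΛ hfin
    · refine le_trans (le_of_eq ?_) h1
      rw [Finset.sum_sub_distrib, ← Finset.mul_sum]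
      congr 1
      · congr 1
        unfold NN
        rw [finsum_mem_eq_finite_toFinset_sum _ hfin]
        push_cast; rfl
      · unfold Ns
        have : {s : ℂ | s ∈ zset F T (2 * T) ∧ s.re = 1 / 2 ∧ mult F s = 1} =
            ((hfin.toFinset.filter (fun s => s.re = 1 / 2 ∧ mult F s = 1) : Finset ℂ) : Set ℂ) := by
          ext s
          simp
        rw [this, Set.ncard_coe_finset, Finset.card_filter]
        push_cast; rfl
    · intro s hs
      have hs' : (1 : ℝ) ≤ (mult F s : ℝ) := by exact_mod_cast hs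
      unfold kk
      by_cases h2 : s.re = 1 / 2
      · by_cases h3 : mult F s = 1
        · simp only [if_pos h2, if_pos h3, if_pos (And.intro h2 h3)]; linarith
        · have h4 : 2 ≤ mult F s := by omega
          have h5 : (2 : ℝ) ≤ (mult F s : ℝ) := by exact_mod_cast h4
          have h6 : ¬ (s.re = 1 / 2 ∧ mult F s = 1) := fun h => h3 h.2
          simp only [if_pos h2, if_neg h3, if_neg h6]; linarith
      · have h6 : ¬ (s.re = 1 / 2 ∧ mult F s = 1) := fun h => h2 h.1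
        simp only [if_neg h2, if_neg h6]; linarith
    · intro s hs
      have hs' : (1 : ℝ) ≤ (mult F s : ℝ) := by exact_mod_cast hs
      by_cases h6 : (s.re = 1 / 2 ∧ mult F s = 1)
      · simp only [if_pos h6]; linarith
      · simp only [if_neg h6]; linarith
  · have h1 := coreZ γ h0 hπ hF hκ hκT hC0 hL0
      (fun s => 3 * (mult F s : ℝ) - 2) ?_ ?_ Λ hΛ hfin
    · refine le_trans (le_of_eq ?_) h1
      rw [Finset.sum_sub_distrib, ← Finset.mul_sum]
      congr 1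
      · congr 1
        unfold NN
        rw [finsum_mem_eq_finite_toFinset_sum _ hfin]
        push_cast; rfl
      · unfold Nd
        rw [Set.ncard_eq_toFinset_card _ hfin, Finset.sum_const, nsmul_eq_mul]
        ring
    · intro s hs
      have hs' : (1 : ℝ) ≤ (mult F s : ℝ) := by exact_mod_cast hs
      unfold kk
      by_cases h2 : s.re = 1 / 2
      · by_cases h3 : mult F s = 1
        · have h7 : (mult F s : ℝ) = 1 := by rw [h3]; norm_num
          simp only [if_pos h2, if_pos h3]; linarith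
        · have h4 : 2 ≤ mult F s := by omega
          have h5 : (2 : ℝ) ≤ (mult F s : ℝ) := by exact_mod_cast h4
          simp only [if_pos h2, if_neg h3]; linarith
      · simp only [if_neg h2]; linarith
    · intro s hs
      linarith

end Pool.Agent.V8H24.ZS
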