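import Pool.Agent.V8H24.ZS.Core
import Pool.Agent.V8H24.ZS.Comp
import Pool.Agent.N880.HE.Core
import Pool.Agent.N880.HE.Fin

/-! # Short intervals at polynomial heights -/

set_option autoImplicit false

open Complex Filter Topology MeasureTheory Set

namespace Pool.Agent.V8H24.ZS

open H385 (primFamM Rw WM IX primSetM primFamM_eq mem_primSetM)
open H370 (NN Nd Ns)
open W388 (TwE GoodE SelE SWu)
open Pool.Agent.N880.HE (Y_intE swu1_le swu1_nonneg)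
open Pool.Agent.V8H24.LI (tw tw_norm)

lemma mainW_E (c : ℕ → ℂ) (hS : SelE c) {D0 : ℝ} (hD0 : 1 ≤ D0)
    (hcD : ∀ n, IsPrimePow n → ‖c n‖ ≤ D0) (γ : ℝ) (h0 : 0 < γ) (hπ : γ < Real.pi) :
    ∃ D1 : ℝ, 0 < D1 ∧ MainW (SWu c 1) 1 γ D1 := by
  obtain ⟨Ci, hCi, hinner⟩ := Pool.Agent.N7.MainC.inner_le 1 le_rfl
  refine ⟨D0 ^ 2 * Ci, by positivity, ?_, swu1_nonneg c, ?_, ?_⟩
  · exact (Pool.Agent.W261.TW.t_smooth c hS).2.2.2.1 1 one_pos
  · intro u hu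
    refine (swu1_le c hD0 hcD u).trans ?_
    rw [mul_assoc]
    exact mul_le_mul_of_nonneg_left (hinner u hu) (by positivity)
  · intro s hs
    obtain ⟨L0, hL0, h⟩ := Y_intE c hS γ h0 hπ hs
    refine ⟨L0, hL0, fun Λ A B T a1 a2 a3 a4 => ?_⟩
    rw [one_mul]
    exact h Λ A B T a1 a2 a3 a4

set_option maxHeartbeats 4000000 in
theorem short_core (d A : ℝ) (hd : 1 ≤ d) (hA : 1 ≤ A) (M : ℕ) (hM : Squarefree M)
    (c : ℕ → ℂ) (D0 : ℝ) (hD0 : 1 ≤ D0) (hcD : ∀ n, IsPrimePow n → ‖c n‖ ≤ D0)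
    (F : (q : ℕ) → DirichletCharacter ℂ q → ℂ → ℂ) (hF : TwE d A M c F) (hS : SelE c)
    (τ γ κ0 h : ℝ) (hτ : 0 ≤ τ) (h0 : 0 < γ) (hπ : γ < Real.pi) (hh : 0 < h)
    (hκ0 : Rw γ 0 / h + 2 * h * (∫ α in (0 : ℝ)..1, α * Rw γ α) < κ0) :
    ∃ K η X0 : ℝ, 1 ≤ K ∧ 0 < η ∧ 1 ≤ X0 ∧
    ∀ (X Y : ℕ) (T H : ℝ), X0 ≤ X → K * X ≤ Y → (Y : ℝ) ≤ (X : ℝ) ^ (1 + η) →
      (d * (1 + τ) * Real.log X) ^ 2 ≤ H → H ≤ T → T ≤ (X : ℝ) ^ τ →
      h * (d * Real.log (X * T)) ≤ 2 * Real.log X + Real.log H →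
      primFamM M X Y (fun q χ => 2 * (NN (F q χ) T (T + H) : ℝ) - (Ns (F q χ) T (T + H) : ℝ)) ≤
        κ0 * primFamM M X Y (fun q χ => (NN (F q χ) T (T + H) : ℝ)) ∧
      primFamM M X Y (fun q χ => 3 * (NN (F q χ) T (T + H) : ℝ) -
          2 * (Nd (F q χ) T (T + H) : ℝ)) ≤
        κ0 * primFamM M X Y (fun q χ => (NN (F q χ) T (T + H) : ℝ)) := by
  have hd0 : 0 < d := by linarith
  obtain ⟨C0, hC0, hcomp⟩ := zsys_comp d A 1 hd hA le_rfl
  obtain ⟨D1, hD1, hW⟩ := mainW_E c hS hD0 hcD γ h0 hπ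
  obtain ⟨s, η, hs, hs1, hη, hη1, hcore⟩ := coreZS C0 1 hC0 one_pos le_rfl (SWu c 1) 1 γ κ0 D1 h
    hD1 zero_le_one h0 hπ hh hW (by rw [one_mul]; exact hκ0)
  obtain ⟨K, CM, X1, hK, hCM, hX1, hms⟩ := ms_uniform M hM D0 1 hD0 le_rfl s hs hs1
  obtain ⟨L0, hL0, hcore'⟩ := hcore CM hCM
  refine ⟨K, η, max X1 (Real.exp (max L0 8)), hK, hη, by
    refine le_trans ?_ (le_max_left _ _); linarith, ?_⟩
  intro X Y T H hX hKX hYX hH hHT hTX hlen
  have hX1' : X1 ≤ X := (le_max_left _ _).trans hX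
  have hX3 : (3 : ℝ) ≤ X := hX1.trans hX1'
  have hXpos : (0 : ℝ) < X := by linarith
  have hlX : max L0 8 ≤ Real.log X := by
    rw [Real.le_log_iff_exp_le hXpos]
    exact (le_max_right _ _).trans hX
  have hlX8 : 8 ≤ Real.log X := (le_max_right _ _).trans hlX
  have hlXL : L0 ≤ Real.log X := (le_max_left _ _).trans hlX
  have hd1 : Real.log X ≤ d * (1 + τ) * Real.log X := by
    refine le_mul_of_one_le_left (by linarith) ?_
    have : 1 ≤ 1 + τ := by linarith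
    exact one_le_mul_of_one_le_of_one_le hd this
  have hH64 : 64 ≤ H := by
    have h1 : (8 : ℝ) ^ 2 ≤ (d * (1 + τ) * Real.log X) ^ 2 :=
      pow_le_pow_left₀ (by norm_num) (by linarith) 2
    linarith
  have hHpos : 0 < H := by linarith
  have hTpos : 0 < T := by linarith
  have hT1 : 1 ≤ T := by linarith
  have hlT : Real.log T ≤ τ * Real.log X := by
    have := Real.log_le_log hTpos hTX
    rwa [Real.log_rpow hXpos] at this
  have hlT0 : 0 ≤ Real.log T := Real.log_nonneg hT1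
  have hlHT : Real.log H ≤ Real.log T := Real.log_le_log hHpos hHT
  have hlH0 : 0 ≤ Real.log H := Real.log_nonneg (by linarith)
  have hlXT : Real.log (X * T) = Real.log X + Real.log T :=
    Real.log_mul hXpos.ne' hTpos.ne'
  have hlXH : Real.log (X * H) = Real.log X + Real.log H :=
    Real.log_mul hXpos.ne' hHpos.ne'
  obtain ⟨L, hLdef⟩ : ∃ L, L = d * Real.log (X * T) := ⟨_, rfl⟩
  have hLlog : Real.log (X * T) ≤ L := by
    rw [hLdef]; exact le_mul_of_one_le_left (by rw [hlXT]; linarith) hd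
  have hL8 : 8 ≤ L := by rw [hlXT] at hLlog; linarith
  have hLL0 : L0 ≤ L := by rw [hlXT] at hLlog; linarith
  have hLb : L ≤ d * (1 + τ) * Real.log X := by
    rw [hLdef, hlXT, mul_assoc]
    exact mul_le_mul_of_nonneg_left (by linarith) hd0.le
  have hLH : L ^ 2 ≤ H := (pow_le_pow_left₀ (by linarith) hLb 2).trans hH
  have hLT : Real.log T ≤ L := by rw [hlXT] at hLlog; linarith
  have hTexp : T ≤ Real.exp L := by rw [← Real.log_le_iff_le_exp hTpos]; exact hLT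
  -- the component
  obtain ⟨α, hα⟩ : ∃ α, α = T - H := ⟨_, rfl⟩
  have hα0 : 0 ≤ α := by rw [hα]; linarith
  have eT : 1 * (H + α) = T := by rw [hα]; ring
  have eT2 : 1 * (2 * H + α) = T + H := by rw [hα]; ring
  obtain ⟨ℓf, hℓf⟩ : ∃ ℓf : IX → ℝ, ℓf = fun p => 1 * (d * Real.log ((p.1 : ℝ) * T)) := ⟨_, rfl⟩
  obtain ⟨Ff, hFf⟩ : ∃ Ff : IX → ℂ → ℂ, Ff = fun p => dil 1 α (F p.1 p.2) := ⟨_, rfl⟩
  obtain ⟨Pf, hPf⟩ : ∃ Pf : IX → ℝ → ℝ → ℂ, Pf = fun p => PQ 1 (fun n =>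
    (p.2 (n : ZMod p.1) * c n * (ArithmeticFunction.vonMangoldt n : ℂ)) * tw (1 * α) n) := ⟨_, rfl⟩
  have hsys : ∀ p ∈ primSetM M X Y, 0 ≤ 1 / (p.1 : ℝ) ^ 2 ∧ L ≤ ℓf p ∧
      ZSys (Ff p) H L (ℓf p) ((1 + 2 * η) * L) C0 1 (Pf p) := by
    intro p hp
    obtain ⟨b1, b2, b3, b4⟩ := (mem_primSetM M X Y p).mp hp
    have hqX : (X : ℝ) ≤ p.1 := by exact_mod_cast b1.le
    have hqY : (p.1 : ℝ) ≤ Y := by exact_mod_cast b2
    have hq0 : (0 : ℝ) < p.1 := by linarith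
    have hq2 : 2 ≤ p.1 := by
      have : (2 : ℝ) ≤ p.1 := by linarith
      exact_mod_cast this
    have hle : L ≤ ℓf p := by
      rw [hℓf, hLdef]
      show d * Real.log (X * T) ≤ 1 * (d * Real.log ((p.1 : ℝ) * T))
      rw [one_mul]
      exact mul_le_mul_of_nonneg_left (Real.log_le_log (by positivity)
        (mul_le_mul_of_nonneg_right hqX hTpos.le)) hd0.le
    have hup : 1 * (d * Real.log ((p.1 : ℝ) * (1 * (H + α)))) ≤ (1 + 2 * η) * L := by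
      rw [eT, one_mul]
      have h1 : Real.log ((p.1 : ℝ) * T) ≤ (1 + η) * Real.log X + Real.log T := by
        rw [Real.log_mul hq0.ne' hTpos.ne']
        have : Real.log (p.1 : ℝ) ≤ Real.log ((X : ℝ) ^ (1 + η)) :=
          Real.log_le_log hq0 (hqY.trans hYX)
        rw [Real.log_rpow hXpos] at this
        linarith
      have h2 : (1 + η) * Real.log X + Real.log T ≤ (1 + 2 * η) * Real.log (X * T) := by
        rw [hlXT]
        have e1 : 0 ≤ η * Real.log X := by positivity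
        have e2 : 0 ≤ η * Real.log T := by positivity
        linarith
      calc d * Real.log ((p.1 : ℝ) * T) ≤ d * ((1 + 2 * η) * Real.log (X * T)) :=
            mul_le_mul_of_nonneg_left (h1.trans h2) hd0.le
        _ = (1 + 2 * η) * L := by rw [hLdef]; ring
    refine ⟨by positivity, hle, ?_⟩
    have hz := hcomp (p.1 : ℝ) (F p.1 p.2) _ (by linarith) (hF p.1 p.2 hq2 b3 b4) α H L
      ((1 + 2 * η) * L) hα0 (by linarith) (by nlinarith) (by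
        rw [eT]
        refine hTexp.trans (Real.exp_le_exp.mpr ?_)
        nlinarith) hup
    rw [eT, div_one] at hz
    rw [hFf, hPf, hℓf]
    exact hz
  have hms' : ∀ u : ℝ, 0 ≤ u → u ≤ (1 - s) * h * L →
      ∫ t : ℝ, ∑ p ∈ primSetM M X Y, (1 / (p.1 : ℝ) ^ 2) * ‖PG (Pf p) H u t‖ ^ 2 ≤
        (1 + s) * (∑ p ∈ primSetM M X Y, (1 / (p.1 : ℝ) ^ 2)) * (H / (2 * Real.pi)) * SWu c 1 u +
          CM * (∑ p ∈ primSetM M X Y, (1 / (p.1 : ℝ) ^ 2)) * H := by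
    intro u hu hu2
    have hWe : ∑ p ∈ primSetM M X Y, (1 / (p.1 : ℝ) ^ 2) = WM M X Y := by
      unfold H385.WM
      rw [primFamM_eq]
      exact Finset.sum_congr rfl fun p _ => by rw [mul_one]
    have h1 := hms X Y H u (fun n => c n * tw (1 * α) n) (by
      intro n hn
      rw [norm_mul, tw_norm, mul_one]; exact hcD n hn) hX1' hKX (by linarith) (by
        have : Real.log (X * H) ≤ L := by rw [hlXH]; linarith
        have h0' : 0 ≤ Real.log (X * H) := by rw [hlXH]; linarith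
        exact (pow_le_pow_left₀ h0' this 2).trans hLH) hu (by
        have e1 : (1 - s) * h * L ≤ (1 - s) * (2 * Real.log X + Real.log H) := by
          rw [mul_assoc, hLdef]
          exact mul_le_mul_of_nonneg_left hlen (by linarith)
        have e2 : s * Real.log (X * H) ≤ s * (2 * Real.log X + Real.log H) := by
          refine mul_le_mul_of_nonneg_left ?_ hs.le
          rw [hlXH]; linarith
        linarith)
    have hSQ : SQ 1 (fun n => c n * tw (1 * α) n) u = SWu c 1 u := by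
      rw [← SQ_one]
      unfold SQ
      simp only [norm_mul, tw_norm, mul_one]
    rw [hSQ] at h1
    rw [hWe]
    refine le_trans (le_of_eq ?_) h1
    refine integral_congr_ae (Eventually.of_forall fun t => ?_)
    simp only
    rw [primFamM_eq]
    refine Finset.sum_congr rfl fun p hp => ?_
    obtain ⟨b1, b2, b3, b4⟩ := (mem_primSetM M X Y p).mp hp
    have hq2 : 2 ≤ p.1 := by
      have hqX : (X : ℝ) ≤ p.1 := by exact_mod_cast b1.le
      have : (2 : ℝ) ≤ p.1 := by linarith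
      exact_mod_cast this
    have hco := CoefE_tw (hF p.1 p.2 hq2 b3 b4).coef (1 * α)
    rw [hPf]
    simp only
    rw [PG_PQ le_rfl hco]
    have ef : (fun n : ℕ => (p.2 (n : ZMod p.1) * c n * (ArithmeticFunction.vonMangoldt n : ℂ)) *
        tw (1 * α) n) = (fun n : ℕ => p.2 (n : ZMod p.1) * (c n * tw (1 * α) n) *
          (ArithmeticFunction.vonMangoldt n : ℂ)) := by
      funext n; ring
    rw [ef]
  obtain ⟨-, r2, r3⟩ := hcore' (primSetM M X Y) (fun p => 1 / (p.1 : ℝ) ^ 2) ℓf Ff Pf H L hLL0 hLH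
    (hHT.trans hTexp) hsys hms'
  have hV : 1 ≤ 1 * (H + α) := by rw [eT]; exact hT1
  have hcv : ∀ p ∈ primSetM M X Y, NN (Ff p) H (2 * H) = NN (F p.1 p.2) T (T + H) ∧
      Nd (Ff p) H (2 * H) = Nd (F p.1 p.2) T (T + H) ∧
      Ns (Ff p) H (2 * H) = Ns (F p.1 p.2) T (T + H) := by
    intro p hp
    obtain ⟨b1, b2, b3, b4⟩ := (mem_primSetM M X Y p).mp hp
    have hq2 : 2 ≤ p.1 := by
      have hqX : (X : ℝ) ≤ p.1 := by exact_mod_cast b1.le
      have : (2 : ℝ) ≤ p.1 := by linarith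
      exact_mod_cast this
    have hNZ := nzE (hF p.1 p.2 hq2 b3 b4)
    rw [hFf]
    have n1 := NN_dil le_rfl α hNZ hV (V2 := 2 * H)
    have n2 := Nd_dil le_rfl α hNZ hV (V2 := 2 * H)
    have n3 := Ns_dil le_rfl α hNZ hV (V2 := 2 * H)
    rw [eT, eT2] at n1 n2 n3
    exact ⟨n1, n2, n3⟩
  rw [primFamM_eq, primFamM_eq, primFamM_eq]
  have t1 : ∑ p ∈ primSetM M X Y, (1 / (p.1 : ℝ) ^ 2) * (NN (Ff p) H (2 * H) : ℝ) =
      ∑ p ∈ primSetM M X Y, (1 / (p.1 : ℝ) ^ 2) * (NN (F p.1 p.2) T (T + H) : ℝ) :=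
    Finset.sum_congr rfl fun p hp => by rw [(hcv p hp).1]
  have t2 : ∑ p ∈ primSetM M X Y, (1 / (p.1 : ℝ) ^ 2) * (2 * (NN (Ff p) H (2 * H) : ℝ) -
      (Ns (Ff p) H (2 * H) : ℝ)) =
      ∑ p ∈ primSetM M X Y, (1 / (p.1 : ℝ) ^ 2) * (2 * (NN (F p.1 p.2) T (T + H) : ℝ) -
        (Ns (F p.1 p.2) T (T + H) : ℝ)) :=
    Finset.sum_congr rfl fun p hp => by rw [(hcv p hp).1, (hcv p hp).2.2]
  have t3 : ∑ p ∈ primSetM M X Y, (1 / (p.1 : ℝ) ^ 2) * (3 * (NN (Ff p) H (2 * H) : ℝ) -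
      2 * (Nd (Ff p) H (2 * H) : ℝ)) =
      ∑ p ∈ primSetM M X Y, (1 / (p.1 : ℝ) ^ 2) * (3 * (NN (F p.1 p.2) T (T + H) : ℝ) -
        2 * (Nd (F p.1 p.2) T (T + H) : ℝ)) :=
    Finset.sum_congr rfl fun p hp => by rw [(hcv p hp).1, (hcv p hp).2.1]
  rw [t1, t2] at r2
  rw [t1, t3] at r3
  exact ⟨r2, r3⟩

theorem short_fin2 (A : ℝ) (hA : 1 ≤ A) (M : ℕ) (hM : Squarefree M)
    (c : ℕ → ℂ) (hc : ∀ n, IsPrimePow n → ‖c n‖ ≤ 2)
    (F : (q : ℕ) → DirichletCharacter ℂ q → ℂ → ℂ) (hF : TwE 2 A M c F) (hS : SelE c)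
    (h τ ε : ℝ) (hh0 : 0 < h) (hh1 : h ≤ 1) (hτ : 0 ≤ τ) (hε : 0 < ε) :
    ∃ K η X0 : ℝ, 1 ≤ K ∧ 0 < η ∧ 1 ≤ X0 ∧
    ∀ (X Y : ℕ) (T H : ℝ), X0 ≤ X → K * X ≤ Y → (Y : ℝ) ≤ (X : ℝ) ^ (1 + η) →
      4 * (1 + τ) ^ 2 * (Real.log X) ^ 2 ≤ H → H ≤ T → T ≤ (X : ℝ) ^ τ →
      ((X : ℝ) * T) ^ (2 * h) ≤ (X : ℝ) ^ 2 * H →
      (2 - Pool.Agent.N880.HD.cH h - ε) *
          primFamM M X Y (fun q χ => (NN (F q χ) T (T + H) : ℝ)) ≤
        primFamM M X Y (fun q χ => (Ns (F q χ) T (T + H) : ℝ)) ∧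
      (3 - Pool.Agent.N880.HD.cH h - ε) / 2 *
          primFamM M X Y (fun q χ => (NN (F q χ) T (T + H) : ℝ)) ≤
        primFamM M X Y (fun q χ => (Nd (F q χ) T (T + H) : ℝ)) := by
  obtain ⟨g1, g2, g3⟩ := Pool.Agent.N880.HD.const_main h hh0 (by linarith)
  obtain ⟨K, η, X0, hK, hη, hX0, H0⟩ := short_core 2 A (by norm_num) hA M hM c 2 (by norm_num)
    hc F hF hS τ (Real.sqrt 2 * h) (Pool.Agent.N880.HD.cH h + ε) h hτ g1 g2 hh0 (by
      have : Rw (Real.sqrt 2 * h) 0 / h + 2 * h *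
          (∫ α in (0 : ℝ)..1, α * Rw (Real.sqrt 2 * h) α) = Pool.Agent.N880.HD.cH h := by
        unfold Pool.Agent.N880.HD.cH
        rw [← g3]
        ring
      rw [this]
      linarith)
  refine ⟨K, η, max X0 3, hK, hη, hX0.trans (le_max_left _ _), ?_⟩
  intro X Y T H a1 a2 a3 a4 a5 a6 a7
  have hX3 : (3 : ℝ) ≤ X := (le_max_right _ _).trans a1
  have hXpos : (0 : ℝ) < X := by linarith
  have hlX : 0 < Real.log X := Real.log_pos (by linarith)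
  have hHpos : 0 < H := by
    have : 0 < 4 * (1 + τ) ^ 2 * (Real.log X) ^ 2 := by positivity
    linarith
  have hTpos : 0 < T := by linarith
  have hlen : h * (2 * Real.log (X * T)) ≤ 2 * Real.log X + Real.log H := by
    have h1 := Real.log_le_log (by positivity) a7
    rw [Real.log_rpow (by positivity), Real.log_mul (by positivity) hHpos.ne',
      Real.log_pow] at h1
    push_cast at h1
    linarith
  obtain ⟨k1, k2⟩ := H0 X Y T H ((le_max_left _ _).trans a1) a2 a3 (by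
    refine le_trans (le_of_eq ?_) a4
    ring) a5 a6 hlen
  have e1 := H385.primFamM_lin M X Y 2 1 (fun q χ => (NN (F q χ) T (T + H) : ℝ))
    (fun q χ => (Ns (F q χ) T (T + H) : ℝ))
  have e2 := H385.primFamM_lin M X Y 3 2 (fun q χ => (NN (F q χ) T (T + H) : ℝ))
    (fun q χ => (Nd (F q χ) T (T + H) : ℝ))
  simp only [one_mul] at e1
  rw [e1] at k1
  rw [e2] at k2
  constructor
  · linarith
  · linarith

open UpperHalfPlane MatrixGroups CongruenceSubgroup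
open W388 (lamf IsNewf cS rad rad_squarefree coprime_rad primFamM_rad newf_twists)

/-- twists of a newform, short intervals -/
theorem short_newf {N : ℕ} [NeZero N] {k : ℤ} (hk : 1 ≤ k)
    {f : CuspForm (Gamma0 N : Subgroup (GL (Fin 2) ℝ)) k} {w : ℝ} (hf : IsNewf N k f w)
    (hgood : ∀ p : ℕ, p.Prime → ¬ p ∣ N → |lamf f p| ≤ 2)
    (hbad : ∀ p : ℕ, p.Prime → p ∣ N → |lamf f p| ≤ 1) :
    ∃ F : (q : ℕ) → DirichletCharacter ℂ q → ℂ → ℂ,
      (∀ (q : ℕ) (χ : DirichletCharacter ℂ q), 1 ≤ q → Nat.Coprime q N → χ.IsPrimitive →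
        Differentiable ℂ (F q χ) ∧ ∀ s : ℂ, 1 < s.re →
          HasProd (fun p : Nat.Primes =>
            (1 - χ ((p : ℕ) : ZMod q) * (lamf f p : ℂ) * ((p : ℕ) : ℂ) ^ (-s) +
              (if (p : ℕ) ∣ N then 0 else
                χ ((p : ℕ) : ZMod q) ^ 2 * ((p : ℕ) : ℂ) ^ (-2 * s)))⁻¹) (F q χ s)) ∧
      ∀ h τ ε : ℝ, 0 < h → h ≤ 1 → 0 ≤ τ → 0 < ε → ∃ K η X0 : ℝ, 1 ≤ K ∧ 0 < η ∧ 1 ≤ X0 ∧
      ∀ (X Y : ℕ) (T H : ℝ), X0 ≤ X → K * X ≤ Y → (Y : ℝ) ≤ (X : ℝ) ^ (1 + η) →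
        4 * (1 + τ) ^ 2 * (Real.log X) ^ 2 ≤ H → H ≤ T → T ≤ (X : ℝ) ^ τ →
        ((X : ℝ) * T) ^ (2 * h) ≤ (X : ℝ) ^ 2 * H →
        (2 - Pool.Agent.N880.HD.cH h - ε) *
            primFamM N X Y (fun q χ => (NN (F q χ) T (T + H) : ℝ)) ≤
          primFamM N X Y (fun q χ => (Ns (F q χ) T (T + H) : ℝ)) ∧
        (3 - Pool.Agent.N880.HD.cH h - ε) / 2 *
            primFamM N X Y (fun q χ => (NN (F q χ) T (T + H) : ℝ)) ≤
          primFamM N X Y (fun q χ => (Nd (F q χ) T (T + H) : ℝ)) := by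
  obtain ⟨A, F, hA, h1, h2, h3⟩ := newf_twists Pool.Agent.W440.TW.t_twist
    Pool.Agent.W108.TW.t_mellin Pool.Agent.W820.TW.t_fe W388.p_dir W388.p_nzr W388.p_rs
    W388.p_sel hk hf
  have hN : N ≠ 0 := NeZero.ne N
  have h1' : TwE 2 A (rad N) (fun n => (cS N (lamf f) n : ℂ)) F := by
    intro q χ hq hqN hχ
    exact h1 q χ hq ((coprime_rad hN q).mp hqN) hχ
  have hc : ∀ n, IsPrimePow n → ‖((cS N (lamf f) n : ℝ) : ℂ)‖ ≤ 2 := by
    intro n hn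
    rw [Complex.norm_real, Real.norm_eq_abs]
    exact Pool.Agent.N880.HE.ram_main N (Nat.pos_of_ne_zero hN) (lamf f)
      (W388.heckeSeq_lamf hf) hgood hbad n hn
  refine ⟨F, h3, ?_⟩
  intro h τ ε hh0 hh1 hτ hε
  obtain ⟨K, η, X0, hK, hη, hX0, H0⟩ := short_fin2 A hA (rad N) (rad_squarefree N) _ hc F h1' h2
    h τ ε hh0 hh1 hτ hε
  refine ⟨K, η, X0, hK, hη, hX0, fun X Y T H a1 a2 a3 a4 a5 a6 a7 => ?_⟩
  have := H0 X Y T H a1 a2 a3 a4 a5 a6 a7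
  simp only [primFamM_rad hN] at this
  exact this

end Pool.Agent.V8H24.ZS
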